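import Mathlib
import Pool.Agent.H719R3.BG.Inf
import Pool.Agent.H450R2.Al.Local

/-!
Statements (as Props) of the independent parts of the theorem: algebraic tables whose slope map has
degree `> 2 deg` have only finitely many `n`-periodic billiard orbits.
A task `X` proves `theorem X_proof : St_X` in `Pool/Agent/H450R3/BH/X.lean`.
-/

set_option autoImplicit false

namespace H450BH

open IntermediateField Pool.Agent.H719R3.BG
open scoped ComplexConjugate

/-- Function fields of dimension one: every element of `K` outside `k` is transcendental over `k`,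
and `K` is finite over the field it generates. -/
structure OneDim (k K : Type) [Field k] [Field K] [Algebra k K] : Prop where
  tr : ∀ f : K, f ∉ Set.range (algebraMap k K) → Transcendental k f
  fin : ∀ f : K, f ∉ Set.range (algebraMap k K) → FiniteDimensional k⟮f⟯ K

/-- ABS.  Over an algebraically closed field irreducible polynomials in two variables are
absolutely irreducible. -/
def St_ABS : Prop := ∀ (k L : Type) [Field k] [Field L] [Algebra k L] [IsAlgClosed k]
  (P : MvPolynomial (Fin 2) k), Irreducible P → Irreducible (MvPolynomial.map (algebraMap k L) P)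

/-- FLD.  A finite set of elements, not all algebraic over `k`, generates a function field of
dimension one over a suitable relatively algebraically closed intermediate field `E`. -/
def St_FLD : Prop := ∀ (k Ω : Type) [Field k] [Field Ω] [Algebra k Ω] [CharZero k]
  (S : Finset Ω), (∃ s ∈ S, Transcendental k s) →
  ∃ E : IntermediateField k Ω, (∃ s ∈ S, s ∉ E) ∧ OneDim E (adjoin E (S : Set Ω))

/-- TAN.  If the boundary of a smooth table lies on the curve `P(z, conj z) = 0`, its tangent lines
are tangent to the curve. -/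
def St_TAN : Prop := ∀ (Ω : Set ℂ), Table Ω → ∀ (P : MvPolynomial (Fin 2) ℂ),
  (∀ p ∈ frontier Ω, MvPolynomial.eval ![p, conj p] P = 0) →
  ∀ p ∈ frontier Ω, ∀ u : ℂ, Tangent Ω p u →
    MvPolynomial.eval ![p, conj p] (MvPolynomial.pderiv 0 P) * u +
      MvPolynomial.eval ![p, conj p] (MvPolynomial.pderiv 1 P) * conj u = 0

/-- KER.  `R ∈ k[z,w][λ]` vanishes at `(q, φ)`, `φ` the slope of the curve `P = 0` at its generic
point `q`, only if it is in the ideal generated by `P` and `∂₀P + λ ∂₁P` (affine nonsingular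
curve). -/
def St_KER : Prop := ∀ (k K : Type) [Field k] [Field K] [Algebra k K]
  (P : MvPolynomial (Fin 2) k), Irreducible P →
  (∃ U V W : MvPolynomial (Fin 2) k,
    U * MvPolynomial.pderiv 0 P + V * MvPolynomial.pderiv 1 P + W * P = 1) →
  ∀ (q : Fin 2 → K), MvPolynomial.aeval q P = 0 → (∃ i, Transcendental k (q i)) →
    MvPolynomial.aeval q (MvPolynomial.pderiv 1 P) ≠ 0 →
    ∀ φ : K, MvPolynomial.aeval q (MvPolynomial.pderiv 0 P) +
      φ * MvPolynomial.aeval q (MvPolynomial.pderiv 1 P) = 0 →
    ∀ R : Polynomial (MvPolynomial (Fin 2) k),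
      R.eval₂ (MvPolynomial.aeval q : MvPolynomial (Fin 2) k →ₐ[k] K).toRingHom φ = 0 →
      ∃ A B : Polynomial (MvPolynomial (Fin 2) k), R = A * Polynomial.C P +
        B * (Polynomial.C (MvPolynomial.pderiv 0 P) +
          Polynomial.X * Polynomial.C (MvPolynomial.pderiv 1 P))

/-- RED.  Degree reduction in an ideal with two generators whose leading forms are coprime. -/
def St_RED : Prop := ∀ (E : Type) [Field E] (P Q : MvPolynomial (Fin 2) E) (m : ℕ), 1 ≤ m →
  P.totalDegree = m → Q.totalDegree ≤ m - 1 →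
  (∀ A B : MvPolynomial (Fin 2) E, A * MvPolynomial.homogeneousComponent m P +
    B * MvPolynomial.homogeneousComponent (m - 1) Q = 0 →
    MvPolynomial.homogeneousComponent m P ∣ B) →
  ∀ A B : MvPolynomial (Fin 2) E, (A * P + B * Q).totalDegree ≤ m - 1 →
    ∃ c : E, A * P + B * Q = MvPolynomial.C c * Q

/-- COP.  The form `F` of degree `m ≥ 1` over `k` whose partial derivatives have only the trivial
common zero is coprime to `∂₀F + λ ∂₁F` for transcendental `λ`. -/
def St_COP : Prop := ∀ (k E : Type) [Field k] [Field E] [Algebra k E] [CharZero k]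
  (F : MvPolynomial (Fin 2) k) (m : ℕ), 1 ≤ m → F.IsHomogeneous m → F ≠ 0 →
  (∃ N : ℕ, ∀ i : Fin 2, ∃ U V : MvPolynomial (Fin 2) k,
    U * MvPolynomial.pderiv 0 F + V * MvPolynomial.pderiv 1 F = MvPolynomial.X i ^ N) →
  ∀ l : E, Transcendental k l → ∀ A B : MvPolynomial (Fin 2) E,
    A * MvPolynomial.map (algebraMap k E) F +
      B * (MvPolynomial.map (algebraMap k E) (MvPolynomial.pderiv 0 F) +
        MvPolynomial.C l * MvPolynomial.map (algebraMap k E) (MvPolynomial.pderiv 1 F)) = 0 →
    MvPolynomial.map (algebraMap k E) F ∣ B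

/-- NS.  The slope map of a nonsingular curve of degree `m`, transversal to the line at infinity,
has degree at least `m (m + 1) / 2 - 1`. -/
def St_NS : Prop := ∀ (k K : Type) [Field k] [Field K] [Algebra k K] [CharZero k]
  (P : MvPolynomial (Fin 2) k) (m : ℕ), Irreducible P → P.totalDegree = m → 2 ≤ m →
  (∃ U V W : MvPolynomial (Fin 2) k,
    U * MvPolynomial.pderiv 0 P + V * MvPolynomial.pderiv 1 P + W * P = 1) →
  (∃ N : ℕ, ∀ i : Fin 2, ∃ U V : MvPolynomial (Fin 2) k,
    U * MvPolynomial.pderiv 0 (MvPolynomial.homogeneousComponent m P) +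
      V * MvPolynomial.pderiv 1 (MvPolynomial.homogeneousComponent m P) =
      MvPolynomial.X i ^ N) →
  ∀ (q : Fin 2 → K), MvPolynomial.aeval q P = 0 → (∃ i, Transcendental k (q i)) →
    MvPolynomial.aeval q (MvPolynomial.pderiv 1 P) ≠ 0 →
    ∀ φ : K, MvPolynomial.aeval q (MvPolynomial.pderiv 0 P) +
      φ * MvPolynomial.aeval q (MvPolynomial.pderiv 1 P) = 0 → Transcendental k φ →
    ∃ v : Fin (m * (m + 1) / 2 - 1) → MvPolynomial (Fin 2) k,
      LinearIndependent k⟮φ⟯ (fun i => MvPolynomial.aeval q (v i))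

/-- NUL.  Nullstellensatz: nonsingular in the affine plane / transversal to the line at infinity,
as polynomial identities. -/
def St_NUL : Prop := ∀ (P : MvPolynomial (Fin 2) ℂ) (m : ℕ),
  ((∀ x : Fin 2 → ℂ, MvPolynomial.eval x P = 0 → MvPolynomial.eval x (MvPolynomial.pderiv 0 P) = 0 →
      MvPolynomial.eval x (MvPolynomial.pderiv 1 P) = 0 → False) →
    ∃ U V W : MvPolynomial (Fin 2) ℂ,
      U * MvPolynomial.pderiv 0 P + V * MvPolynomial.pderiv 1 P + W * P = 1) ∧
  ((∀ x : Fin 2 → ℂ, x ≠ 0 →
      MvPolynomial.eval x (MvPolynomial.pderiv 0 (MvPolynomial.homogeneousComponent m P)) = 0 →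
      MvPolynomial.eval x (MvPolynomial.pderiv 1 (MvPolynomial.homogeneousComponent m P)) = 0 →
      False) →
    ∃ N : ℕ, ∀ i : Fin 2, ∃ U V : MvPolynomial (Fin 2) ℂ,
      U * MvPolynomial.pderiv 0 (MvPolynomial.homogeneousComponent m P) +
        V * MvPolynomial.pderiv 1 (MvPolynomial.homogeneousComponent m P) =
        MvPolynomial.X i ^ N)

end H450BH
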