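import Mathlib
import Pool.Agent.H450R3.BH.Stubs

/-!
Degrees of elements of a function field of dimension one: statements.
A task `X` proves `theorem X_proof : St_X` in `Pool/Agent/H450R3/BH/X.lean`.
-/

set_option autoImplicit false

namespace H450BH

open IntermediateField Pool.Agent.H719R3.BG
open scoped ComplexConjugate

section
variable (k K : Type) [Field k] [Field K] [Algebra k K]

open Classical in
/-- The degree `[K : k(f)]` of `f`, and `0` for constants. -/
noncomputable def dg (f : K) : ℕ :=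
  if f ∈ Set.range (algebraMap k K) then 0 else Module.finrank k⟮f⟯ K

variable {k K} in
/-- The value `R(f, g)` of `R = ∑ rᵢ(X) Yⁱ`. -/
noncomputable def ev (f g : K) (R : Polynomial (Polynomial k)) : K :=
  R.eval₂ (Polynomial.aeval f : Polynomial k →ₐ[k] K).toRingHom g

variable {k} in
/-- The degree of `R = ∑ rᵢ(X) Yⁱ` in `X`. -/
noncomputable def xdeg (R : Polynomial (Polynomial k)) : ℕ :=
  R.support.sup fun i => (R.coeff i).natDegree

end

/-- REL.  The irreducible relation between two elements. -/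
def St_REL : Prop := ∀ (k K : Type) [Field k] [Field K] [Algebra k K], OneDim k K →
  ∀ f g : K, f ∉ Set.range (algebraMap k K) →
  ∃ R : Polynomial (Polynomial k), Irreducible R ∧ ev f g R = 0 ∧ (∀ A, ev f g A = 0 → R ∣ A) ∧
    R.natDegree * Module.finrank k⟮f, g⟯ K = dg k K f ∧
    (g ∉ Set.range (algebraMap k K) → xdeg R * Module.finrank k⟮f, g⟯ K = dg k K g)

/-- ADD. -/
def St_ADD : Prop := ∀ (k K : Type) [Field k] [Field K] [Algebra k K] [CharZero k], OneDim k K →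
  ∀ f g : K, dg k K (f + g) ≤ dg k K f + dg k K g

/-- MUL. -/
def St_MUL : Prop := ∀ (k K : Type) [Field k] [Field K] [Algebra k K] [CharZero k], OneDim k K →
  ∀ f g : K, dg k K (f * g) ≤ dg k K f + dg k K g

/-- PEN. -/
def St_PEN : Prop := ∀ (k K : Type) [Field k] [Field K] [Algebra k K] [CharZero k], OneDim k K →
  ∀ ε u : K, u ≠ 0 → ε ∉ Set.range (algebraMap k K) →
  ∃ S : Finset k, ∀ l : k, l ∉ S → dg k K ε ≤ dg k K (u * (ε - algebraMap k K l))

/-- SQ. -/
def St_SQ : Prop := ∀ (k K : Type) [Field k] [Field K] [Algebra k K] [CharZero k], OneDim k K →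
  ∀ f : K, dg k K (f ^ 2) = 2 * dg k K f

/-- LIN.  Linear functions on a curve of degree `m`. -/
def St_LIN : Prop := ∀ (k K : Type) [Field k] [Field K] [Algebra k K] [CharZero k], OneDim k K →
  ∀ (P : MvPolynomial (Fin 2) k) (q : Fin 2 → K), P ≠ 0 → MvPolynomial.aeval q P = 0 →
  ∀ l : k, dg k K (q 1 - algebraMap k K l * q 0) ≤
    P.totalDegree * Module.finrank k⟮q 0, q 1⟯ K

/-- PAR.  A curve with more than `2 m` points at which the tangent has the slope `l`: the slope map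
has degree more than `2 m`. -/
def St_PAR : Prop := ∀ (k K : Type) [Field k] [Field K] [Algebra k K] [CharZero k], OneDim k K →
  ∀ (P : MvPolynomial (Fin 2) k) (q : Fin 2 → K), Irreducible P → MvPolynomial.aeval q P = 0 →
  (∃ i, q i ∉ Set.range (algebraMap k K)) →
  MvPolynomial.aeval q (MvPolynomial.pderiv 1 P) ≠ 0 →
  ∀ φ : K, MvPolynomial.aeval q (MvPolynomial.pderiv 0 P) +
    φ * MvPolynomial.aeval q (MvPolynomial.pderiv 1 P) = 0 →
  φ ∉ Set.range (algebraMap k K) →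
  ∀ (l : k) (Z : Finset (Fin 2 → k)), (∀ x ∈ Z, MvPolynomial.eval x P = 0 ∧
    MvPolynomial.eval x (MvPolynomial.pderiv 0 P) +
      l * MvPolynomial.eval x (MvPolynomial.pderiv 1 P) = 0 ∧
    MvPolynomial.eval x (MvPolynomial.pderiv 1 P) ≠ 0) →
  ∃ s : K, s ∈ k⟮q 0, q 1⟯ ∧ LinearIndependent k⟮φ⟯ (fun i : Fin Z.card => s ^ (i : ℕ))

/-- TRP.  The slope of a curve which is not a line is not constant. -/
def St_TRP : Prop := ∀ (k K : Type) [Field k] [Field K] [Algebra k K] [CharZero k], OneDim k K →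
  ∀ (P : MvPolynomial (Fin 2) k) (q : Fin 2 → K), Irreducible P → 2 ≤ P.totalDegree →
  MvPolynomial.aeval q P = 0 → (∃ i, q i ∉ Set.range (algebraMap k K)) →
  MvPolynomial.aeval q (MvPolynomial.pderiv 1 P) ≠ 0 →
  ∀ φ : K, MvPolynomial.aeval q (MvPolynomial.pderiv 0 P) +
    φ * MvPolynomial.aeval q (MvPolynomial.pderiv 1 P) = 0 →
  φ ∉ Set.range (algebraMap k K)

/-- MAIN.  The counting inequality.  The vertices of a closed billiard polygon over a function
field: `q j 0` and `q j 1` are the isotropic coordinates, `τ j` the slope of the mirror. -/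
def St_MAIN : Prop := ∀ (k K : Type) [Field k] [Field K] [Algebra k K] [CharZero k], OneDim k K →
  ∀ (P : MvPolynomial (Fin 2) k) (n : ℕ), 0 < n → P ≠ 0 →
  ∀ (q : ℤ → Fin 2 → K) (τ : ℤ → K),
  (∀ j, q (j + n) = q j) → (∀ j, MvPolynomial.aeval (q j) P = 0) →
  (∀ j i, q (j + 1) i ≠ q j i) →
  (∀ j, (q j 1 - q (j - 1) 1) / (q j 0 - q (j - 1) 0) *
    ((q (j + 1) 1 - q j 1) / (q (j + 1) 0 - q j 0)) = τ j ^ 2) →
  (∀ j, (∀ i, q j i ∈ Set.range (algebraMap k K)) → τ j ^ 2 ∈ Set.range (algebraMap k K)) →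
  (∀ j, (∃ i, q j i ∉ Set.range (algebraMap k K)) → τ j ∈ k⟮q j 0, q j 1⟯ ∧
    τ j ∉ Set.range (algebraMap k K) ∧
    ∃ v : Fin (2 * P.totalDegree + 1) → K, (∀ i, v i ∈ k⟮q j 0, q j 1⟯) ∧
      LinearIndependent k⟮τ j⟯ v) →
  ∀ j i, q j i ∈ Set.range (algebraMap k K)

/-- GER.  Infinitely many closed billiard polygons on a curve give a polygon with vertices in a
field extension of `ℂ`, not all of them constant. -/
def St_GER : Prop := ∀ (Ω : Set ℂ), Table Ω → ∀ (P : MvPolynomial (Fin 2) ℂ), Irreducible P →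
  (∀ p ∈ frontier Ω, MvPolynomial.eval ![p, conj p] P = 0) →
  -- the conclusion of TAN
  (∀ p ∈ frontier Ω, ∀ u : ℂ, Tangent Ω p u →
    MvPolynomial.eval ![p, conj p] (MvPolynomial.pderiv 0 P) * u +
      MvPolynomial.eval ![p, conj p] (MvPolynomial.pderiv 1 P) * conj u = 0) →
  ∀ n : ℕ, 0 < n → {x : ℤ → ℂ | Polygon Ω n x}.Infinite →
  ∃ (L : Type) (_ : Field L) (_ : Algebra ℂ L) (q : ℤ → Fin 2 → L) (τ : ℤ → L),
    (∀ j, q (j + n) = q j) ∧ (∀ j, MvPolynomial.aeval (q j) P = 0) ∧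
    (∀ j i, q (j + 1) i ≠ q j i) ∧
    (∀ j, (q j 1 - q (j - 1) 1) / (q j 0 - q (j - 1) 0) *
      ((q (j + 1) 1 - q j 1) / (q (j + 1) 0 - q j 0)) = τ j ^ 2) ∧
    (∀ j, (∀ i, q j i ∈ Set.range (algebraMap ℂ L)) → τ j ∈ Set.range (algebraMap ℂ L)) ∧
    (∀ j, (∃ i, q j i ∉ Set.range (algebraMap ℂ L)) →
      MvPolynomial.aeval (q j) (MvPolynomial.pderiv 1 P) ≠ 0 ∧
      MvPolynomial.aeval (q j) (MvPolynomial.pderiv 0 P) +
        τ j * MvPolynomial.aeval (q j) (MvPolynomial.pderiv 1 P) = 0) ∧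
    ∃ j i, q j i ∉ Set.range (algebraMap ℂ L)

end H450BH
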