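import Mathlib
import Pool.Agent.H450R3.BH.Stubs2

/-!
Task ABS (helper409): over an algebraically closed field irreducible polynomials are absolutely
irreducible.
-/

set_option autoImplicit false

namespace H450BH

open MvPolynomial

/-- the weak Nullstellensatz: equations solvable over an extension are solvable over `k` -/
theorem abs_null {k L τ : Type} [Field k] [Field L] [Algebra k L] [IsAlgClosed k] [Finite τ]
    (S : Set (MvPolynomial τ k)) (y : τ → L) (hy : ∀ p ∈ S, aeval y p = 0) :
    ∃ x : τ → k, ∀ p ∈ S, eval x p = 0 := by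
  have hI : Ideal.span S ≠ ⊤ := by
    intro h
    have h1 : (1 : MvPolynomial τ k) ∈ Ideal.span S := h ▸ Submodule.mem_top
    have h2 : Ideal.span S ≤ RingHom.ker (aeval y : MvPolynomial τ k →ₐ[k] L) :=
      Ideal.span_le.2 fun p hp => hy p hp
    have h3 := h2 h1
    rw [RingHom.mem_ker, map_one] at h3
    exact one_ne_zero h3
  obtain ⟨M, hM, hIM⟩ := Ideal.exists_le_maximal _ hI
  obtain ⟨x, hx⟩ := eq_vanishingIdeal_singleton_of_isMaximal (k := k) k hM
  refine ⟨x, fun p hp => ?_⟩
  have h1 : p ∈ M := hIM (Ideal.subset_span hp)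
  rw [hx, mem_vanishingIdeal_singleton_iff] at h1
  simpa using h1

/-- the generic polynomial with given support -/
noncomputable def absU {σ k : Type} [Field k] (s : Finset (σ →₀ ℕ)) (τ : Type) (ι : s → τ) :
    MvPolynomial σ (MvPolynomial τ k) := ∑ a : s, monomial (a : σ →₀ ℕ) (X (ι a))

theorem absU_map {σ k R : Type} [Field k] [CommRing R] (s : Finset (σ →₀ ℕ)) (τ : Type)
    (ι : s → τ) (φ : MvPolynomial τ k →+* R) :
    map φ (absU (k := k) s τ ι) = ∑ a : s, monomial (a : σ →₀ ℕ) (φ (X (ι a))) := by
  unfold absU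
  rw [map_sum]
  exact Finset.sum_congr rfl fun a _ => map_monomial _ _ _

theorem absU_self {σ R : Type} [CommRing R] (G : MvPolynomial σ R) :
    ∑ a : G.support, monomial (a : σ →₀ ℕ) (coeff (a : σ →₀ ℕ) G) = G := by
  conv_rhs => rw [← support_sum_monomial_coeff G]
  exact Finset.sum_coe_sort G.support fun a => monomial a (coeff a G)

theorem abs_supp {σ R : Type} [CommRing R] (s : Finset (σ →₀ ℕ)) (f : s → R) :
    (∑ a : s, monomial (a : σ →₀ ℕ) (f a)).support ⊆ s := by
  classical
  intro b hb
  obtain ⟨a, -, ha⟩ := Finset.mem_biUnion.1 (support_sum hb)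
  have := support_monomial_subset ha
  rw [Finset.mem_singleton] at this
  rw [this]
  exact a.2

theorem abs_coeff {σ R : Type} [CommRing R] (s : Finset (σ →₀ ℕ)) (f : s → R) (a : s) :
    coeff (a : σ →₀ ℕ) (∑ a : s, monomial (a : σ →₀ ℕ) (f a)) = f a := by
  classical
  rw [coeff_sum, Finset.sum_eq_single a]
  · rw [coeff_monomial, if_pos rfl]
  · intro b _ hb
    rw [coeff_monomial, if_neg fun h => hb (Subtype.ext h)]
  · intro h
    exact absurd (Finset.mem_univ _) h

/-- a factorisation over `L` gives one over `k` with the same supports -/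
theorem abs_descend {σ k L : Type} [Field k] [Field L] [Algebra k L] [IsAlgClosed k]
    (P : MvPolynomial σ k) (G H : MvPolynomial σ L) (h : map (algebraMap k L) P = G * H)
    (a0 : σ →₀ ℕ) (ha0 : coeff a0 G = 1) :
    ∃ G' H' : MvPolynomial σ k, G' * H' = P ∧ coeff a0 G' = 1 ∧ G'.support ⊆ G.support ∧
      H'.support ⊆ H.support := by
  classical
  have ha : a0 ∈ G.support := by rw [mem_support_iff, ha0]; exact one_ne_zero
  let τ := G.support ⊕ H.support
  let U : MvPolynomial σ (MvPolynomial τ k) := absU G.support τ Sum.inl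
  let V : MvPolynomial σ (MvPolynomial τ k) := absU H.support τ Sum.inr
  let E : MvPolynomial σ (MvPolynomial τ k) := U * V - map C P
  let S : Set (MvPolynomial τ k) := insert (X (Sum.inl ⟨a0, ha⟩) - 1) (Set.range fun c => coeff c E)
  let y : τ → L := Sum.elim (fun a => coeff (a : σ →₀ ℕ) G) (fun b => coeff (b : σ →₀ ℕ) H)
  have hE : ∀ {R : Type} [CommRing R] (φ : MvPolynomial τ k →+* R), map φ E =
      (∑ a : G.support, monomial (a : σ →₀ ℕ) (φ (X (Sum.inl a)))) *
        (∑ b : H.support, monomial (b : σ →₀ ℕ) (φ (X (Sum.inr b)))) - map (φ.comp C) P := by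
    intro R _ φ
    rw [map_sub, map_mul, absU_map, absU_map, map_map]
  obtain ⟨x, hx⟩ := abs_null S y (by
    intro p hp
    rcases hp with rfl | ⟨c, rfl⟩
    · rw [map_sub, aeval_X, map_one]
      simp only [y, Sum.elim_inl, ha0, sub_self]
    · change (aeval y : MvPolynomial τ k →ₐ[k] L).toRingHom (coeff c E) = 0
      rw [← coeff_map, hE]
      have h1 : ∀ a : G.support, (aeval y : MvPolynomial τ k →ₐ[k] L).toRingHom
          (X (Sum.inl a)) = coeff (a : σ →₀ ℕ) G := fun a => by
        change aeval y (X (Sum.inl a)) = _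
        rw [aeval_X]; rfl
      have h2 : ∀ a : H.support, (aeval y : MvPolynomial τ k →ₐ[k] L).toRingHom
          (X (Sum.inr a)) = coeff (a : σ →₀ ℕ) H := fun a => by
        change aeval y (X (Sum.inr a)) = _
        rw [aeval_X]; rfl
      have h3 : (aeval y : MvPolynomial τ k →ₐ[k] L).toRingHom.comp C = algebraMap k L := by
        ext r
        change aeval y (C r) = _
        rw [aeval_C]
      simp only [h1, h2, h3]
      rw [absU_self, absU_self, ← h, sub_self, coeff_zero])
  have hz : map (eval x) E = 0 := by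
    ext c
    rw [coeff_map, coeff_zero]
    exact hx _ (Set.mem_insert_of_mem _ ⟨c, rfl⟩)
  have ha1 := hx _ (Set.mem_insert _ _)
  rw [map_sub, map_one, eval_X, sub_eq_zero] at ha1
  rw [hE, sub_eq_zero] at hz
  have h3 : (eval x).comp C = RingHom.id k := by
    ext r
    simp
  rw [h3, map_id] at hz
  simp only [eval_X] at hz
  refine ⟨_, _, hz, ?_, abs_supp _ _, abs_supp _ _⟩
  rw [← ha1]
  exact abs_coeff G.support (fun a => x (Sum.inl a)) ⟨a0, ha⟩

theorem abs_unit {σ R : Type} [Field R] {P : MvPolynomial σ R} (h0 : P ≠ 0)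
    (h : P.totalDegree = 0) : IsUnit P := by
  rw [isUnit_iff_eq_C_of_isReduced]
  rw [totalDegree_eq_zero_iff_eq_C] at h
  refine ⟨coeff 0 P, ?_, h⟩
  rw [isUnit_iff_ne_zero]
  intro hc
  rw [hc, C_0] at h
  exact h0 h

theorem abs_deg_unit {σ R : Type} [Field R] {P : MvPolynomial σ R} (h : IsUnit P) :
    P.totalDegree = 0 := (isUnit_iff_totalDegree_of_isReduced.1 h).2

theorem abs_map_deg {σ k L : Type} [Field k] [Field L] [Algebra k L] (P : MvPolynomial σ k) :
    (map (algebraMap k L) P).totalDegree = P.totalDegree := by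
  unfold totalDegree
  rw [support_map_of_injective _ (algebraMap k L).injective]

theorem abs_irr {σ k L : Type} [Field k] [Field L] [Algebra k L] [IsAlgClosed k]
    (P : MvPolynomial σ k) (hP : Irreducible P) : Irreducible (map (algebraMap k L) P) := by
  have hP0 : P ≠ 0 := hP.ne_zero
  refine ⟨fun hu => hP.not_isUnit ?_, ?_⟩
  · have := abs_deg_unit hu
    rw [abs_map_deg] at this
    exact abs_unit hP0 this
  · intro G H hGH
    have hPL : map (algebraMap k L) P ≠ 0 := by
      intro h
      apply hP0
      exact map_injective _ (algebraMap k L).injective (by rw [h, map_zero])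
    have hG : G ≠ 0 := by rintro rfl; exact hPL (by rw [hGH, zero_mul])
    have hH : H ≠ 0 := by rintro rfl; exact hPL (by rw [hGH, mul_zero])
    obtain ⟨a0, ha0, hdeg⟩ : ∃ a0 ∈ G.support, (a0.sum fun _ e => e) = G.totalDegree := by
      unfold totalDegree
      obtain ⟨a, ha, h⟩ := Finset.exists_mem_eq_sup G.support
        (MvPolynomial.support_nonempty.2 hG) (fun s => s.sum fun _ e => e)
      exact ⟨a, ha, h.symm⟩
    set c := coeff a0 G with hc
    have hc0 : c ≠ 0 := mem_support_iff.1 ha0
    obtain ⟨G', H', hGH', hc', hsG, hsH⟩ := abs_descend P (C c⁻¹ * G) (C c * H) (by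
      rw [hGH]
      calc G * H = C (c⁻¹ * c) * (G * H) := by rw [inv_mul_cancel₀ hc0, C_1, one_mul]
        _ = _ := by rw [C_mul]; ring) a0 (by rw [coeff_C_mul, ← hc, inv_mul_cancel₀ hc0])
    have hG'0 : G' ≠ 0 := by rintro rfl; exact hP0 (by rw [← hGH', zero_mul])
    have hH'0 : H' ≠ 0 := by rintro rfl; exact hP0 (by rw [← hGH', mul_zero])
    have d1 : G.totalDegree ≤ G'.totalDegree := by
      rw [← hdeg]
      exact le_totalDegree (by rw [mem_support_iff, hc']; exact one_ne_zero)
    have hle : ∀ (a : L) (F : MvPolynomial σ L), (C a * F).totalDegree ≤ F.totalDegree :=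
      fun a F => (totalDegree_mul _ _).trans (by rw [totalDegree_C, zero_add])
    have d2 : G'.totalDegree ≤ G.totalDegree := by
      refine le_trans ?_ (hle c⁻¹ G)
      exact Finset.sup_mono hsG
    have d3 : H'.totalDegree ≤ H.totalDegree := by
      refine le_trans ?_ (hle c H)
      exact Finset.sup_mono hsH
    have d4 : P.totalDegree = G.totalDegree + H.totalDegree := by
      rw [← abs_map_deg (L := L), hGH, totalDegree_mul_of_isDomain hG hH]
    have d5 : P.totalDegree = G'.totalDegree + H'.totalDegree := by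
      rw [← hGH', totalDegree_mul_of_isDomain hG'0 hH'0]
    rcases hP.isUnit_or_isUnit hGH'.symm with hu | hu
    · left
      have := abs_deg_unit hu
      exact abs_unit hG (by omega)
    · right
      have := abs_deg_unit hu
      exact abs_unit hH (by omega)

theorem ABS_proof : St_ABS := by
  intro k L _ _ _ _ P hP
  exact abs_irr P hP

end H450BH
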