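import Mathlib
import Pool.Agent.H450R3.BH.Stubs2
import Pool.Agent.H114R2.DgAux

/-!
`dg (f + g) ≤ dg f + dg g`.
-/

set_option autoImplicit false

namespace H450BH

open IntermediateField Polynomial

theorem add_sim (k K : Type) [Field k] [Field K] [Algebra k K] (a : k) (g : K) :
    dg k K (algebraMap k K a + g) = dg k K g := by
  apply dga_dg_congr
  · constructor
    · rintro ⟨b, hb⟩
      refine ⟨b - a, ?_⟩
      rw [map_sub, hb]
      ring
    · rintro ⟨b, hb⟩
      refine ⟨a + b, ?_⟩
      rw [map_add, hb]
  · apply le_antisymm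
    · rw [adjoin_simple_le_iff]
      exact add_mem (IntermediateField.algebraMap_mem _ a) (mem_adjoin_simple_self k g)
    · rw [adjoin_simple_le_iff]
      have h : g = (algebraMap k K a + g) - algebraMap k K a := by ring
      have h2 : (algebraMap k K a + g) - algebraMap k K a ∈ k⟮algebraMap k K a + g⟯ :=
        sub_mem (mem_adjoin_simple_self k _) (IntermediateField.algebraMap_mem _ a)
      rw [← h] at h2
      exact h2

theorem add_pair (k K : Type) [Field k] [Field K] [Algebra k K] (f g : K) :
    k⟮f + g, f⟯ = k⟮f, g⟯ := by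
  apply le_antisymm
  · rw [adjoin_le_iff]
    intro x hx
    have hf : f ∈ k⟮f, g⟯ := subset_adjoin k _ (by simp)
    have hg : g ∈ k⟮f, g⟯ := subset_adjoin k _ (by simp)
    rcases hx with rfl | hx
    · exact add_mem hf hg
    · rw [Set.mem_singleton_iff.1 hx]
      exact hf
  · rw [adjoin_le_iff]
    intro x hx
    have hf : f ∈ k⟮f + g, f⟯ := subset_adjoin k _ (by simp)
    have hc : f + g ∈ k⟮f + g, f⟯ := subset_adjoin k _ (by simp)
    rcases hx with rfl | hx
    · exact hf
    · rw [Set.mem_singleton_iff.1 hx]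
      have h : g = (f + g) - f := by ring
      have h2 : (f + g) - f ∈ k⟮f + g, f⟯ := sub_mem hc hf
      rw [← h] at h2
      exact h2

/-- The polynomial `∑ rᵢ(X) (c - X)ⁱ`. -/
noncomputable def addM (k K : Type) [Field k] [Field K] [Algebra k K] (c : K)
    (R : Polynomial (Polynomial k)) : Polynomial k⟮c⟯ :=
  R.eval₂ (Polynomial.mapRingHom (algebraMap k k⟮c⟯)) (C (dga_gen k K c) - X)

theorem addM_aeval (k K : Type) [Field k] [Field K] [Algebra k K] (f g : K)
    (R : Polynomial (Polynomial k)) :
    Polynomial.aeval f (addM k K (f + g) R) = ev f g R := by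
  unfold addM ev
  rw [Polynomial.aeval_def]
  have h1 : Polynomial.eval₂ (algebraMap k⟮f + g⟯ K) f
      (Polynomial.eval₂ (Polynomial.mapRingHom (algebraMap k k⟮f + g⟯))
        (C (dga_gen k K (f + g)) - X) R)
      = (Polynomial.eval₂RingHom (algebraMap k⟮f + g⟯ K) f)
      (Polynomial.eval₂ (Polynomial.mapRingHom (algebraMap k k⟮f + g⟯))
        (C (dga_gen k K (f + g)) - X) R) := rfl
  rw [h1, Polynomial.hom_eval₂]
  have h2 : (Polynomial.eval₂RingHom (algebraMap k⟮f + g⟯ K) f)
      (C (dga_gen k K (f + g)) - X) = g := by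
    rw [map_sub]
    simp only [Polynomial.coe_eval₂RingHom, Polynomial.eval₂_C, Polynomial.eval₂_X]
    rw [dga_gen_map]
    ring
  rw [h2]
  have h3 : (Polynomial.eval₂RingHom (algebraMap k⟮f + g⟯ K) f).comp
      (Polynomial.mapRingHom (algebraMap k k⟮f + g⟯))
      = (Polynomial.aeval f : Polynomial k →ₐ[k] K).toRingHom := by
    apply Polynomial.ringHom_ext
    · intro a
      simp only [RingHom.comp_apply, Polynomial.coe_mapRingHom, Polynomial.map_C,
        Polynomial.coe_eval₂RingHom, Polynomial.eval₂_C, AlgHom.toRingHom_eq_coe,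
        RingHom.coe_coe, Polynomial.aeval_C]
      rfl
    · simp
  rw [h3]

theorem addM_natDegree (k K : Type) [Field k] [Field K] [Algebra k K] (c : K)
    (R : Polynomial (Polynomial k)) : (addM k K c R).natDegree ≤ xdeg R + R.natDegree := by
  unfold addM
  rw [Polynomial.eval₂_eq_sum, Polynomial.sum_def]
  apply Polynomial.natDegree_sum_le_of_forall_le
  intro i hi
  refine le_trans Polynomial.natDegree_mul_le ?_
  apply Nat.add_le_add
  · refine le_trans (Polynomial.natDegree_map_le) ?_
    exact Finset.le_sup (f := fun i => (R.coeff i).natDegree) hi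
  · refine le_trans Polynomial.natDegree_pow_le ?_
    have h1 : (C (dga_gen k K c) - X : Polynomial k⟮c⟯).natDegree ≤ 1 := by
      refine le_trans (Polynomial.natDegree_sub_le _ _) ?_
      simp
    have h2 : i ≤ R.natDegree := Polynomial.le_natDegree_of_mem_supp i hi
    calc i * (C (dga_gen k K c) - X : Polynomial k⟮c⟯).natDegree ≤ i * 1 :=
          Nat.mul_le_mul_left _ h1
      _ ≤ R.natDegree := by omega

theorem addM_ne_zero (k K : Type) [Field k] [Field K] [Algebra k K] [CharZero k] (c : K)
    (hc : Transcendental k c) (R : Polynomial (Polynomial k)) (hR : R ≠ 0) :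
    addM k K c R ≠ 0 := by
  intro h0
  apply hR
  have key : ∀ x : k, R.map (Polynomial.evalRingHom x) = 0 := by
    intro x
    have h1 : (addM k K c R).eval (algebraMap k k⟮c⟯ x) = 0 := by rw [h0, Polynomial.eval_zero]
    have h2 : (addM k K c R).eval (algebraMap k k⟮c⟯ x)
        = Polynomial.aeval (dga_gen k K c)
          ((R.map (Polynomial.evalRingHom x)).comp (X + C (-x))) := by
      unfold addM
      have e1 : Polynomial.eval (algebraMap k k⟮c⟯ x)
          (Polynomial.eval₂ (Polynomial.mapRingHom (algebraMap k k⟮c⟯))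
            (C (dga_gen k K c) - X) R)
          = (Polynomial.evalRingHom (algebraMap k k⟮c⟯ x))
          (Polynomial.eval₂ (Polynomial.mapRingHom (algebraMap k k⟮c⟯))
            (C (dga_gen k K c) - X) R) := rfl
      rw [e1, Polynomial.hom_eval₂, Polynomial.aeval_comp, Polynomial.aeval_def,
        Polynomial.eval₂_map]
      have e2 : (Polynomial.evalRingHom (algebraMap k k⟮c⟯ x))
          (C (dga_gen k K c) - X) = Polynomial.aeval (dga_gen k K c) (X + C (-x)) := by
        simp [sub_eq_add_neg]
      rw [e2]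
      have e3 : (Polynomial.evalRingHom (algebraMap k k⟮c⟯ x)).comp
          (Polynomial.mapRingHom (algebraMap k k⟮c⟯))
          = (algebraMap k k⟮c⟯).comp (Polynomial.evalRingHom x) := by
        apply Polynomial.ringHom_ext
        · intro a
          simp
        · simp
      rw [e3]
    rw [h2] at h1
    have h3 := dga_aeval_gen k K c hc _ h1
    exact Polynomial.comp_X_add_C_eq_zero_iff.1 h3
  ext1 i
  rw [Polynomial.coeff_zero]
  apply Polynomial.funext
  intro x
  have h4 := congrArg (fun p => Polynomial.coeff p i) (key x)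
  simp only [Polynomial.coeff_map, Polynomial.coe_evalRingHom, Polynomial.coeff_zero] at h4
  rw [h4, Polynomial.eval_zero]

theorem ADD_proof (hREL : St_REL) : St_ADD := by
  intro k K _ _ _ _ hD f g
  by_cases hf : f ∈ Set.range (algebraMap k K)
  · obtain ⟨a, rfl⟩ := hf
    rw [add_sim]
    exact Nat.le_add_left _ _
  by_cases hg : g ∈ Set.range (algebraMap k K)
  · obtain ⟨a, rfl⟩ := hg
    rw [add_comm f, add_sim]
    exact Nat.le_add_right _ _
  by_cases hc : f + g ∈ Set.range (algebraMap k K)
  · rw [dga_dg_const k K _ hc]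
    exact Nat.zero_le _
  obtain ⟨R, hirr, hev, -, hdf, hdg⟩ := hREL k K hD f g hf
  rw [← hdf, ← hdg hg, dga_dg_nonconst k K _ hc, ← add_mul]
  have hb := dga_bound k K (f + g) f (hD.fin _ hc) (addM k K (f + g) R)
    (addM_ne_zero k K (f + g) (hD.tr _ hc) R hirr.ne_zero)
    (by rw [addM_aeval, hev])
  rw [dga_finrank_congr k K _ _ (add_pair k K f g)] at hb
  refine le_trans hb ?_
  apply Nat.mul_le_mul_right
  refine le_trans (addM_natDegree k K (f + g) R) ?_
  rw [add_comm]

end H450BH
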