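import Mathlib
import Pool.Agent.H450R3.BH.Stubs2

/-! TASK COP: coprimality of the leading forms. -/

set_option autoImplicit false

namespace H450BH

open MvPolynomial

theorem COP_deg {k : Type} [Field k] (F : MvPolynomial (Fin 2) k) (m : ℕ)
    (hF : F.IsHomogeneous m) (d : Fin 2 →₀ ℕ) (hd : d ∈ F.support) : d 0 + d 1 = m := by
  have h := hF (mem_support_iff.1 hd)
  have h1 : Finsupp.degree d = m := by
    rw [Finsupp.degree_eq_weight_one]
    exact h
  rw [← h1, Finsupp.degree_eq_sum, Fin.sum_univ_two]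

theorem COP_eval {k : Type} [Field k] (F : MvPolynomial (Fin 2) k) (m : ℕ)
    (hF : F.IsHomogeneous m) (x t : k) :
    eval ![x, x * t] F = x ^ m * eval ![1, t] F := by
  rw [eval_eq', eval_eq', Finset.mul_sum]
  refine Finset.sum_congr rfl fun d hd => ?_
  rw [Fin.prod_univ_two, Fin.prod_univ_two, ← COP_deg F m hF d hd]
  simp only [Matrix.cons_val_zero, Matrix.cons_val_one]
  rw [pow_add, mul_pow]
  ring

/-- a nonzero form does not vanish at `(1, l)`, `l` transcendental -/
theorem COP_ne {k E : Type} [Field k] [Field E] [Algebra k E] [CharZero k]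
    (F : MvPolynomial (Fin 2) k) (m : ℕ) (hF : F.IsHomogeneous m) (h0 : F ≠ 0) (l : E)
    (hl : Transcendental k l) : aeval ![1, l] F ≠ 0 := by
  intro h
  set T : Polynomial k := aeval ![(1 : Polynomial k), Polynomial.X] F with hT
  have hTev : ∀ {A : Type} [CommRing A] [Algebra k A] (t : A),
      Polynomial.aeval t T = aeval ![1, t] F := by
    intro A _ _ t
    rw [hT]
    have h4 : (Polynomial.aeval t : Polynomial k →ₐ[k] A).comp
        (aeval ![(1 : Polynomial k), Polynomial.X]) = aeval ![1, t] := by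
      apply MvPolynomial.algHom_ext
      intro i
      fin_cases i
      · simp
      · simp
    exact congrArg (fun φ : MvPolynomial (Fin 2) k →ₐ[k] A => φ F) h4
  have hT0 : T = 0 := by
    by_contra hne
    exact hl ⟨T, hne, by rw [hTev]; exact h⟩
  have h1 : X 0 * F = 0 := by
    apply MvPolynomial.funext
    intro x
    rw [map_mul, eval_X, map_zero]
    by_cases hx : x 0 = 0
    · rw [hx, zero_mul]
    · have h2 := COP_eval F m hF (x 0) (x 1 / x 0)
      have h3 := hTev (A := k) (x 1 / x 0)
      rw [hT0, map_zero, aeval_eq_eval] at h3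
      have h3' : eval ![1, x 1 / x 0] F = 0 := h3.symm
      rw [h3', mul_zero] at h2
      have h4 : ![x 0, x 0 * (x 1 / x 0)] = x := by
        funext j
        fin_cases j
        · rfl
        · show x 0 * (x 1 / x 0) = x 1
          field_simp
      rw [h4] at h2
      rw [h2, mul_zero]
  rcases mul_eq_zero.1 h1 with h2 | h2
  · exact MvPolynomial.X_ne_zero _ h2
  · exact h0 h2

theorem COP_relprime {k E : Type} [Field k] [Field E] [Algebra k E] [CharZero k]
    (F : MvPolynomial (Fin 2) k) (m : ℕ) (hm : 1 ≤ m) (hF : F.IsHomogeneous m) (h0 : F ≠ 0)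
    (hN : ∃ N : ℕ, ∀ i : Fin 2, ∃ U V : MvPolynomial (Fin 2) k,
      U * pderiv 0 F + V * pderiv 1 F = X i ^ N) (l : E) (hl : Transcendental k l) :
    IsRelPrime (map (algebraMap k E) F)
      (map (algebraMap k E) (pderiv 0 F) + C l * map (algebraMap k E) (pderiv 1 F)) := by
  set ι : MvPolynomial (Fin 2) k →+* MvPolynomial (Fin 2) E := map (algebraMap k E) with hι
  have hmap0 : ι F ≠ 0 := by
    intro h
    apply h0
    apply map_injective (algebraMap k E) (algebraMap k E).injective
    rw [map_zero]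
    exact h
  intro d hdF hdQ
  by_contra hu
  have hd0 : d ≠ 0 := by
    rintro rfl
    exact hmap0 (zero_dvd_iff.1 hdF)
  obtain ⟨G, hG, hGd⟩ := WfDvdMonoid.exists_irreducible_factor hu hd0
  have hGF := hGd.trans hdF
  have hGQ := hGd.trans hdQ
  have hGp : Prime G := hG.prime
  -- Euler
  have hE := hF.sum_X_mul_pderiv
  rw [Fin.sum_univ_two] at hE
  have hE' := congrArg ι hE
  rw [map_add, map_mul, map_mul, map_nsmul] at hE'
  have hX : ∀ i, ι (X i) = X i := fun i => map_X _ _
  rw [hX, hX] at hE'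
  have hdiv : G ∣ (C l * X 0 - X 1) * ι (pderiv 1 F) := by
    have h1 : (C l * X 0 - X 1) * ι (pderiv 1 F) =
        X 0 * (ι (pderiv 0 F) + C l * ι (pderiv 1 F)) - m • ι F := by
      rw [← hE']
      ring
    rw [h1]
    apply dvd_sub
    · exact Dvd.dvd.mul_left hGQ _
    · exact dvd_nsmul_of_dvd _ hGF
  rcases hGp.dvd_or_dvd hdiv with h1 | h1
  · -- G divides the linear form
    obtain ⟨H, hH⟩ := h1
    have hL0 : (C l * X 0 - X 1 : MvPolynomial (Fin 2) E) ≠ 0 := by
      intro h2
      have h3 := congrArg (eval ![(0 : E), 1]) h2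
      simp at h3
    have hH0 : H ≠ 0 := by
      rintro rfl
      rw [mul_zero] at hH
      exact hL0 hH
    have hdeg : G.totalDegree + H.totalDegree ≤ 1 := by
      rw [← totalDegree_mul_of_isDomain hG.ne_zero hH0, ← hH]
      refine (totalDegree_sub _ _).trans (max_le ?_ ?_)
      · refine (totalDegree_mul _ _).trans ?_
        rw [totalDegree_C, totalDegree_X]
      · rw [totalDegree_X]
    have hGdeg : G.totalDegree ≠ 0 := by
      intro h2
      rw [totalDegree_eq_zero_iff_eq_C] at h2
      apply hG.not_isUnit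
      rw [h2]
      apply IsUnit.map C
      rw [isUnit_iff_ne_zero]
      intro h3
      rw [h3, C_0] at h2
      exact hG.ne_zero h2
    have hHdeg : H.totalDegree = 0 := by omega
    rw [totalDegree_eq_zero_iff_eq_C] at hHdeg
    have hc : coeff 0 H ≠ 0 := by
      intro h3
      rw [h3, C_0] at hHdeg
      exact hH0 hHdeg
    have hLF : C l * X 0 - X 1 ∣ ι F := by
      rw [hH, hHdeg]
      refine dvd_trans ?_ hGF
      refine ⟨C (coeff 0 H)⁻¹, ?_⟩
      rw [mul_assoc, ← C_mul, mul_inv_cancel₀ hc, C_1, mul_one]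
    obtain ⟨W, hW⟩ := hLF
    have h2 : aeval ![1, l] F = 0 := by
      have h3 : eval ![1, l] (ι F) = aeval ![1, l] F := by
        rw [hι, eval_map]
        rfl
      rw [← h3, hW, map_mul]
      simp
    exact COP_ne F m hF h0 l hl h2
  · have h2 : G ∣ ι (pderiv 0 F) := by
      have h3 : ι (pderiv 0 F) = (ι (pderiv 0 F) + C l * ι (pderiv 1 F)) -
          C l * ι (pderiv 1 F) := by ring
      rw [h3]
      exact dvd_sub hGQ (Dvd.dvd.mul_left h1 _)
    obtain ⟨N, hN⟩ := hN
    have h3 : ∀ i : Fin 2, G ∣ X i := by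
      intro i
      obtain ⟨U, V, hUV⟩ := hN i
      have h4 := congrArg ι hUV
      rw [map_add, map_mul, map_mul, map_pow, hX] at h4
      apply hGp.dvd_of_dvd_pow (n := N)
      rw [← h4]
      exact dvd_add (Dvd.dvd.mul_left h2 _) (Dvd.dvd.mul_left h1 _)
    obtain ⟨a, ha⟩ := h3 0
    obtain ⟨b, hb⟩ := h3 1
    have hXirr : Irreducible (X 0 : MvPolynomial (Fin 2) E) := (X_prime (R := E)).irreducible
    rcases hXirr.isUnit_or_isUnit ha with h4 | h4
    · exact hG.not_isUnit h4
    · obtain ⟨a', rfl⟩ := h4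
      have h5 : (X 0 : MvPolynomial (Fin 2) E) ∣ X 1 := by
        rw [hb]
        refine dvd_trans ?_ (dvd_mul_right G b)
        refine ⟨(↑a'⁻¹ : MvPolynomial (Fin 2) E), ?_⟩
        rw [ha, mul_assoc, Units.mul_inv, mul_one]
      obtain ⟨w, hw⟩ := h5
      have h6 := congrArg (eval ![(0 : E), 1]) hw
      simp at h6

theorem COP_proof : St_COP := by
  intro k E _ _ _ _ F m hm hF h0 hN l hl A B hAB
  have h1 := COP_relprime F m hm hF h0 hN l hl
  have h2 : map (algebraMap k E) F ∣
      B * (map (algebraMap k E) (pderiv 0 F) + C l * map (algebraMap k E) (pderiv 1 F)) := by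
    refine ⟨-A, ?_⟩
    linear_combination hAB
  exact h1.dvd_of_dvd_mul_right h2

end H450BH
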