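import Mathlib
import Pool.Agent.H450R3.BH.Stubs2

/-! Task FLD: a finite set of elements, not all algebraic, generates a function field of dimension
one over a relatively algebraically closed intermediate field. -/

set_option autoImplicit false

namespace H450BH

open IntermediateField H450Al

section FLDaux

variable {k Ω : Type} [Field k] [Field Ω] [Algebra k Ω]

/-- the algebraic closure of `k(T)` in `Ω` as an intermediate field -/
noncomputable def fld_E (k : Type) {Ω : Type} [Field k] [Field Ω] [Algebra k Ω] (T : Set Ω) :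
    IntermediateField k Ω :=
  { clAlg k T with
    inv_mem' := fun _ hx => inv_mem_cl k hx }

theorem fld_mem_E {T : Set Ω} {a : Ω} : a ∈ fld_E k T ↔ a ∈ cl k T := Iff.rfl

/-- algebraic over an intermediate field means in the closure -/
theorem fld_alg_iff (F : IntermediateField k Ω) (a : Ω) :
    IsAlgebraic F a ↔ a ∈ cl k (F : Set Ω) := by
  rw [mem_cl]
  have h : Algebra.adjoin k ((F : Set Ω)) = F.toSubalgebra := Algebra.adjoin_eq F.toSubalgebra
  rw [h]
  exact Iff.rfl

theorem fld_closed {T : Set Ω} {a : Ω} (h : IsAlgebraic (fld_E k T) a) : a ∈ fld_E k T := by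
  rw [fld_alg_iff] at h
  rw [fld_mem_E]
  exact cl_cl_mono k (S := ((fld_E k T : IntermediateField k Ω) : Set Ω)) (fun x hx => hx) h

/-- lifting a ring homomorphism through an injective one -/
theorem fld_lift {R S B : Type} [CommRing R] [CommRing S] [CommRing B] (i : S →+* B)
    (hi : Function.Injective i) (j : R →+* B) (h : ∀ x, ∃ y, i y = j x) :
    ∃ f : R →+* S, i.comp f = j := by
  choose f hf using h
  refine ⟨{ toFun := f, map_one' := ?_, map_mul' := ?_, map_zero' := ?_, map_add' := ?_ }, ?_⟩
  · apply hi; rw [hf, map_one, map_one]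
  · intro x y; apply hi; rw [map_mul, hf, hf, hf, map_mul]
  · apply hi; rw [hf, map_zero, map_zero]
  · intro x y; apply hi; rw [map_add, hf, hf, hf, map_add]
  · ext x
    exact hf x

/-- algebraicity over a bigger field -/
theorem fld_alg_of {T : Set Ω} {a : Ω} {L : Type} [Field L] [Algebra L Ω]
    (h : a ∈ cl k T) (hT : ∀ x ∈ T, ∃ y : L, algebraMap L Ω y = x)
    (hk : ∀ r : k, ∃ y : L, algebraMap L Ω y = algebraMap k Ω r) : IsAlgebraic L a := by
  rw [mem_cl] at h
  have h1 : ∀ x ∈ Algebra.adjoin k T, ∃ y : L, algebraMap L Ω y = x := by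
    intro x hx
    induction hx using Algebra.adjoin_induction with
    | mem x hx => exact hT x hx
    | algebraMap r => exact hk r
    | add x y _ _ hx hy =>
      obtain ⟨a, rfl⟩ := hx
      obtain ⟨b, rfl⟩ := hy
      exact ⟨a + b, map_add _ _ _⟩
    | mul x y _ _ hx hy =>
      obtain ⟨a, rfl⟩ := hx
      obtain ⟨b, rfl⟩ := hy
      exact ⟨a * b, map_mul _ _ _⟩
  obtain ⟨f, hf⟩ := fld_lift (algebraMap L Ω) (algebraMap L Ω).injective
    (algebraMap (Algebra.adjoin k T) Ω) (fun x => h1 x.1 x.2)
  have hfi : Function.Injective f := by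
    have h2 : Function.Injective (algebraMap (Algebra.adjoin k T) Ω) := Subtype.val_injective
    rw [← hf] at h2
    exact Function.Injective.of_comp (f := algebraMap L Ω) h2
  exact h.ringHom_of_comp_eq f (RingHom.id Ω) hfi (RingHom.ext fun x => RingHom.congr_fun hf x)

end FLDaux

theorem FLD_proof : St_FLD := by
  classical
  intro k Ω _ _ _ _ S hS
  -- a maximal `T`
  set A : Finset (Finset Ω) := S.powerset.filter (fun T => ∃ s ∈ S, s ∉ cl k (T : Set Ω)) with hA
  have hAne : A.Nonempty := by
    refine ⟨∅, ?_⟩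
    rw [hA, Finset.mem_filter]
    refine ⟨Finset.empty_mem_powerset S, ?_⟩
    obtain ⟨s, hs, htr⟩ := hS
    refine ⟨s, hs, fun h => htr ?_⟩
    rw [mem_cl, Finset.coe_empty, Algebra.adjoin_empty] at h
    exact Subalgebra.isAlgebraic_of_isAlgebraic_bot h
  obtain ⟨T, hT⟩ := A.exists_maximal hAne
  have hTA : T ∈ A := hT.prop
  rw [hA, Finset.mem_filter, Finset.mem_powerset] at hTA
  obtain ⟨hTS, s0, hs0, hs0T⟩ := hTA
  have hmax : ∀ t ∈ S, t ∉ cl k (T : Set Ω) → ∀ s ∈ S, s ∈ cl k (insert t (T : Set Ω)) := by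
    intro t ht htT s hs
    by_contra hc
    have h1 : insert t T ∈ A := by
      rw [hA, Finset.mem_filter, Finset.mem_powerset]
      refine ⟨Finset.insert_subset ht hTS, s, hs, ?_⟩
      rw [Finset.coe_insert]
      exact hc
    have h2 : insert t T ≤ T := hT.le_of_ge h1 (Finset.subset_insert t T)
    exact htT (subset_cl k _ (h2 (Finset.mem_insert_self t T)))
  refine ⟨fld_E k (T : Set Ω), ⟨s0, hs0, hs0T⟩, ?_⟩
  set E : IntermediateField k Ω := fld_E k (T : Set Ω) with hE
  set K : IntermediateField E Ω := adjoin E (S : Set Ω) with hK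
  have hval : ∀ f : K, f ∉ Set.range (algebraMap E K) → (f : Ω) ∉ E := by
    intro f hf hfE
    apply hf
    exact ⟨⟨(f : Ω), hfE⟩, Subtype.ext rfl⟩
  have hinj : Function.Injective (algebraMap K Ω) := (algebraMap K Ω).injective
  have htr : ∀ f : K, f ∉ Set.range (algebraMap E K) → Transcendental E f := by
    intro f hf halg
    apply hval f hf
    have h1 : IsAlgebraic E (algebraMap K Ω f) := (isAlgebraic_algebraMap_iff hinj).2 halg
    exact fld_closed h1
  refine ⟨htr, ?_⟩
  intro f hf
  have hfE : (f : Ω) ∉ cl k (T : Set Ω) := hval f hf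
  -- `K ⊆ cl (insert s0 T)`
  have hKcl : ∀ x ∈ K, x ∈ cl k (insert s0 (T : Set Ω)) := by
    intro x hx
    rw [hK] at hx
    induction hx using adjoin_induction with
    | mem x hx => exact hmax s0 hs0 hs0T x hx
    | algebraMap r => exact cl_mono k (Set.subset_insert _ _) r.2
    | add x y _ _ hx hy => exact (clAlg k (insert s0 (T : Set Ω))).add_mem hx hy
    | inv x _ hx => exact inv_mem_cl k hx
    | mul x y _ _ hx hy => exact (clAlg k (insert s0 (T : Set Ω))).mul_mem hx hy
  have hex : s0 ∈ cl k (insert (f : Ω) (T : Set Ω)) := by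
    have h1 : (f : Ω) ∈ (AlgebraicIndependent.matroid k Ω).closure (insert s0 (T : Set Ω)) \
        (AlgebraicIndependent.matroid k Ω).closure (T : Set Ω) := ⟨hKcl f f.2, hfE⟩
    exact (Matroid.closure_exchange h1).1
  have hScl : ∀ s ∈ S, s ∈ cl k (insert (f : Ω) (T : Set Ω)) := by
    intro s hs
    refine cl_cl_mono k (S := insert s0 (T : Set Ω)) ?_ (hmax s0 hs0 hs0T s hs)
    intro x hx
    rcases hx with rfl | hx
    · exact hex
    · exact subset_cl k _ (Set.mem_insert_of_mem _ hx)
  -- algebraic over `E⟮f⟯`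
  set L : IntermediateField E K := E⟮f⟯ with hL
  have halg : ∀ s ∈ S, IsAlgebraic L s := by
    intro s hs
    refine fld_alg_of (k := k) (hScl s hs) ?_ ?_
    · intro x hx
      rcases hx with rfl | hx
      · exact ⟨⟨f, mem_adjoin_simple_self E f⟩, rfl⟩
      · exact ⟨algebraMap E L ⟨x, subset_cl k _ hx⟩, rfl⟩
    · intro r
      exact ⟨algebraMap E L (algebraMap k E r), rfl⟩
  set S' : Set K := {x : K | (x : Ω) ∈ S} with hS'
  have hfin : S'.Finite := by
    have h1 : S' = (Subtype.val : K → Ω) ⁻¹' (S : Set Ω) := rfl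
    rw [h1]
    exact Set.Finite.preimage (Subtype.val_injective.injOn) S.finite_toSet
  have : Finite S' := hfin.to_subtype
  have hint : ∀ x ∈ S', IsIntegral L x := by
    intro x hx
    have h1 : IsAlgebraic L (algebraMap K Ω x) := halg _ hx
    exact ((isAlgebraic_algebraMap_iff hinj).1 h1).isIntegral
  have hfd : FiniteDimensional L (adjoin L S') := finiteDimensional_adjoin hint
  have htop : adjoin L S' = ⊤ := by
    rw [eq_top_iff]
    intro x _
    have key : ∀ (y : Ω) (hy : y ∈ K), (⟨y, hy⟩ : K) ∈ adjoin L S' := by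
      intro y hy
      have hy' : y ∈ adjoin E (S : Set Ω) := hy
      induction hy' using adjoin_induction with
      | mem x hx => exact subset_adjoin L S' hx
      | algebraMap r => exact (adjoin L S').algebraMap_mem (algebraMap E L r)
      | add x1 y1 hx' hy' hx1 hy1 => exact add_mem (hx1 hx') (hy1 hy')
      | inv x1 hx' hx1 => exact inv_mem (hx1 hx')
      | mul x1 y1 hx' hy' hx1 hy1 => exact mul_mem (hx1 hx') (hy1 hy')
    exact key x.1 x.2
  rw [htop] at hfd
  exact LinearEquiv.finiteDimensional (topEquiv (F := L) (E := K)).toLinearEquiv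

end H450BH
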