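import Mathlib
import Pool.Agent.H450R3.BH.Stubs2

/-!
Assembly.
-/

set_option autoImplicit false

namespace H450BH

open IntermediateField Pool.Agent.H719R3.BG
open scoped ComplexConjugate

/-- The curve has more than `2 m` points with parallel tangents, or it is nonsingular of degree
`m ≥ 4` and transversal to the line at infinity. -/
def Big (P : MvPolynomial (Fin 2) ℂ) : Prop :=
  (∃ (u : ℂ) (Z : Finset (Fin 2 → ℂ)), u ≠ 0 ∧ 2 * P.totalDegree < Z.card ∧ ∀ x ∈ Z,
    MvPolynomial.eval x P = 0 ∧
    MvPolynomial.eval x (MvPolynomial.pderiv 0 P) * u +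
      MvPolynomial.eval x (MvPolynomial.pderiv 1 P) * conj u = 0 ∧
    (MvPolynomial.eval x (MvPolynomial.pderiv 0 P) ≠ 0 ∨
      MvPolynomial.eval x (MvPolynomial.pderiv 1 P) ≠ 0)) ∨
  (4 ≤ P.totalDegree ∧
    (∀ x : Fin 2 → ℂ, MvPolynomial.eval x P = 0 → MvPolynomial.eval x (MvPolynomial.pderiv 0 P) = 0 →
      MvPolynomial.eval x (MvPolynomial.pderiv 1 P) = 0 → False) ∧
    (∀ x : Fin 2 → ℂ, x ≠ 0 →
      MvPolynomial.eval x (MvPolynomial.pderiv 0
        (MvPolynomial.homogeneousComponent P.totalDegree P)) = 0 →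
      MvPolynomial.eval x (MvPolynomial.pderiv 1
        (MvPolynomial.homogeneousComponent P.totalDegree P)) = 0 → False))

section
variable {k L : Type} [Field k] [Field L] [Algebra k L]

theorem deg_map' (P : MvPolynomial (Fin 2) k) :
    (MvPolynomial.map (algebraMap k L) P).totalDegree = P.totalDegree := by
  unfold MvPolynomial.totalDegree
  rw [MvPolynomial.support_map_of_injective _ (algebraMap k L).injective]

theorem map_hom' (P : MvPolynomial (Fin 2) k) (j : ℕ) :
    MvPolynomial.map (algebraMap k L) (MvPolynomial.homogeneousComponent j P) =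
      MvPolynomial.homogeneousComponent j (MvPolynomial.map (algebraMap k L) P) := by
  ext s
  rw [MvPolynomial.coeff_map, MvPolynomial.coeff_homogeneousComponent,
    MvPolynomial.coeff_homogeneousComponent, MvPolynomial.coeff_map]
  split_ifs with h
  · rfl
  · rw [map_zero]

end

/-- the slope map over a function field -/
theorem slope_big (hABS : St_ABS) (hNS : St_NS) (hNUL : St_NUL) (hPAR : St_PAR)
    (k K : Type) [Field k] [Field K] [Algebra ℂ k] [Algebra k K] [CharZero k] (hD : OneDim k K)
    (P : MvPolynomial (Fin 2) ℂ) (hP : Irreducible P) (hm : 2 ≤ P.totalDegree) (hB : Big P)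
    (q : Fin 2 → K) (hq : MvPolynomial.aeval q (MvPolynomial.map (algebraMap ℂ k) P) = 0)
    (hq' : ∃ i, q i ∉ Set.range (algebraMap k K))
    (h1 : MvPolynomial.aeval q (MvPolynomial.pderiv 1 (MvPolynomial.map (algebraMap ℂ k) P)) ≠ 0)
    (φ : K) (hφ : MvPolynomial.aeval q (MvPolynomial.pderiv 0 (MvPolynomial.map (algebraMap ℂ k) P)) +
      φ * MvPolynomial.aeval q (MvPolynomial.pderiv 1 (MvPolynomial.map (algebraMap ℂ k) P)) = 0)
    (hφ' : φ ∉ Set.range (algebraMap k K)) :
    ∃ v : Fin (2 * P.totalDegree + 1) → K, (∀ i, v i ∈ k⟮q 0, q 1⟯) ∧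
      LinearIndependent k⟮φ⟯ v := by
  have hirr : Irreducible (MvPolynomial.map (algebraMap ℂ k) P) := hABS ℂ k P hP
  rcases hB with ⟨u, Z, hu, hZ, hx⟩ | ⟨h4, hns, htr⟩
  · classical
    set ρ : (Fin 2 → ℂ) → (Fin 2 → k) := fun x i => algebraMap ℂ k (x i) with hρ
    have hρi : Function.Injective ρ := fun x y hxy => funext fun i =>
      (algebraMap ℂ k).injective (congrFun hxy i)
    have hev : ∀ (x : Fin 2 → ℂ) (A : MvPolynomial (Fin 2) ℂ),
        MvPolynomial.eval (ρ x) (MvPolynomial.map (algebraMap ℂ k) A) =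
          algebraMap ℂ k (MvPolynomial.eval x A) := by
      intro x A
      rw [MvPolynomial.eval_map]
      have := MvPolynomial.eval₂_comp_left (algebraMap ℂ k) (RingHom.id ℂ) x A
      rw [MvPolynomial.eval, MvPolynomial.coe_eval₂Hom, this]
      rfl
    obtain ⟨s, hs, hli⟩ := hPAR k K hD (MvPolynomial.map (algebraMap ℂ k) P) q hirr hq hq' h1 φ hφ
      hφ' (algebraMap ℂ k (conj u / u)) (Z.image ρ) (by
        intro y hy
        obtain ⟨x, hxZ, rfl⟩ := Finset.mem_image.1 hy
        obtain ⟨e1, e2, e3⟩ := hx x hxZ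
        have hcu : conj u ≠ 0 := (map_ne_zero _).2 hu
        rw [MvPolynomial.pderiv_map, MvPolynomial.pderiv_map, hev, hev, hev]
        refine ⟨by rw [e1, map_zero], ?_, ?_⟩
        · rw [← map_mul, ← map_add]
          have : MvPolynomial.eval x (MvPolynomial.pderiv 0 P) +
              conj u / u * MvPolynomial.eval x (MvPolynomial.pderiv 1 P) = 0 := by
            field_simp
            linear_combination e2
          rw [this, map_zero]
        · rw [map_ne_zero]
          intro h0
          rw [h0, zero_mul, add_zero] at e2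
          rcases e3 with e3 | e3
          · exact e3 ((mul_eq_zero.1 e2).resolve_right hu)
          · exact e3 h0)
    have hc : (Z.image ρ).card = Z.card := Finset.card_image_of_injective _ hρi
    rw [hc] at hli
    refine ⟨fun i => s ^ (i : ℕ), fun i => pow_mem hs _, ?_⟩
    have hle : 2 * P.totalDegree + 1 ≤ Z.card := hZ
    exact hli.comp (Fin.castLE hle) (Fin.castLE_injective hle)
  · obtain ⟨U, V, W, hUVW⟩ := (hNUL P P.totalDegree).1 hns
    obtain ⟨N, hN⟩ := (hNUL P P.totalDegree).2 htr
    obtain ⟨v, hv⟩ := hNS k K (MvPolynomial.map (algebraMap ℂ k) P) P.totalDegree hirr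
      (deg_map' P) hm
      ⟨MvPolynomial.map (algebraMap ℂ k) U, MvPolynomial.map (algebraMap ℂ k) V,
        MvPolynomial.map (algebraMap ℂ k) W, by
          rw [MvPolynomial.pderiv_map, MvPolynomial.pderiv_map, ← map_mul, ← map_mul, ← map_mul,
            ← map_add, ← map_add, hUVW, map_one]⟩
      ⟨N, fun i => by
        obtain ⟨U, V, h⟩ := hN i
        refine ⟨MvPolynomial.map (algebraMap ℂ k) U, MvPolynomial.map (algebraMap ℂ k) V, ?_⟩
        rw [← map_hom', MvPolynomial.pderiv_map, MvPolynomial.pderiv_map, ← map_mul, ← map_mul,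
          ← map_add, h, map_pow, MvPolynomial.map_X]⟩
      q hq (by
        obtain ⟨i, hi⟩ := hq'
        exact ⟨i, hD.tr _ hi⟩) h1 φ hφ (hD.tr _ hφ')
    have hle : 2 * P.totalDegree + 1 ≤ P.totalDegree * (P.totalDegree + 1) / 2 - 1 := by
      generalize P.totalDegree = m at h4
      have h5 : 2 * (2 * m + 2) ≤ m * (m + 1) := by nlinarith
      have : 2 * m + 2 ≤ m * (m + 1) / 2 := by
        rw [Nat.le_div_iff_mul_le two_pos]
        linarith
      omega
    refine ⟨fun i => MvPolynomial.aeval q (v (Fin.castLE hle i)), fun i => ?_, ?_⟩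
    · have hmem : ∀ A : MvPolynomial (Fin 2) k, MvPolynomial.aeval q A ∈ k⟮q 0, q 1⟯ := by
        intro A
        induction A using MvPolynomial.induction_on with
        | C a =>
          rw [MvPolynomial.aeval_C]
          exact (k⟮q 0, q 1⟯).algebraMap_mem a
        | add a b ha hb => rw [map_add]; exact add_mem ha hb
        | mul_X a i ha =>
          rw [map_mul, MvPolynomial.aeval_X]
          refine mul_mem ha ?_
          fin_cases i
          · exact subset_adjoin k {q 0, q 1} (by simp)
          · exact subset_adjoin k {q 0, q 1} (by simp)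
      exact hmem _
    · exact hv.comp (Fin.castLE hle) (Fin.castLE_injective hle)

theorem trans_of_not_mem {L : Type} [Field L] [Algebra ℂ L] {x : L}
    (hx : x ∉ Set.range (algebraMap ℂ L)) : Transcendental ℂ x := by
  intro hal
  apply hx
  have hint : IsIntegral ℂ x := hal.isIntegral
  exact minpoly.mem_range_of_degree_eq_one ℂ x
    (IsAlgClosed.degree_eq_one_of_irreducible ℂ (minpoly.irreducible hint))

theorem aeval_mem_adjoin {k K : Type} [Field k] [Field K] [Algebra k K] (q : Fin 2 → K)
    (A : MvPolynomial (Fin 2) k) : MvPolynomial.aeval q A ∈ k⟮q 0, q 1⟯ := by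
  induction A using MvPolynomial.induction_on with
  | C a =>
    rw [MvPolynomial.aeval_C]
    exact (k⟮q 0, q 1⟯).algebraMap_mem a
  | add a b ha hb => rw [map_add]; exact add_mem ha hb
  | mul_X a i ha =>
    rw [map_mul, MvPolynomial.aeval_X]
    refine mul_mem ha ?_
    fin_cases i
    · exact subset_adjoin k {q 0, q 1} (by simp)
    · exact subset_adjoin k {q 0, q 1} (by simp)

/-- the theorem -/
theorem final (hABS : St_ABS) (hFLD : St_FLD) (hTAN : St_TAN) (hNS : St_NS) (hNUL : St_NUL)
    (hPAR : St_PAR) (hTRP : St_TRP) (hMAIN : St_MAIN) (hGER : St_GER)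
    (Ω : Set ℂ) (hT : Table Ω) (P : MvPolynomial (Fin 2) ℂ) (hP : Irreducible P)
    (hm : 2 ≤ P.totalDegree) (hB : Big P)
    (h0 : ∀ p ∈ frontier Ω, MvPolynomial.eval ![p, conj p] P = 0) (n : ℕ) (hn : 0 < n) :
    {x : ℤ → ℂ | Polygon Ω n x}.Finite := by
  classical
  by_contra hinf
  obtain ⟨L, iL, iA, q, τ, hper, hq, hne, href, hc, hnc, j₀, i₀, hji⟩ :=
    hGER Ω hT P hP h0 (hTAN Ω hT P h0) n hn hinf
  have hmod : ∀ j : ℤ, q (j % n) = q j := by
    intro j
    have : Function.Periodic q (n : ℤ) := hper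
    have h2 := this.sub_zsmul_eq (x := j) (j / n)
    rw [smul_eq_mul] at h2
    have h3 : j % n = j - j / n * n := by
      have := Int.emod_add_mul_ediv j n
      linarith
    rw [h3]
    exact h2
  set S : Finset L := ((Finset.range n) ×ˢ (Finset.univ : Finset (Fin 2))).image
    (fun x => q (x.1 : ℤ) x.2) with hS
  have hmem : ∀ j i, q j i ∈ S := by
    intro j i
    rw [hS, Finset.mem_image]
    refine ⟨((j % n).toNat, i), ?_, ?_⟩
    · have h1 : 0 ≤ j % n := Int.emod_nonneg _ (by positivity)
      have h2 : j % n < n := Int.emod_lt_of_pos _ (by positivity)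
      simp only [Finset.mem_product, Finset.mem_range, Finset.mem_univ, and_true]
      omega
    · have h1 : 0 ≤ j % n := Int.emod_nonneg _ (by positivity)
      simp only
      rw [Int.toNat_of_nonneg h1, hmod]
  obtain ⟨E, ⟨s₀, hs₀, hs₀E⟩, hD⟩ := hFLD ℂ L S ⟨q j₀ i₀, hmem _ _, trans_of_not_mem hji⟩
  set K := adjoin E (S : Set L) with hK
  have hqK : ∀ j i, q j i ∈ K := fun j i => subset_adjoin E _ (Finset.mem_coe.2 (hmem j i))
  set q' : ℤ → Fin 2 → K := fun j i => ⟨q j i, hqK j i⟩ with hq'
  have hcoe : ∀ (j : ℤ) (A : MvPolynomial (Fin 2) ℂ),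
      ((MvPolynomial.aeval (q' j) (MvPolynomial.map (algebraMap ℂ E) A) : K) : L) =
        MvPolynomial.aeval (q j) A := by
    intro j A
    induction A using MvPolynomial.induction_on with
    | C a =>
      rw [MvPolynomial.map_C, MvPolynomial.aeval_C, MvPolynomial.aeval_C]
      rfl
    | add a b ha hb => rw [map_add, map_add, map_add, ← ha, ← hb]; rfl
    | mul_X a i ha =>
      rw [map_mul, map_mul, map_mul, MvPolynomial.map_X, MvPolynomial.aeval_X,
        MvPolynomial.aeval_X, ← ha]
      rfl
  -- the slopes are in `K`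
  have hcK : ∀ (j : ℤ), (∀ i, q j i ∈ Set.range (algebraMap ℂ L)) → τ j ∈ E := by
    intro j hj
    obtain ⟨c, hc'⟩ := hc j hj
    rw [← hc']
    exact E.algebraMap_mem c
  have hτ : ∀ j, (∃ i, q j i ∉ Set.range (algebraMap ℂ L)) →
      τ j = - MvPolynomial.aeval (q j) (MvPolynomial.pderiv 0 P) /
        MvPolynomial.aeval (q j) (MvPolynomial.pderiv 1 P) := by
    intro j hj
    obtain ⟨h1, h2⟩ := hnc j hj
    field_simp
    linear_combination h2
  have hτK : ∀ j, τ j ∈ K := by
    intro j
    by_cases hj : ∀ i, q j i ∈ Set.range (algebraMap ℂ L)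
    · exact K.algebraMap_mem ⟨τ j, hcK j hj⟩
    · push Not at hj
      rw [hτ j hj, ← hcoe, ← hcoe]
      exact div_mem (neg_mem (SetLike.coe_mem _)) (SetLike.coe_mem _)
  set τ' : ℤ → K := fun j => ⟨τ j, hτK j⟩ with hτ'
  have hrange : ∀ x : K, x ∈ Set.range (algebraMap E K) ↔ (x : L) ∈ E := by
    intro x
    constructor
    · rintro ⟨y, rfl⟩
      exact y.2
    · intro h
      exact ⟨⟨x, h⟩, Subtype.ext rfl⟩
  have : CharZero E := charZero_of_injective_algebraMap (algebraMap ℂ E).injective
  set P' : MvPolynomial (Fin 2) E := MvPolynomial.map (algebraMap ℂ E) P with hP'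
  have hP0 : P' ≠ 0 := by
    intro h
    exact hP.ne_zero ((MvPolynomial.map_injective _ (algebraMap ℂ E).injective)
      (h.trans (map_zero _).symm))
  have hq0 : ∀ j, MvPolynomial.aeval (q' j) P' = 0 := by
    intro j
    apply Subtype.ext
    rw [hP', hcoe, hq]
    rfl
  have hncE : ∀ j, (∃ i, q' j i ∉ Set.range (algebraMap E K)) →
      ∃ i, q j i ∉ Set.range (algebraMap ℂ L) := by
    rintro j ⟨i, hi⟩
    refine ⟨i, fun h => hi ?_⟩
    rw [hrange]
    obtain ⟨c, hc'⟩ := h
    show q j i ∈ E
    rw [← hc']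
    exact E.algebraMap_mem c
  have hfin := hMAIN E K hD P' n hn hP0 q' τ' (fun j => funext fun i => Subtype.ext (by
      show q (j + n) i = q j i
      rw [hper])) hq0
    (fun j i h => hne j i (congrArg Subtype.val h))
    (fun j => Subtype.ext (href j))
    (by
      intro j hj
      by_cases hj' : ∀ i, q j i ∈ Set.range (algebraMap ℂ L)
      · rw [hrange]
        exact pow_mem (hcK j hj') 2
      · push Not at hj'
        have hqE : ∀ i, q j i ∈ E := fun i => (hrange (q' j i)).1 (hj i)
        have hEv : ∀ A : MvPolynomial (Fin 2) ℂ, MvPolynomial.aeval (q j) A ∈ E := by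
          intro A
          induction A using MvPolynomial.induction_on with
          | C a =>
            rw [MvPolynomial.aeval_C]
            exact E.algebraMap_mem a
          | add a b ha hb => rw [map_add]; exact add_mem ha hb
          | mul_X a i ha =>
            rw [map_mul, MvPolynomial.aeval_X]
            exact mul_mem ha (hqE i)
        rw [hrange]
        refine pow_mem ?_ 2
        show τ j ∈ E
        rw [hτ j hj']
        exact div_mem (neg_mem (hEv _)) (hEv _))
    (by
      intro j hj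
      have hj' := hncE j hj
      obtain ⟨h1, h2⟩ := hnc j hj'
      have h1' : MvPolynomial.aeval (q' j) (MvPolynomial.pderiv 1 P') ≠ 0 := by
        intro h
        apply h1
        rw [← hcoe, ← MvPolynomial.pderiv_map, h]
        rfl
      have h2' : MvPolynomial.aeval (q' j) (MvPolynomial.pderiv 0 P') +
          τ' j * MvPolynomial.aeval (q' j) (MvPolynomial.pderiv 1 P') = 0 := by
        apply Subtype.ext
        rw [hP', MvPolynomial.pderiv_map, MvPolynomial.pderiv_map]
        show ((MvPolynomial.aeval (q' j) (MvPolynomial.map (algebraMap ℂ E)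
          (MvPolynomial.pderiv 0 P)) : K) : L) + τ j *
          ((MvPolynomial.aeval (q' j) (MvPolynomial.map (algebraMap ℂ E)
          (MvPolynomial.pderiv 1 P)) : K) : L) = 0
        rw [hcoe, hcoe, h2]
      have hirr : Irreducible P' := hABS ℂ E P hP
      have h3 : τ' j ∉ Set.range (algebraMap E K) :=
        hTRP E K hD P' (q' j) hirr (by rw [hP', deg_map']; exact hm) (hq0 j) hj h1' (τ' j) h2'
      refine ⟨?_, h3, ?_⟩
      · have : τ' j = - MvPolynomial.aeval (q' j) (MvPolynomial.pderiv 0 P') /
            MvPolynomial.aeval (q' j) (MvPolynomial.pderiv 1 P') := by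
          field_simp
          linear_combination h2'
        rw [this]
        exact div_mem (neg_mem (aeval_mem_adjoin _ _)) (aeval_mem_adjoin _ _)
      · rw [hP', deg_map']
        exact slope_big hABS hNS hNUL hPAR E K hD P hP hm hB (q' j) (hq0 j) hj h1' (τ' j) h2' h3)
  rw [hS, Finset.mem_image] at hs₀
  obtain ⟨x, -, rfl⟩ := hs₀
  exact hs₀E ((hrange _).1 (hfin (x.1 : ℤ) x.2))

end H450BH
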