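import Mathlib
import Pool.Agent.H450R3.BH.Stubs2
import Pool.Agent.H719R3.BG.Seg

/-! GER: infinitely many closed billiard polygons give a polygon over the ultrapower of `ℂ`. -/

set_option autoImplicit false

namespace H450BH

open Pool.Agent.H719R3.BG
open scoped ComplexConjugate

/-- The ultrapower of `ℂ` -/
theorem ger_field : ∃ (L : Type) (_ : Field L) (π : (ℕ → ℂ) →+* L),
    (∀ f : ℕ → ℂ, Function.Injective f → ∀ c : ℂ, π f ≠ π (fun _ => c)) ∧
    (∀ (f : ℕ → ℂ) (c : ℂ), π f = π (fun _ => c) →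
      ∀ h : ℂ → ℂ, π (fun i => h (f i)) = π (fun _ => h c)) := by
  refine ⟨Filter.Germ (Filter.hyperfilter ℕ : Filter ℕ) ℂ, inferInstance,
    Filter.Germ.coeRingHom _, ?_, ?_⟩
  · intro f hf c h
    have h1 : f =ᶠ[(Filter.hyperfilter ℕ : Filter ℕ)] (fun _ => c) := Filter.Germ.coe_eq.1 h
    have h2 : ({i | f i = c} : Set ℕ).Finite := by
      apply Set.Subsingleton.finite
      intro i hi j hj
      exact hf (hi.trans hj.symm)
    exact Filter.notMem_hyperfilter_of_finite h2 h1
  · intro f c h g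
    have h1 : f =ᶠ[(Filter.hyperfilter ℕ : Filter ℕ)] (fun _ => c) := Filter.Germ.coe_eq.1 h
    apply Filter.Germ.coe_eq.2
    exact h1.mono (fun i hi => by simp only [hi])

theorem ger_ne {L : Type} [Field L] (π : (ℕ → ℂ) →+* L) {f : ℕ → ℂ} (h : ∀ i, f i ≠ 0) :
    π f ≠ 0 := by
  intro h0
  have h1 : f * (fun i => (f i)⁻¹) = 1 := by
    funext i
    simp [h i]
  have h2 := congrArg π h1
  rw [map_mul, h0, zero_mul, map_one] at h2
  exact zero_ne_one h2

theorem ger_aeval {L : Type} [Field L] [Algebra ℂ L] (π : (ℕ → ℂ) →+* L)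
    (ha : ∀ c : ℂ, algebraMap ℂ L c = π (fun _ => c)) (F : ℕ → Fin 2 → ℂ)
    (P : MvPolynomial (Fin 2) ℂ) :
    MvPolynomial.aeval (fun k => π (fun i => F i k)) P =
      π (fun i => MvPolynomial.eval (F i) P) := by
  have h1 : (MvPolynomial.aeval (fun k => π (fun i => F i k)) :
      MvPolynomial (Fin 2) ℂ →ₐ[ℂ] L).toRingHom =
      π.comp (RingHom.pi (fun i => MvPolynomial.eval (F i))) := by
    apply MvPolynomial.ringHom_ext
    · intro r
      simp only [AlgHom.toRingHom_eq_coe, RingHom.coe_coe, MvPolynomial.algHom_C, RingHom.coe_comp,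
        Function.comp_apply, ha]
      congr 1
      funext i
      exact (MvPolynomial.eval_C r).symm
    · intro k
      simp only [AlgHom.toRingHom_eq_coe, RingHom.coe_coe, MvPolynomial.aeval_X, RingHom.coe_comp,
        Function.comp_apply]
      congr 1
      funext i
      exact (MvPolynomial.eval_X k).symm
  exact congrArg (fun f : MvPolynomial (Fin 2) ℂ →+* L => f P) h1

theorem ger_transc {L : Type} [Field L] [Algebra ℂ L] {x : L}
    (hx : x ∉ Set.range (algebraMap ℂ L)) : Transcendental ℂ x := by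
  intro h
  apply hx
  have h1 : IsIntegral ℂ x := h.isIntegral
  have h2 := IsAlgClosed.degree_eq_one_of_irreducible ℂ (minpoly.irreducible h1)
  exact minpoly.mem_range_of_degree_eq_one ℂ x h2

theorem ger_grad {L : Type} [Field L] [Algebra ℂ L] (P : MvPolynomial (Fin 2) ℂ)
    (hP : Irreducible P) (q : Fin 2 → L) (hq : MvPolynomial.aeval q P = 0)
    (hn : ∃ i, q i ∉ Set.range (algebraMap ℂ L)) :
    ∃ k, MvPolynomial.aeval q (MvPolynomial.pderiv k P) ≠ 0 := by
  obtain ⟨i, hi⟩ := hn
  have hr : ((0 + 1 : ℕ) : ℕ∞) ≤ H450Al.rk ℂ (Set.range q) := by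
    have h1 : q i ∉ H450Al.cl ℂ (∅ : Set L) := by
      rw [H450Al.mem_cl]
      intro h2
      apply ger_transc hi
      rw [Algebra.adjoin_empty] at h2
      have h3 : Algebra.IsAlgebraic ℂ (⊥ : Subalgebra ℂ L) := by
        refine ⟨fun y => ?_⟩
        obtain ⟨c, hc⟩ := Algebra.mem_bot.1 y.2
        have : y = algebraMap ℂ (⊥ : Subalgebra ℂ L) c := by
          apply Subtype.ext
          rw [← hc]
          rfl
        rw [this]
        exact isAlgebraic_algebraMap c
      exact IsAlgebraic.restrictScalars ℂ h2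
    have h2 := H450Al.rk_insert_eq ℂ (∅ : Set L) (q i) h1
    have h3 : H450Al.rk ℂ (insert (q i) (∅ : Set L)) ≤ H450Al.rk ℂ (Set.range q) := by
      apply H450Al.rk_mono'
      intro y hy
      rcases hy with rfl | hy
      · exact ⟨i, rfl⟩
      · exact absurd hy (Set.notMem_empty _)
    refine le_trans ?_ h3
    rw [h2]
    simp
  exact (H450Al.gauss_lemma (m := 0) q hr P hP hq).2 inferInstance

theorem ger_law {a b u : ℂ} (hu : u ≠ 0) (h : (a * b * conj u ^ 2).im = 0) :
    conj a * conj b = (conj u / u) ^ 2 * (a * b) := by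
  have h1 : conj (a * b * conj u ^ 2) = a * b * conj u ^ 2 := Complex.conj_eq_iff_im.2 h
  rw [map_mul, map_mul, map_pow, Complex.conj_conj] at h1
  have h2 : u ^ 2 ≠ 0 := pow_ne_zero 2 hu
  rw [div_pow, div_mul_eq_mul_div, eq_div_iff h2, h1]
  ring

theorem ger_seq {Ω : Set ℂ} {n : ℕ} (hn : 0 < n) (h : {x : ℤ → ℂ | Polygon Ω n x}.Infinite) :
    ∃ (X : ℕ → ℤ → ℂ) (j : ℤ), (∀ i, Polygon Ω n (X i)) ∧ Function.Injective (fun i => X i j) := by
  classical
  have h1 : ∃ j : ℤ, ((fun x : ℤ → ℂ => x j) '' {x : ℤ → ℂ | Polygon Ω n x}).Infinite := by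
    by_contra hcon
    push Not at hcon
    apply h
    have h2 : (Set.pi Set.univ (fun j : Fin n =>
        ((fun x : ℤ → ℂ => x (j : ℕ)) '' {x : ℤ → ℂ | Polygon Ω n x}))).Finite :=
      Set.Finite.pi (fun j => by simpa using hcon (j : ℕ))
    apply Set.Finite.of_finite_image (f := fun x : ℤ → ℂ => (fun j : Fin n => x ((j : ℕ) : ℤ)))
    · apply h2.subset
      rintro _ ⟨x, hx, rfl⟩ j _
      exact ⟨x, hx, rfl⟩
    · intro x hx y hy hxy
      funext j
      have hper : ∀ z : ℤ → ℂ, Polygon Ω n z → z j = z (j % n) := by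
        intro z hz
        have h3 : Function.Periodic z (n : ℤ) := hz.per
        have h4 := h3.int_mul (j / n) (j % n)
        rw [← h4]
        congr 1
        have := Int.emod_add_mul_ediv j n
        rw [Int.cast_id, mul_comm (j / (n : ℤ)), this]
      rw [hper x hx, hper y hy]
      have h5 : 0 ≤ j % n := Int.emod_nonneg _ (by omega)
      have h6 : j % n < n := Int.emod_lt_of_pos _ (by omega)
      have h7 := congrFun hxy ⟨(j % n).toNat, by omega⟩
      simp only [Int.toNat_of_nonneg h5] at h7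
      exact h7
  obtain ⟨j, hj⟩ := h1
  let e := hj.natEmbedding
  have h2 : ∀ i : ℕ, ∃ x : ℤ → ℂ, Polygon Ω n x ∧ x j = (e i : ℂ) := by
    intro i
    obtain ⟨x, hx, hxe⟩ := (e i).2
    exact ⟨x, hx, hxe⟩
  choose X hX hXe using h2
  refine ⟨X, j, hX, ?_⟩
  intro a b hab
  simp only [hXe] at hab
  exact e.injective (Subtype.ext hab)

theorem GER_proof : St_GER := by
  classical
  intro Ω hT P hP hfr htan n hn hinf
  obtain ⟨X, j₀, hX, hinj⟩ := ger_seq hn hinf
  obtain ⟨L, hL, π, hπ1, hπ2⟩ := ger_field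
  have hS := segFacts hT
  -- tangents
  have hex : ∀ p : ℂ, ∃ u : ℂ, p ∈ frontier Ω → Tangent Ω p u := by
    intro p
    by_cases hp : p ∈ frontier Ω
    · obtain ⟨u, hu1, hu2, -⟩ := hS.tan p hp
      refine ⟨u, fun _ => ⟨?_, ?_⟩⟩
      · rintro rfl
        simp at hu1
      · intro y hy
        have hpy : y ≠ p := by
          rintro rfl
          rw [hT.isOpen.frontier_eq] at hp
          exact hp.2 hy
        exact (hu2 y (subset_closure hy) hpy).ne'
    · exact ⟨0, fun h => absurd h hp⟩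
  choose T hTan using hex
  let τ₀ : ℂ → ℂ := fun p => conj (T p) / T p
  let ι : ℂ →+* L := π.comp (RingHom.pi (fun _ => RingHom.id ℂ))
  let alg : Algebra ℂ L := ι.toAlgebra
  have ha : ∀ c : ℂ, algebraMap ℂ L c = π (fun _ => c) := fun c => rfl
  let F : ℤ → ℕ → Fin 2 → ℂ := fun j i => ![X i j, conj (X i j)]
  let q : ℤ → Fin 2 → L := fun j k => π (fun i => F j i k)
  let τ : ℤ → L := fun j => π (fun i => τ₀ (X i j))
  have hq0 : ∀ j, q j 0 = π (fun i => X i j) := fun j => rfl
  have hq1 : ∀ j, q j 1 = π (fun i => conj (X i j)) := fun j => rfl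
  have hT0 : ∀ i j, T (X i j) ≠ 0 := fun i j => (hTan _ ((hX i).mem j)).1
  have hzero : ∀ j, MvPolynomial.aeval (q j) P = 0 := by
    intro j
    have h1 := ger_aeval π ha (F j) P
    change MvPolynomial.aeval (q j) P = _ at h1
    rw [h1, ← map_zero π]
    congr 1
    funext i
    exact hfr _ ((hX i).mem j)
  refine ⟨L, hL, alg, q, τ, ?_, hzero, ?_, ?_, ?_, ?_, ?_⟩
  · intro j
    funext k
    change π (fun i => F (j + n) i k) = π (fun i => F j i k)
    congr 1
    funext i
    simp only [F, (hX i).per j]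
  · intro j k h
    have h1 : π (fun i => F (j + 1) i k - F j i k) ≠ 0 := by
      apply ger_ne
      intro i h2
      have h3 := (hX i).ne j
      rw [sub_eq_zero] at h2
      fin_cases k
      · exact h3 h2
      · exact h3 ((starRingEnd ℂ).injective h2)
    apply h1
    have h4 : (fun i => F (j + 1) i k - F j i k) = (fun i => F (j + 1) i k) - (fun i => F j i k) :=
      rfl
    rw [h4, map_sub, sub_eq_zero]
    exact h
  · intro j
    have e1 : q j 1 - q (j - 1) 1 = π (fun i => conj (X i j - X i (j - 1))) := by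
      rw [hq1, hq1, ← map_sub]
      congr 1
      funext i
      simp
    have e2 : q j 0 - q (j - 1) 0 = π (fun i => X i j - X i (j - 1)) := by
      rw [hq0, hq0, ← map_sub]
      rfl
    have e3 : q (j + 1) 1 - q j 1 = π (fun i => conj (X i (j + 1) - X i j)) := by
      rw [hq1, hq1, ← map_sub]
      congr 1
      funext i
      simp
    have e4 : q (j + 1) 0 - q j 0 = π (fun i => X i (j + 1) - X i j) := by
      rw [hq0, hq0, ← map_sub]
      rfl
    have hn1 : π (fun i => X i j - X i (j - 1)) ≠ 0 := by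
      apply ger_ne
      intro i h
      have h3 := (hX i).ne (j - 1)
      rw [sub_add_cancel] at h3
      exact h3 (sub_eq_zero.1 h)
    have hn2 : π (fun i => X i (j + 1) - X i j) ≠ 0 := by
      apply ger_ne
      intro i h
      exact (hX i).ne j (sub_eq_zero.1 h)
    rw [e1, e2, e3, e4, div_mul_div_comm, div_eq_iff (mul_ne_zero hn1 hn2)]
    change _ = π (fun i => τ₀ (X i j)) ^ 2 * _
    rw [← map_mul, ← map_mul, ← map_pow, ← map_mul]
    congr 1
    funext i
    exact ger_law (hT0 i j) ((hX i).law j _ (hTan _ ((hX i).mem j)))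
  · intro j hj
    obtain ⟨c, hc⟩ := hj 0
    refine ⟨τ₀ c, ?_⟩
    rw [ha]
    exact (hπ2 (fun i => X i j) c (by rw [← hq0, ← hc, ha]) τ₀).symm
  · intro j hj
    obtain ⟨k, hk⟩ := ger_grad P hP (q j) (hzero j) hj
    have e : ∀ Q : MvPolynomial (Fin 2) ℂ, MvPolynomial.aeval (q j) Q =
        π (fun i => MvPolynomial.eval (F j i) Q) := ger_aeval π ha (F j)
    have h1 : MvPolynomial.aeval (q j) (MvPolynomial.pderiv 0 P) +
        τ j * MvPolynomial.aeval (q j) (MvPolynomial.pderiv 1 P) = 0 := by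
      rw [e, e]
      change _ + π (fun i => τ₀ (X i j)) * _ = 0
      rw [← map_mul, ← map_add, ← map_zero π]
      congr 1
      funext i
      have h2 := htan _ ((hX i).mem j) _ (hTan _ ((hX i).mem j))
      have h3 := hT0 i j
      simp only [Pi.add_apply, Pi.mul_apply, Pi.zero_apply, τ₀]
      change MvPolynomial.eval ![X i j, conj (X i j)] (MvPolynomial.pderiv 0 P) +
        conj (T (X i j)) / T (X i j) *
          MvPolynomial.eval ![X i j, conj (X i j)] (MvPolynomial.pderiv 1 P) = 0
      field_simp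
      linear_combination h2
    refine ⟨?_, h1⟩
    intro h2
    rw [h2, mul_zero, add_zero] at h1
    fin_cases k
    · exact hk h1
    · exact hk h2
  · refine ⟨j₀, 0, ?_⟩
    rintro ⟨c, hc⟩
    rw [ha, hq0] at hc
    exact hπ1 _ hinj c hc.symm

end H450BH
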