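import Mathlib
import Pool.Agent.H450R3.BH.Stubs2

/-!
Task KER: the kernel of the evaluation at `(q, φ)`, `φ` the slope of the curve `P = 0` at its
generic point `q`, is generated by `P` and `∂₀P + λ ∂₁P`.
-/

set_option autoImplicit false

namespace H450BH

open Polynomial

/-- generic point: every polynomial vanishing at `q` is divisible by `P` -/
theorem ker_dvd {k K : Type} [Field k] [Field K] [Algebra k K]
    (P : MvPolynomial (Fin 2) k) (hP : Irreducible P) (q : Fin 2 → K)
    (hq : MvPolynomial.aeval q P = 0) (ht : ∃ i, Transcendental k (q i))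
    (G : MvPolynomial (Fin 2) k) (hG : MvPolynomial.aeval q G = 0) : P ∣ G := by
  refine (H450Al.gauss_lemma (m := 0) q ?_ P hP hq).1 G hG
  obtain ⟨i, hi⟩ := ht
  have h1 : AlgebraicIndependent k (fun j : ({i} : Set (Fin 2)) => q j) := by
    rw [algebraicIndependent_unique_type_iff]
    exact hi
  have h2 := H450Al.rk_of_indep (k := k) q ({i} : Set (Fin 2)) h1
  rw [Set.encard_singleton] at h2
  simpa using h2

/-- powers of `U p` are `1` modulo `(r, s)` -/
theorem ker_pow {R : Type*} [CommRing R] {U V W p r s : R} (h : U * p + V * r + W * s = 1)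
    (n : ℕ) : ∃ a b : R, (U * p) ^ n + a * r + b * s = 1 := by
  induction n with
  | zero => exact ⟨0, 0, by ring⟩
  | succ n ih =>
    obtain ⟨a, b, hab⟩ := ih
    refine ⟨U * p * a + V, U * p * b + W, ?_⟩
    linear_combination (U * p) * hab + h

/-- the induction -/
theorem ker_main {k K : Type} [Field k] [Field K] [Algebra k K]
    (P P0 P1 U V W : MvPolynomial (Fin 2) k) (hU : U * P0 + V * P1 + W * P = 1)
    (q : Fin 2 → K) (hq : MvPolynomial.aeval q P = 0)
    (hd : ∀ G : MvPolynomial (Fin 2) k, MvPolynomial.aeval q G = 0 → P ∣ G)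
    (φ : K) (hφ : MvPolynomial.aeval q P0 + φ * MvPolynomial.aeval q P1 = 0) (e : ℕ) :
    ∀ R : Polynomial (MvPolynomial (Fin 2) k), R.natDegree ≤ e →
      R.eval₂ (MvPolynomial.aeval q : MvPolynomial (Fin 2) k →ₐ[k] K).toRingHom φ = 0 →
      ∃ A B : Polynomial (MvPolynomial (Fin 2) k), R = A * Polynomial.C P +
        B * (Polynomial.C P0 + Polynomial.X * Polynomial.C P1) := by
  set σ := (MvPolynomial.aeval q : MvPolynomial (Fin 2) k →ₐ[k] K).toRingHom with hσ
  have hσa : ∀ G, σ G = MvPolynomial.aeval q G := fun G => rfl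
  induction e with
  | zero =>
    intro R hR h0
    have hRc := Polynomial.eq_C_of_natDegree_le_zero hR
    rw [hRc, Polynomial.eval₂_C] at h0
    obtain ⟨c, hc⟩ := hd _ h0
    refine ⟨Polynomial.C c, 0, ?_⟩
    rw [hRc, hc, zero_mul, add_zero, Polynomial.C_mul]
    ring
  | succ e ih =>
    intro R hR h0
    -- the homogenised value
    have hH : MvPolynomial.aeval q
        (∑ i ∈ Finset.range (e + 2), R.coeff i * (-P0) ^ i * P1 ^ (e + 1 - i)) = 0 := by
      have h1 : R.eval₂ σ φ = ∑ i ∈ Finset.range (e + 2), σ (R.coeff i) * φ ^ i :=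
        Polynomial.eval₂_eq_sum_range' σ (by omega) φ
      rw [h0] at h1
      rw [map_sum]
      have h2 : ∀ i ∈ Finset.range (e + 2),
          MvPolynomial.aeval q (R.coeff i * (-P0) ^ i * P1 ^ (e + 1 - i)) =
            (MvPolynomial.aeval q P1) ^ (e + 1) * (σ (R.coeff i) * φ ^ i) := by
        intro i hi
        have hi' : i ≤ e + 1 := by
          have := Finset.mem_range.1 hi
          omega
        have h3 : MvPolynomial.aeval q (-P0) = φ * MvPolynomial.aeval q P1 := by
          rw [map_neg]; linear_combination -hφ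
        rw [map_mul, map_mul, map_pow, map_pow, h3, hσa]
        have h4 : (MvPolynomial.aeval q P1) ^ (e + 1) =
            (MvPolynomial.aeval q P1) ^ i * (MvPolynomial.aeval q P1) ^ (e + 1 - i) := by
          rw [← pow_add]; congr 1; omega
        rw [h4, mul_pow]
        ring
      rw [Finset.sum_congr rfl h2, ← Finset.mul_sum, ← h1, mul_zero]
    obtain ⟨S, hS⟩ := hd _ hH
    rw [Finset.sum_range_succ] at hS
    have hT : ∃ T : MvPolynomial (Fin 2) k,
        ∑ i ∈ Finset.range (e + 1), R.coeff i * (-P0) ^ i * P1 ^ (e + 1 - i) = P1 * T := by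
      refine ⟨∑ i ∈ Finset.range (e + 1), R.coeff i * (-P0) ^ i * P1 ^ (e - i), ?_⟩
      rw [Finset.mul_sum]
      refine Finset.sum_congr rfl fun i hi => ?_
      have hi' : i ≤ e := by
        have := Finset.mem_range.1 hi
        omega
      have : e + 1 - i = (e - i) + 1 := by omega
      rw [this, pow_succ]
      ring
    obtain ⟨T, hT⟩ := hT
    rw [hT, Nat.sub_self, pow_zero, mul_one] at hS
    obtain ⟨a, b, hab⟩ := ker_pow hU (e + 1)
    -- the top coefficient
    obtain ⟨A, B, hAB⟩ : ∃ A B : MvPolynomial (Fin 2) k, R.coeff (e + 1) = A * P1 + B * P := by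
      have h1 : R.coeff (e + 1) * (U * P0) ^ (e + 1) =
          (-1) ^ (e + 1) * U ^ (e + 1) * (P * S - P1 * T) := by
        have h2 : R.coeff (e + 1) * (-P0) ^ (e + 1) = P * S - P1 * T := by
          linear_combination hS
        rw [← h2, neg_pow P0, mul_pow]
        have h3 : ((-1 : MvPolynomial (Fin 2) k) ^ (e + 1)) * (-1) ^ (e + 1) = 1 := by
          rw [← mul_pow]; simp
        linear_combination (-(R.coeff (e + 1) * U ^ (e + 1) * P0 ^ (e + 1))) * h3
      refine ⟨-((-1) ^ (e + 1) * U ^ (e + 1)) * T + R.coeff (e + 1) * a,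
        (-1) ^ (e + 1) * U ^ (e + 1) * S + R.coeff (e + 1) * b, ?_⟩
      linear_combination (-R.coeff (e + 1)) * hab + h1
    set R' : Polynomial (MvPolynomial (Fin 2) k) :=
      R - Polynomial.C A * Polynomial.X ^ e *
        (Polynomial.C P0 + Polynomial.X * Polynomial.C P1) -
        Polynomial.C (B * P) * Polynomial.X ^ (e + 1) with hR'
    have hR'd : R'.natDegree ≤ e := by
      rw [Polynomial.natDegree_le_iff_coeff_eq_zero]
      intro N hN
      have hform : R' = R - Polynomial.C (A * P0) * Polynomial.X ^ e -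
          Polynomial.C (A * P1 + B * P) * Polynomial.X ^ (e + 1) := by
        rw [hR']
        simp only [Polynomial.C_mul, Polynomial.C_add]
        ring
      rw [hform, Polynomial.coeff_sub, Polynomial.coeff_sub, Polynomial.coeff_C_mul_X_pow,
        Polynomial.coeff_C_mul_X_pow, if_neg (by omega)]
      by_cases hN1 : N = e + 1
      · rw [if_pos hN1, hN1, hAB]; ring
      · rw [if_neg hN1, Polynomial.coeff_eq_zero_of_natDegree_lt (by omega)]; ring
    have hR'0 : R'.eval₂ σ φ = 0 := by
      rw [hR']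
      simp only [Polynomial.eval₂_sub, Polynomial.eval₂_mul, Polynomial.eval₂_add,
        Polynomial.eval₂_C, Polynomial.eval₂_X, Polynomial.eval₂_X_pow, h0, map_mul, hσa, hq]
      linear_combination (-(MvPolynomial.aeval q A * φ ^ e)) * hφ
    obtain ⟨A', B', hAB'⟩ := ih R' hR'd hR'0
    refine ⟨A' + Polynomial.C B * Polynomial.X ^ (e + 1), B' + Polynomial.C A * Polynomial.X ^ e, ?_⟩
    have : R = R' + Polynomial.C A * Polynomial.X ^ e *
        (Polynomial.C P0 + Polynomial.X * Polynomial.C P1) +
        Polynomial.C (B * P) * Polynomial.X ^ (e + 1) := by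
      rw [hR']; ring
    rw [this, hAB', Polynomial.C_mul]
    ring

theorem KER_proof : St_KER := by
  intro k K _ _ _ P hP hUVW q hq ht hP1 φ hφ R hR
  obtain ⟨U, V, W, hU⟩ := hUVW
  exact ker_main P _ _ U V W hU q hq (ker_dvd P hP q hq ht) φ hφ R.natDegree R le_rfl hR

end H450BH
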