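import Mathlib
import Pool.Agent.H450R3.BH.Stubs2
import Pool.Agent.H114R2.DgAux

/-!
Linear functions on a curve of degree `m`.
-/

set_option autoImplicit false

namespace H450BH

open IntermediateField Polynomial

theorem lin_pair (k K : Type) [Field k] [Field K] [Algebra k K] (l : k) (a b : K) :
    k⟮b - algebraMap k K l * a, a⟯ = k⟮a, b⟯ := by
  apply le_antisymm
  · rw [adjoin_le_iff]
    intro x hx
    have hf : a ∈ k⟮a, b⟯ := subset_adjoin k _ (by simp)
    have hg : b ∈ k⟮a, b⟯ := subset_adjoin k _ (by simp)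
    rcases hx with rfl | hx
    · exact sub_mem hg (mul_mem (IntermediateField.algebraMap_mem _ l) hf)
    · rw [Set.mem_singleton_iff.1 hx]
      exact hf
  · rw [adjoin_le_iff]
    intro x hx
    have hf : a ∈ k⟮b - algebraMap k K l * a, a⟯ := subset_adjoin k _ (by simp)
    have hc : b - algebraMap k K l * a ∈ k⟮b - algebraMap k K l * a, a⟯ :=
      subset_adjoin k _ (by simp)
    rcases hx with rfl | hx
    · exact hf
    · rw [Set.mem_singleton_iff.1 hx]
      have h : (b - algebraMap k K l * a) + algebraMap k K l * a = b := by ring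
      have h2 : (b - algebraMap k K l * a) + algebraMap k K l * a
          ∈ k⟮b - algebraMap k K l * a, a⟯ :=
        add_mem hc (mul_mem (IntermediateField.algebraMap_mem _ l) hf)
      rw [h] at h2
      exact h2

/-- The polynomial `P(X, c + l X)`. -/
noncomputable def linM (k K : Type) [Field k] [Field K] [Algebra k K] (c : K) (l : k)
    (P : MvPolynomial (Fin 2) k) : Polynomial k⟮c⟯ :=
  MvPolynomial.aeval (![X, C (dga_gen k K c) + C (algebraMap k k⟮c⟯ l) * X] :
    Fin 2 → Polynomial k⟮c⟯) (MvPolynomial.map (algebraMap k k⟮c⟯) P)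

theorem linM_natDegree (k K : Type) [Field k] [Field K] [Algebra k K] (c : K) (l : k)
    (P : MvPolynomial (Fin 2) k) : (linM k K c l P).natDegree ≤ P.totalDegree := by
  unfold linM
  have h := MvPolynomial.aeval_natDegree_le (MvPolynomial.map (algebraMap k k⟮c⟯) P)
    (m := P.totalDegree) (n := 1) (by
      unfold MvPolynomial.totalDegree
      exact Finset.sup_mono (MvPolynomial.support_map_subset _ _))
    (![X, C (dga_gen k K c) + C (algebraMap k k⟮c⟯ l) * X] : Fin 2 → Polynomial k⟮c⟯) ?_
  · rw [mul_one] at h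
    exact h
  · intro i
    fin_cases i
    · simp
    · simp only [Fin.mk_one, Matrix.cons_val_one, Matrix.cons_val_fin_one]
      refine le_trans (Polynomial.natDegree_add_le _ _) ?_
      apply max_le
      · simp
      · refine le_trans (Polynomial.natDegree_C_mul_le _ _) ?_
        simp

theorem linM_aeval (k K : Type) [Field k] [Field K] [Algebra k K] (l : k) (q : Fin 2 → K)
    (P : MvPolynomial (Fin 2) k) :
    Polynomial.aeval (q 0) (linM k K (q 1 - algebraMap k K l * q 0) l P)
      = MvPolynomial.aeval q P := by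
  unfold linM
  rw [MvPolynomial.aeval_map_algebraMap, MvPolynomial.aeval_def, MvPolynomial.aeval_def]
  have h1 : Polynomial.aeval (q 0) (MvPolynomial.eval₂
      (algebraMap k (Polynomial k⟮q 1 - algebraMap k K l * q 0⟯))
      (![X, C (dga_gen k K (q 1 - algebraMap k K l * q 0)) +
        C (algebraMap k k⟮q 1 - algebraMap k K l * q 0⟯ l) * X]) P)
      = (Polynomial.aeval (q 0) : Polynomial k⟮q 1 - algebraMap k K l * q 0⟯ →ₐ[_] K).toRingHom
      (MvPolynomial.eval₂
      (algebraMap k (Polynomial k⟮q 1 - algebraMap k K l * q 0⟯))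
      (![X, C (dga_gen k K (q 1 - algebraMap k K l * q 0)) +
        C (algebraMap k k⟮q 1 - algebraMap k K l * q 0⟯ l) * X]) P) := rfl
  rw [h1, MvPolynomial.hom_eval₂]
  have h2 : (Polynomial.aeval (q 0) :
      Polynomial k⟮q 1 - algebraMap k K l * q 0⟯ →ₐ[_] K).toRingHom.comp
      (algebraMap k (Polynomial k⟮q 1 - algebraMap k K l * q 0⟯)) = algebraMap k K := by
    ext a
    simp only [RingHom.comp_apply, AlgHom.toRingHom_eq_coe, RingHom.coe_coe]
    rw [IsScalarTower.algebraMap_apply k k⟮q 1 - algebraMap k K l * q 0⟯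
      (Polynomial k⟮q 1 - algebraMap k K l * q 0⟯), Polynomial.algebraMap_eq,
      Polynomial.aeval_C]
    rfl
  rw [h2]
  apply MvPolynomial.eval₂_congr
  intro i c hi hc
  fin_cases i
  · simp
  · simp only [Fin.mk_one, Matrix.cons_val_one, Matrix.cons_val_fin_one,
      AlgHom.toRingHom_eq_coe, RingHom.coe_coe, map_add, map_mul, Polynomial.aeval_X,
      Polynomial.aeval_C, dga_gen_map]
    have e : algebraMap k⟮q 1 - algebraMap k K l * q 0⟯ K
        (algebraMap k k⟮q 1 - algebraMap k K l * q 0⟯ l) = algebraMap k K l := rfl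
    rw [e]
    ring

theorem linM_ne_zero (k K : Type) [Field k] [Field K] [Algebra k K] [CharZero k] (c : K)
    (hc : Transcendental k c) (l : k) (P : MvPolynomial (Fin 2) k) (hP : P ≠ 0) :
    linM k K c l P ≠ 0 := by
  intro h0
  apply hP
  have key : ∀ x : k, MvPolynomial.aeval (![C x, X + C (l * x)] : Fin 2 → Polynomial k) P = 0 := by
    intro x
    have h1 : (linM k K c l P).eval (algebraMap k k⟮c⟯ x) = 0 := by rw [h0, Polynomial.eval_zero]
    have h2 : (linM k K c l P).eval (algebraMap k k⟮c⟯ x)
        = Polynomial.aeval (dga_gen k K c)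
          (MvPolynomial.aeval (![C x, X + C (l * x)] : Fin 2 → Polynomial k) P) := by
      unfold linM
      rw [MvPolynomial.aeval_map_algebraMap, MvPolynomial.aeval_def, MvPolynomial.aeval_def]
      have e1 : Polynomial.eval (algebraMap k k⟮c⟯ x)
          (MvPolynomial.eval₂ (algebraMap k (Polynomial k⟮c⟯))
            (![X, C (dga_gen k K c) + C (algebraMap k k⟮c⟯ l) * X]) P)
          = (Polynomial.evalRingHom (algebraMap k k⟮c⟯ x))
          (MvPolynomial.eval₂ (algebraMap k (Polynomial k⟮c⟯))
            (![X, C (dga_gen k K c) + C (algebraMap k k⟮c⟯ l) * X]) P) := rfl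
      have e2 : Polynomial.aeval (dga_gen k K c)
          (MvPolynomial.eval₂ (algebraMap k (Polynomial k)) (![C x, X + C (l * x)]) P)
          = (Polynomial.aeval (dga_gen k K c) : Polynomial k →ₐ[k] k⟮c⟯).toRingHom
          (MvPolynomial.eval₂ (algebraMap k (Polynomial k)) (![C x, X + C (l * x)]) P) := rfl
      rw [e1, e2, MvPolynomial.hom_eval₂, MvPolynomial.hom_eval₂]
      have e3 : (Polynomial.evalRingHom (algebraMap k k⟮c⟯ x)).comp
          (algebraMap k (Polynomial k⟮c⟯))
          = (Polynomial.aeval (dga_gen k K c) : Polynomial k →ₐ[k] k⟮c⟯).toRingHom.comp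
            (algebraMap k (Polynomial k)) := by
        ext a
        simp [Polynomial.algebraMap_apply]
      rw [e3]
      apply MvPolynomial.eval₂_congr
      intro i c hi hc
      fin_cases i
      · simp
      · simp
    rw [h2] at h1
    exact dga_aeval_gen k K c hc _ h1
  apply MvPolynomial.funext
  intro y
  rw [map_zero]
  have h3 := congrArg (fun p => Polynomial.eval (y 1 - l * y 0) p) (key (y 0))
  simp only [Polynomial.eval_zero] at h3
  rw [← h3, MvPolynomial.aeval_def]
  have e1 : Polynomial.eval (y 1 - l * y 0)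
      (MvPolynomial.eval₂ (algebraMap k (Polynomial k)) (![C (y 0), X + C (l * y 0)]) P)
      = (Polynomial.evalRingHom (y 1 - l * y 0))
      (MvPolynomial.eval₂ (algebraMap k (Polynomial k)) (![C (y 0), X + C (l * y 0)]) P) := rfl
  rw [e1, MvPolynomial.hom_eval₂, MvPolynomial.eval, MvPolynomial.coe_eval₂Hom]
  have e3 : (Polynomial.evalRingHom (y 1 - l * y 0)).comp
      (algebraMap k (Polynomial k)) = RingHom.id k := by
    ext a
    simp
  rw [e3]
  apply MvPolynomial.eval₂_congr
  intro i c hi hc
  fin_cases i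
  · simp
  · simp

theorem LIN_proof : St_LIN := by
  intro k K _ _ _ _ hD P q hP hq l
  by_cases hc : q 1 - algebraMap k K l * q 0 ∈ Set.range (algebraMap k K)
  · rw [dga_dg_const k K _ hc]
    exact Nat.zero_le _
  rw [dga_dg_nonconst k K _ hc]
  have hb := dga_bound k K (q 1 - algebraMap k K l * q 0) (q 0) (hD.fin _ hc)
    (linM k K (q 1 - algebraMap k K l * q 0) l P)
    (linM_ne_zero k K _ (hD.tr _ hc) l P hP)
    (by rw [linM_aeval, hq])
  rw [dga_finrank_congr k K _ _ (lin_pair k K l (q 0) (q 1))] at hb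
  refine le_trans hb ?_
  apply Nat.mul_le_mul_right
  exact linM_natDegree k K _ l P

end H450BH
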