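import Mathlib
import Pool.Agent.H450R3.BH.Stubs2

/-! MAIN: the counting inequality. -/

set_option autoImplicit false

namespace H450BH

open IntermediateField

section
variable {k K : Type} [Field k] [Field K] [Algebra k K]

theorem MAIN_dg_const {f : K} (h : f ∈ Set.range (algebraMap k K)) : dg k K f = 0 := by
  unfold dg
  rw [if_pos h]

theorem MAIN_dg_nonconst {f : K} (h : f ∉ Set.range (algebraMap k K)) :
    dg k K f = Module.finrank k⟮f⟯ K := by
  unfold dg
  rw [if_neg h]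

theorem MAIN_adjoin_neg (f : K) : k⟮-f⟯ = k⟮f⟯ := by
  apply le_antisymm
  · rw [adjoin_simple_le_iff]
    exact neg_mem (mem_adjoin_simple_self k f)
  · rw [adjoin_simple_le_iff]
    have := neg_mem (mem_adjoin_simple_self k (-f))
    rwa [neg_neg] at this

theorem MAIN_dg_neg (f : K) : dg k K (-f) = dg k K f := by
  by_cases h : f ∈ Set.range (algebraMap k K)
  · rw [MAIN_dg_const h]
    obtain ⟨c, rfl⟩ := h
    exact MAIN_dg_const ⟨-c, by simp⟩
  · have h' : -f ∉ Set.range (algebraMap k K) := by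
      rintro ⟨c, hc⟩
      exact h ⟨-c, by rw [map_neg, hc, neg_neg]⟩
    rw [MAIN_dg_nonconst h, MAIN_dg_nonconst h', MAIN_adjoin_neg]

open Classical in
/-- `D` -/
noncomputable def MAIN_D (k : Type) {K : Type} [Field k] [Field K] [Algebra k K] (q : Fin 2 → K) : ℕ :=
  if ∀ i, q i ∈ Set.range (algebraMap k K) then 0 else Module.finrank k⟮q 0, q 1⟯ K

theorem MAIN_D_pos (h1 : OneDim k K) {q : Fin 2 → K} (h : ¬ ∀ i, q i ∈ Set.range (algebraMap k K)) :
    0 < MAIN_D k q := by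
  unfold MAIN_D
  rw [if_neg h]
  push Not at h
  obtain ⟨i, hi⟩ := h
  have hle : k⟮q i⟯ ≤ k⟮q 0, q 1⟯ := by
    rw [adjoin_simple_le_iff]
    apply subset_adjoin
    fin_cases i <;> simp
  have h2 := relfinrank_mul_finrank_top hle
  have := h1.fin (q i) hi
  have h3 : 0 < Module.finrank k⟮q i⟯ K := Module.finrank_pos
  rw [← h2] at h3
  exact Nat.pos_of_mul_pos_left h3

theorem MAIN_one [CharZero k] (hL : St_LIN) (h1 : OneDim k K) (P : MvPolynomial (Fin 2) k)
    (hP : P ≠ 0) (q : Fin 2 → K) (hq : MvPolynomial.aeval q P = 0) (l : k) :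
    dg k K (q 1 - algebraMap k K l * q 0) ≤ P.totalDegree * MAIN_D k q := by
  by_cases h : ∀ i, q i ∈ Set.range (algebraMap k K)
  · rw [MAIN_dg_const]
    · exact Nat.zero_le _
    · obtain ⟨a, ha⟩ := h 0
      obtain ⟨b, hb⟩ := h 1
      exact ⟨b - l * a, by rw [map_sub, map_mul, ha, hb]⟩
  · unfold MAIN_D
    rw [if_neg h]
    exact hL k K h1 P q hP hq l

theorem MAIN_two [CharZero k] (hA : St_ADD) (hPe : St_PEN) (hL : St_LIN) (h1 : OneDim k K)
    (P : MvPolynomial (Fin 2) k) (hP : P ≠ 0) (q q' : Fin 2 → K) (hq : MvPolynomial.aeval q P = 0)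
    (hq' : MvPolynomial.aeval q' P = 0) (hne : q' 0 ≠ q 0) :
    dg k K ((q' 1 - q 1) / (q' 0 - q 0)) ≤ P.totalDegree * (MAIN_D k q + MAIN_D k q') := by
  by_cases h : (q' 1 - q 1) / (q' 0 - q 0) ∈ Set.range (algebraMap k K)
  · rw [MAIN_dg_const h]
    exact Nat.zero_le _
  · have hu : q' 0 - q 0 ≠ 0 := sub_ne_zero.2 hne
    obtain ⟨S, hS⟩ := hPe k K h1 _ (q' 0 - q 0) hu h
    obtain ⟨l, hl⟩ := Infinite.exists_notMem_finset S
    refine (hS l hl).trans ?_
    have e : (q' 0 - q 0) * ((q' 1 - q 1) / (q' 0 - q 0) - algebraMap k K l) =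
        (q' 1 - algebraMap k K l * q' 0) + (-(q 1 - algebraMap k K l * q 0)) := by
      rw [mul_sub, mul_div_cancel₀ _ hu]
      ring
    rw [e]
    refine (hA k K h1 _ _).trans ?_
    rw [MAIN_dg_neg]
    have e1 := MAIN_one hL h1 P hP q hq l
    have e2 := MAIN_one hL h1 P hP q' hq' l
    calc _ ≤ P.totalDegree * MAIN_D k q' + P.totalDegree * MAIN_D k q := Nat.add_le_add e2 e1
      _ = _ := by ring

theorem MAIN_three [CharZero k] (hS : St_SQ) (h1 : OneDim k K) (m : ℕ) (q : Fin 2 → K) (τ : K)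
    (h : (∃ i, q i ∉ Set.range (algebraMap k K)) → τ ∈ k⟮q 0, q 1⟯ ∧
      τ ∉ Set.range (algebraMap k K) ∧
      ∃ v : Fin (2 * m + 1) → K, (∀ i, v i ∈ k⟮q 0, q 1⟯) ∧
        LinearIndependent k⟮τ⟯ v) :
    2 * ((2 * m + 1) * MAIN_D k q) ≤ dg k K (τ ^ 2) := by
  by_cases hq : ∀ i, q i ∈ Set.range (algebraMap k K)
  · unfold MAIN_D
    rw [if_pos hq]
    simp
  · have hq' : ∃ i, q i ∉ Set.range (algebraMap k K) := by
      push Not at hq
      exact hq
    obtain ⟨h2, h3, v, hv, hli⟩ := h hq'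
    rw [hS k K h1, MAIN_dg_nonconst h3]
    apply Nat.mul_le_mul_left
    have hle : k⟮τ⟯ ≤ k⟮q 0, q 1⟯ := by
      rw [adjoin_simple_le_iff]
      exact h2
    rw [← relfinrank_mul_finrank_top hle]
    unfold MAIN_D
    rw [if_neg hq]
    apply Nat.mul_le_mul_right
    rw [relfinrank_eq_finrank_of_le hle]
    have hfin := h1.fin τ h3
    have hli' : LinearIndependent k⟮τ⟯ (fun i => (⟨v i, hv i⟩ : extendScalars hle)) := by
      apply LinearIndependent.of_comp (extendScalars hle).val.toLinearMap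
      exact hli
    have hcard := hli'.fintype_card_le_finrank
    rwa [Fintype.card_fin] at hcard

end

theorem MAIN_shift (n : ℕ) (f : ℤ → ℕ) (hf : ∀ j, f (j + n) = f j) :
    ∑ j ∈ Finset.range n, f ((j : ℤ) + 1) = ∑ j ∈ Finset.range n, f (j : ℤ) := by
  have h1 := Finset.sum_range_succ' (fun j : ℕ => f (j : ℤ)) n
  have h2 := Finset.sum_range_succ (fun j : ℕ => f (j : ℤ)) n
  rw [h1] at h2
  have h3 : f ((n : ℕ) : ℤ) = f ((0 : ℕ) : ℤ) := by
    have := hf 0
    simpa using this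
  rw [h3] at h2
  have h4 := Nat.add_right_cancel h2
  push_cast at h4
  exact h4

theorem MAIN_proof (hA : St_ADD) (hM : St_MUL) (hP : St_PEN) (hS : St_SQ) (hL : St_LIN) :
    St_MAIN := by
  intro k K _ _ _ _ h1 P n hn hP0 q τ hper hqP hne hrefl hconst hnc
  set m := P.totalDegree with hm
  set D : ℤ → ℕ := fun j => MAIN_D k (q j) with hD
  set ε : ℤ → K := fun j => (q (j + 1) 1 - q j 1) / (q (j + 1) 0 - q j 0) with hε
  have hDper : ∀ j, D (j + n) = D j := fun j => by simp only [hD, hper]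
  have hεper : ∀ j, ε (j + n) = ε j := fun j => by
    simp only [hε]
    rw [show j + (n : ℤ) + 1 = (j + 1) + n by ring, hper, hper]
  have e2 : ∀ j, dg k K (ε j) ≤ m * (D j + D (j + 1)) := fun j =>
    MAIN_two hA hP hL h1 P hP0 (q j) (q (j + 1)) (hqP j) (hqP (j + 1)) (hne j 0)
  have e3 : ∀ j, 2 * ((2 * m + 1) * D j) ≤ dg k K (τ j ^ 2) := fun j =>
    MAIN_three hS h1 m (q j) (τ j) (hnc j)
  have e4 : ∀ j, dg k K (τ (j + 1) ^ 2) ≤ dg k K (ε j) + dg k K (ε (j + 1)) := fun j => by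
    rw [← hrefl (j + 1)]
    refine (hM k K h1 _ _).trans (le_of_eq ?_)
    simp only [hε]
    rw [show j + 1 - 1 = j by ring]
  have s1 : ∑ j ∈ Finset.range n, 2 * ((2 * m + 1) * D ((j : ℤ) + 1)) ≤
      ∑ j ∈ Finset.range n, (dg k K (ε j) + dg k K (ε ((j : ℤ) + 1))) :=
    Finset.sum_le_sum fun j _ => (e3 _).trans (e4 _)
  have s2 : ∑ j ∈ Finset.range n, dg k K (ε ((j : ℤ) + 1)) = ∑ j ∈ Finset.range n, dg k K (ε (j : ℤ)) :=
    MAIN_shift n (fun j => dg k K (ε j)) (fun j => by simp only [hεper])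
  have s3 : ∑ j ∈ Finset.range n, D ((j : ℤ) + 1) = ∑ j ∈ Finset.range n, D (j : ℤ) :=
    MAIN_shift n D hDper
  have s4 : ∑ j ∈ Finset.range n, dg k K (ε (j : ℤ)) ≤
      ∑ j ∈ Finset.range n, m * (D j + D ((j : ℤ) + 1)) :=
    Finset.sum_le_sum fun j _ => e2 _
  rw [Finset.sum_add_distrib, s2, ← Finset.mul_sum, ← Finset.mul_sum, s3] at s1
  rw [← Finset.mul_sum, Finset.sum_add_distrib, s3] at s4
  have hsum : ∑ j ∈ Finset.range n, D (j : ℤ) = 0 := by
    set T := ∑ j ∈ Finset.range n, D (j : ℤ) with hT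
    nlinarith
  have hD0 : ∀ j : ℤ, D j = 0 := by
    intro j
    have hp : Function.Periodic D (n : ℤ) := hDper
    have h5 : D j = D (j % n) := by
      have h6 := (hp.int_mul (j / n)) (j % n)
      rw [Int.cast_id, mul_comm (j / (n : ℤ)) (n : ℤ), Int.emod_add_mul_ediv j n] at h6
      exact h6
    rw [h5]
    have hn' : (0 : ℤ) < n := by exact_mod_cast hn
    have h7 := Int.emod_nonneg j hn'.ne'
    have h8 := Int.emod_lt_of_pos j hn'
    obtain ⟨r, hr⟩ := Int.eq_ofNat_of_zero_le h7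
    rw [hr]
    have hr' : r < n := by
      rw [hr] at h8
      exact_mod_cast h8
    exact (Finset.sum_eq_zero_iff.1 hsum) r (Finset.mem_range.2 hr')
  intro j i
  by_contra hc
  have := MAIN_D_pos (k := k) h1 (q := q j) (fun h => hc (h i))
  have h9 := hD0 j
  simp only [hD] at h9
  omega

end H450BH
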