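import Mathlib
import Pool.Agent.H450R3.BH.Stubs2
import Pool.Agent.H114R2.DgAux

/-!
`dg (f * g) ≤ dg f + dg g`.
-/

set_option autoImplicit false

namespace H450BH

open IntermediateField Polynomial

theorem mul_sim (k K : Type) [Field k] [Field K] [Algebra k K] (a : k) (ha : a ≠ 0) (g : K) :
    dg k K (algebraMap k K a * g) = dg k K g := by
  have ha2 : algebraMap k K a ≠ 0 := by
    rw [Ne, map_eq_zero]
    exact ha
  have e : (algebraMap k K a)⁻¹ * (algebraMap k K a * g) = g := by
    rw [← mul_assoc, inv_mul_cancel₀ ha2, one_mul]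
  apply dga_dg_congr
  · constructor
    · rintro ⟨b, hb⟩
      refine ⟨a⁻¹ * b, ?_⟩
      rw [map_mul, map_inv₀, hb, e]
    · rintro ⟨b, hb⟩
      refine ⟨a * b, ?_⟩
      rw [map_mul, hb]
  · apply le_antisymm
    · rw [adjoin_simple_le_iff]
      exact mul_mem (IntermediateField.algebraMap_mem _ a) (mem_adjoin_simple_self k g)
    · rw [adjoin_simple_le_iff]
      have h2 : (algebraMap k K a)⁻¹ * (algebraMap k K a * g) ∈ k⟮algebraMap k K a * g⟯ :=
        mul_mem (inv_mem (IntermediateField.algebraMap_mem _ a)) (mem_adjoin_simple_self k _)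
      rw [e] at h2
      exact h2

theorem mul_pair (k K : Type) [Field k] [Field K] [Algebra k K] (f g : K) (hf0 : f ≠ 0) :
    k⟮f * g, f⟯ = k⟮f, g⟯ := by
  apply le_antisymm
  · rw [adjoin_le_iff]
    intro x hx
    have hf : f ∈ k⟮f, g⟯ := subset_adjoin k _ (by simp)
    have hg : g ∈ k⟮f, g⟯ := subset_adjoin k _ (by simp)
    rcases hx with rfl | hx
    · exact mul_mem hf hg
    · rw [Set.mem_singleton_iff.1 hx]
      exact hf
  · rw [adjoin_le_iff]
    intro x hx
    have hf : f ∈ k⟮f * g, f⟯ := subset_adjoin k _ (by simp)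
    have hc : f * g ∈ k⟮f * g, f⟯ := subset_adjoin k _ (by simp)
    rcases hx with rfl | hx
    · exact hf
    · rw [Set.mem_singleton_iff.1 hx]
      have h : f⁻¹ * (f * g) = g := by
        rw [← mul_assoc, inv_mul_cancel₀ hf0, one_mul]
      have h2 : f⁻¹ * (f * g) ∈ k⟮f * g, f⟯ := mul_mem (inv_mem hf) hc
      rw [h] at h2
      exact h2

/-- The polynomial `∑ rᵢ(X) cⁱ X^(b-i)`. -/
noncomputable def mulM (k K : Type) [Field k] [Field K] [Algebra k K] (c : K)
    (R : Polynomial (Polynomial k)) : Polynomial k⟮c⟯ :=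
  ∑ i ∈ Finset.range (R.natDegree + 1),
    (R.coeff i).map (algebraMap k k⟮c⟯) * (C ((dga_gen k K c) ^ i) * X ^ (R.natDegree - i))

theorem mulM_aeval (k K : Type) [Field k] [Field K] [Algebra k K] (f g : K)
    (R : Polynomial (Polynomial k)) :
    Polynomial.aeval f (mulM k K (f * g) R) = f ^ R.natDegree * ev f g R := by
  unfold mulM ev
  rw [map_sum, Polynomial.eval₂_eq_sum_range, Finset.mul_sum]
  apply Finset.sum_congr rfl
  intro i hi
  have hi2 : i ≤ R.natDegree := Nat.lt_succ_iff.1 (Finset.mem_range.1 hi)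
  simp only [map_mul, map_pow, Polynomial.aeval_X, Polynomial.aeval_map_algebraMap,
    Polynomial.aeval_C, dga_gen_map, mul_pow]
  have e : f ^ R.natDegree = f ^ i * f ^ (R.natDegree - i) := by
    rw [← pow_add]
    congr 1
    omega
  rw [e]
  simp only [AlgHom.toRingHom_eq_coe, RingHom.coe_coe]
  ring

theorem mulM_natDegree (k K : Type) [Field k] [Field K] [Algebra k K] (c : K)
    (R : Polynomial (Polynomial k)) : (mulM k K c R).natDegree ≤ xdeg R + R.natDegree := by
  unfold mulM
  apply Polynomial.natDegree_sum_le_of_forall_le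
  intro i hi
  by_cases hi3 : R.coeff i = 0
  · rw [hi3]
    simp
  refine le_trans Polynomial.natDegree_mul_le ?_
  apply Nat.add_le_add
  · refine le_trans (Polynomial.natDegree_map_le) ?_
    exact Finset.le_sup (f := fun i => (R.coeff i).natDegree) (Polynomial.mem_support_iff.2 hi3)
  · refine le_trans (Polynomial.natDegree_C_mul_le _ _) ?_
    rw [Polynomial.natDegree_X_pow]
    omega

theorem mulM_ne_zero (k K : Type) [Field k] [Field K] [Algebra k K] [CharZero k] (c : K)
    (hc : Transcendental k c) (R : Polynomial (Polynomial k)) (hR : R ≠ 0) :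
    mulM k K c R ≠ 0 := by
  intro h0
  apply hR
  have key : ∀ x : k, x ≠ 0 → ∀ i, (R.coeff i).eval x = 0 := by
    intro x hx i
    by_cases hi : i ≤ R.natDegree
    · have h1 : (mulM k K c R).eval (algebraMap k k⟮c⟯ x) = 0 := by rw [h0, Polynomial.eval_zero]
      have h2 : (mulM k K c R).eval (algebraMap k k⟮c⟯ x)
          = Polynomial.aeval (dga_gen k K c)
            (∑ i ∈ Finset.range (R.natDegree + 1),
              Polynomial.monomial i ((R.coeff i).eval x * x ^ (R.natDegree - i))) := by
        unfold mulM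
        rw [Polynomial.eval_finsetSum, map_sum]
        apply Finset.sum_congr rfl
        intro j hj
        rw [Polynomial.eval_mul, Polynomial.eval_mul, Polynomial.eval_C, Polynomial.eval_pow,
          Polynomial.eval_X, Polynomial.eval_map_algebraMap, Polynomial.aeval_algebraMap_apply,
          Polynomial.aeval_monomial, map_mul, map_pow]
        simp only [Polynomial.coe_aeval_eq_eval]
        ring
      rw [h2] at h1
      have h3 := dga_aeval_gen k K c hc _ h1
      have h4 := congrArg (fun p => Polynomial.coeff p i) h3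
      simp only [Polynomial.finsetSum_coeff, Polynomial.coeff_monomial,
        Polynomial.coeff_zero] at h4
      rw [Finset.sum_ite_eq' (Finset.range (R.natDegree + 1)) i,
        if_pos (Finset.mem_range.2 (Nat.lt_succ_of_le hi))] at h4
      rcases mul_eq_zero.1 h4 with h5 | h5
      · exact h5
      · exact absurd h5 (pow_ne_zero _ hx)
    · rw [Polynomial.coeff_eq_zero_of_natDegree_lt (by omega), Polynomial.eval_zero]
  ext1 i
  rw [Polynomial.coeff_zero]
  exact dga_zero_of_eval k _ (fun x hx => key x hx i)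

theorem MUL_proof (hREL : St_REL) : St_MUL := by
  intro k K _ _ _ _ hD f g
  have h00 : dg k K (0 : K) = 0 := dga_dg_const k K 0 ⟨0, map_zero _⟩
  by_cases hf : f ∈ Set.range (algebraMap k K)
  · obtain ⟨a, rfl⟩ := hf
    by_cases ha : a = 0
    · rw [ha, map_zero, zero_mul, h00]
      exact Nat.zero_le _
    rw [mul_sim k K a ha]
    exact Nat.le_add_left _ _
  by_cases hg : g ∈ Set.range (algebraMap k K)
  · obtain ⟨a, rfl⟩ := hg
    by_cases ha : a = 0
    · rw [ha, map_zero, mul_zero, h00]
      exact Nat.zero_le _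
    rw [mul_comm f, mul_sim k K a ha]
    exact Nat.le_add_right _ _
  by_cases hc : f * g ∈ Set.range (algebraMap k K)
  · rw [dga_dg_const k K _ hc]
    exact Nat.zero_le _
  have hf0 : f ≠ 0 := by
    rintro rfl
    exact hf ⟨0, map_zero _⟩
  obtain ⟨R, hirr, hev, -, hdf, hdg⟩ := hREL k K hD f g hf
  rw [← hdf, ← hdg hg, dga_dg_nonconst k K _ hc, ← add_mul]
  have hb := dga_bound k K (f * g) f (hD.fin _ hc) (mulM k K (f * g) R)
    (mulM_ne_zero k K (f * g) (hD.tr _ hc) R hirr.ne_zero)
    (by rw [mulM_aeval, hev, mul_zero])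
  rw [dga_finrank_congr k K _ _ (mul_pair k K f g hf0)] at hb
  refine le_trans hb ?_
  apply Nat.mul_le_mul_right
  refine le_trans (mulM_natDegree k K (f * g) R) ?_
  rw [add_comm]

end H450BH
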