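import Mathlib
import Pool.Agent.H450R3.BH.Stubs2

/-!
NS: the slope map of a nonsingular curve of degree `m`, transversal to the line at infinity, has
degree at least `m (m + 1) / 2 - 1`.
-/

set_option autoImplicit false

namespace H450BH

open IntermediateField

theorem NS_td_le {R : Type} [CommSemiring R] (p : MvPolynomial (Fin 2) R) (n : ℕ) :
    p.totalDegree ≤ n ↔ ∀ d : Fin 2 →₀ ℕ, p.coeff d ≠ 0 → d.degree ≤ n := by
  unfold MvPolynomial.totalDegree
  rw [Finset.sup_le_iff]
  constructor
  · intro h d hd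
    exact h d (MvPolynomial.mem_support_iff.2 hd)
  · intro h d hd
    exact h d (MvPolynomial.mem_support_iff.1 hd)

theorem NS_hom_map {k E : Type} [Field k] [Field E] [Algebra k E] (p : MvPolynomial (Fin 2) k)
    (n : ℕ) : MvPolynomial.homogeneousComponent n (MvPolynomial.map (algebraMap k E) p) =
      MvPolynomial.map (algebraMap k E) (MvPolynomial.homogeneousComponent n p) := by
  ext d
  rw [MvPolynomial.coeff_homogeneousComponent, MvPolynomial.coeff_map, MvPolynomial.coeff_map,
    MvPolynomial.coeff_homogeneousComponent]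
  split_ifs
  · rfl
  · rw [map_zero]

theorem NS_hom_pderiv {k : Type} [Field k] (p : MvPolynomial (Fin 2) k) (m : ℕ) (hm : 1 ≤ m)
    (i : Fin 2) : MvPolynomial.homogeneousComponent (m - 1) (MvPolynomial.pderiv i p) =
      MvPolynomial.pderiv i (MvPolynomial.homogeneousComponent m p) := by
  ext d
  rw [MvPolynomial.coeff_homogeneousComponent, MvPolynomial.coeff_pderiv,
    MvPolynomial.coeff_pderiv, MvPolynomial.coeff_homogeneousComponent]
  have h : (d + Finsupp.single i 1).degree = d.degree + 1 := by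
    rw [map_add, Finsupp.degree_single]
  rw [h]
  by_cases h1 : d.degree = m - 1
  · rw [if_pos h1, if_pos (by omega)]
  · rw [if_neg h1, if_neg (by omega), zero_mul]

theorem NS_td_pderiv {k : Type} [Field k] (p : MvPolynomial (Fin 2) k) (m : ℕ)
    (h : p.totalDegree ≤ m) (i : Fin 2) : (MvPolynomial.pderiv i p).totalDegree ≤ m - 1 := by
  rw [NS_td_le] at h ⊢
  intro d hd
  rw [MvPolynomial.coeff_pderiv] at hd
  have h1 := h _ (left_ne_zero_of_mul hd)
  rw [map_add, Finsupp.degree_single] at h1
  omega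

theorem NS_td_map {k E : Type} [Field k] [Field E] [Algebra k E] (p : MvPolynomial (Fin 2) k) :
    (MvPolynomial.map (algebraMap k E) p).totalDegree = p.totalDegree := by
  apply le_antisymm
  · rw [NS_td_le]
    intro d hd
    rw [MvPolynomial.coeff_map] at hd
    refine (NS_td_le p _).1 le_rfl d ?_
    rintro h0
    rw [h0, map_zero] at hd
    exact hd rfl
  · rw [NS_td_le]
    intro d hd
    refine (NS_td_le (MvPolynomial.map (algebraMap k E) p) _).1 le_rfl d ?_
    rw [MvPolynomial.coeff_map]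
    exact (map_ne_zero _).2 hd

theorem NS_hom_ne {k : Type} [Field k] (p : MvPolynomial (Fin 2) k) (m : ℕ) (hm : 1 ≤ m)
    (h : p.totalDegree = m) : MvPolynomial.homogeneousComponent m p ≠ 0 := by
  intro h0
  have h1 : p.totalDegree ≤ m - 1 := by
    rw [NS_td_le]
    intro d hd
    have h2 := (NS_td_le p m).1 h.le d hd
    have h3 : d.degree ≠ m := by
      intro h4
      have h5 := congrArg (MvPolynomial.coeff d) h0
      rw [MvPolynomial.coeff_homogeneousComponent, if_pos h4, MvPolynomial.coeff_zero] at h5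
      exact hd h5
    omega
  omega

/-- the exponent `(x, y)`. -/
noncomputable def NS_ex (x y : ℕ) : Fin 2 →₀ ℕ := Finsupp.single 0 x + Finsupp.single 1 y

theorem NS_ex_degree (x y : ℕ) : (NS_ex x y).degree = x + y := by
  unfold NS_ex
  rw [map_add, Finsupp.degree_single, Finsupp.degree_single]

theorem NS_ex_inj {x y x' y' : ℕ} (h : NS_ex x y = NS_ex x' y') : x = x' ∧ y = y' := by
  unfold NS_ex at h
  constructor
  · have := DFunLike.congr_fun h 0
    simpa using this
  · have := DFunLike.congr_fun h 1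
    simpa using this

theorem NS_exists_e (m : ℕ) (a0 : Fin 2 →₀ ℕ) :
    ∃ e : Fin (m * (m + 1) / 2 - 1) → (Fin 2 →₀ ℕ), Function.Injective e ∧
      ∀ i, (e i).degree + 1 ≤ m ∧ e i ≠ a0 := by
  classical
  obtain ⟨D, hD⟩ : ∃ D : Finset ((_ : ℕ) × ℕ), D = (Finset.range m).sigma fun j => Finset.range (j + 1) :=
    ⟨_, rfl⟩
  obtain ⟨T, hT⟩ : ∃ T : Finset (Fin 2 →₀ ℕ), T = D.image fun p => NS_ex p.2 (p.1 - p.2) := ⟨_, rfl⟩
  have hmem : ∀ p ∈ D, p.1 < m ∧ p.2 ≤ p.1 := by
    intro p hp
    rw [hD, Finset.mem_sigma, Finset.mem_range, Finset.mem_range] at hp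
    omega
  have hcardD : D.card = m * (m + 1) / 2 := by
    rw [hD, Finset.card_sigma]
    simp only [Finset.card_range]
    have h1 := Finset.sum_range_succ_comm (fun i => i) m
    have h2 := Finset.sum_range_id_mul_two (m + 1)
    have h3 : ∑ x ∈ Finset.range m, (x + 1) = ∑ x ∈ Finset.range (m + 1), x := by
      rw [Finset.sum_range_succ']
      simp
    rw [h3]
    rw [Nat.add_sub_cancel] at h2
    have h4 : m * (m + 1) = (m + 1) * m := Nat.mul_comm _ _
    omega
  have hcardT : T.card = m * (m + 1) / 2 := by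
    rw [hT, Finset.card_image_of_injOn, hcardD]
    rintro ⟨a, b⟩ hp ⟨a', b'⟩ hp' h
    have h1 := hmem _ hp
    have h2 := hmem _ hp'
    have h3 := NS_ex_inj h
    simp only at h1 h2 h3
    have hb : b = b' := h3.1
    have ha : a = a' := by omega
    rw [ha, hb]
  have hTm : ∀ x ∈ T, x.degree + 1 ≤ m := by
    intro x hx
    rw [hT, Finset.mem_image] at hx
    obtain ⟨p, hp, hpe⟩ := hx
    rw [← hpe, NS_ex_degree]
    have := hmem p hp
    omega
  have hle : m * (m + 1) / 2 - 1 ≤ (T.erase a0).card := by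
    have := Finset.pred_card_le_card_erase (s := T) (a := a0)
    omega
  refine ⟨fun i => ((T.erase a0).equivFin.symm (Fin.castLE hle i)).1, ?_, ?_⟩
  · intro i j h
    have h1 := Subtype.ext h
    have h2 := (T.erase a0).equivFin.symm.injective h1
    exact Fin.castLE_injective hle h2
  · intro i
    have h := ((T.erase a0).equivFin.symm (Fin.castLE hle i)).2
    rw [Finset.mem_erase] at h
    exact ⟨hTm _ h.2, h.1⟩

theorem NS_transc (k : Type) [Field k] :
    Transcendental k (algebraMap (Polynomial k) (RatFunc k) Polynomial.X) := by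
  rw [transcendental_iff]
  intro p hp
  rw [Polynomial.aeval_algebraMap_apply, Polynomial.aeval_X_left_apply] at hp
  exact (map_eq_zero_iff _ (IsFractionRing.injective (Polynomial k) (RatFunc k))).1 hp

theorem NS_proof (hK : St_KER) (hR : St_RED) (hC : St_COP) : St_NS := by
  classical
  intro k K _ _ _ _ P m hirr hdeg hm hns hinf q hq htr h1 φ hφ hφtr
  obtain ⟨l, hl⟩ : ∃ l : RatFunc k, l = algebraMap (Polynomial k) (RatFunc k) Polynomial.X := ⟨_, rfl⟩
  have hltr : Transcendental k l := by rw [hl]; exact NS_transc k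
  obtain ⟨P', hP'⟩ : ∃ P' : MvPolynomial (Fin 2) (RatFunc k),
    P' = MvPolynomial.map (algebraMap k (RatFunc k)) P := ⟨_, rfl⟩
  obtain ⟨Q', hQ'⟩ : ∃ Q' : MvPolynomial (Fin 2) (RatFunc k),
    Q' = MvPolynomial.map (algebraMap k (RatFunc k)) (MvPolynomial.pderiv 0 P) +
      MvPolynomial.C l * MvPolynomial.map (algebraMap k (RatFunc k)) (MvPolynomial.pderiv 1 P) :=
    ⟨_, rfl⟩
  have hFne : MvPolynomial.homogeneousComponent m P ≠ 0 := NS_hom_ne P m (by omega) hdeg
  have hFhom : (MvPolynomial.homogeneousComponent m P).IsHomogeneous m :=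
    MvPolynomial.homogeneousComponent_isHomogeneous m P
  have hcompP : MvPolynomial.homogeneousComponent m P' =
      MvPolynomial.map (algebraMap k (RatFunc k)) (MvPolynomial.homogeneousComponent m P) := by
    rw [hP', NS_hom_map]
  have hcompQ : MvPolynomial.homogeneousComponent (m - 1) Q' =
      MvPolynomial.map (algebraMap k (RatFunc k))
        (MvPolynomial.pderiv 0 (MvPolynomial.homogeneousComponent m P)) +
      MvPolynomial.C l * MvPolynomial.map (algebraMap k (RatFunc k))
        (MvPolynomial.pderiv 1 (MvPolynomial.homogeneousComponent m P)) := by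
    rw [hQ', map_add, MvPolynomial.homogeneousComponent_C_mul, NS_hom_map, NS_hom_map,
      NS_hom_pderiv P m (by omega), NS_hom_pderiv P m (by omega)]
  have hcop := hC k (RatFunc k) (MvPolynomial.homogeneousComponent m P) m (by omega) hFhom hFne
    hinf l hltr
  have hPdeg : P'.totalDegree = m := by rw [hP', NS_td_map, hdeg]
  have hQdeg : Q'.totalDegree ≤ m - 1 := by
    rw [hQ']
    refine (MvPolynomial.totalDegree_add _ _).trans (max_le ?_ ?_)
    · rw [NS_td_map]
      exact NS_td_pderiv P m hdeg.le 0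
    · refine (MvPolynomial.totalDegree_mul _ _).trans ?_
      rw [MvPolynomial.totalDegree_C, zero_add, NS_td_map]
      exact NS_td_pderiv P m hdeg.le 1
  have hred := hR (RatFunc k) P' Q' m (by omega) hPdeg hQdeg (by
    intro A B hAB
    rw [hcompP, hcompQ] at hAB
    rw [hcompP]
    exact hcop A B hAB)
  -- the leading form of `Q'` is not zero
  have hQne : MvPolynomial.homogeneousComponent (m - 1) Q' ≠ 0 := by
    intro h0
    rw [hcompQ] at h0
    have h2 := hcop 0 1 (by rw [h0]; ring)
    obtain ⟨b, hb⟩ := h2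
    have hb0 : b ≠ 0 := by
      rintro rfl
      rw [mul_zero] at hb
      exact one_ne_zero hb
    have hF0 : MvPolynomial.map (algebraMap k (RatFunc k))
        (MvPolynomial.homogeneousComponent m P) ≠ 0 := by
      intro h3
      rw [h3, zero_mul] at hb
      exact one_ne_zero hb
    have h4 := congrArg MvPolynomial.totalDegree hb
    rw [MvPolynomial.totalDegree_mul_of_isDomain hF0 hb0, NS_td_map, hFhom.totalDegree hFne,
      MvPolynomial.totalDegree_one] at h4
    omega
  obtain ⟨a0, ha0⟩ := MvPolynomial.ne_zero_iff.1 hQne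
  rw [MvPolynomial.coeff_homogeneousComponent] at ha0
  have ha0' : MvPolynomial.coeff a0 Q' ≠ 0 := by
    intro h0
    rw [h0, ite_self] at ha0
    exact ha0 rfl
  obtain ⟨e, he, hee⟩ := NS_exists_e m a0
  refine ⟨fun i => MvPolynomial.monomial (e i) 1, ?_⟩
  rw [Fintype.linearIndependent_iff]
  intro g hg
  have hch : ∀ i, ∃ r s : Polynomial k, Polynomial.aeval φ s ≠ 0 ∧
      (g i : K) * Polynomial.aeval φ s = Polynomial.aeval φ r := by
    intro i
    obtain ⟨r, s, hrs⟩ := (mem_adjoin_simple_iff k (g i : K)).1 (g i).2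
    by_cases hs : Polynomial.aeval φ s = 0
    · refine ⟨0, 1, by simp, ?_⟩
      rw [hrs, hs]
      simp
    · exact ⟨r, s, hs, by rw [hrs, div_mul_cancel₀ _ hs]⟩
  choose r s hs hrs using hch
  obtain ⟨R', hR'⟩ : ∃ R' : Fin (m * (m + 1) / 2 - 1) → Polynomial k,
    ∀ i, R' i = r i * ∏ j ∈ Finset.univ.erase i, s j := ⟨_, fun _ => rfl⟩
  obtain ⟨t, ht⟩ : ∃ t : K, t = Polynomial.aeval φ (∏ j, s j) := ⟨_, rfl⟩
  have ht0 : t ≠ 0 := by
    rw [ht, map_prod]
    exact Finset.prod_ne_zero_iff.2 fun j _ => hs j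
  have hR't : ∀ i, Polynomial.aeval φ (R' i) = (g i : K) * t := by
    intro i
    rw [hR' i, map_mul, ← hrs i, ht, ← Finset.mul_prod_erase Finset.univ s (Finset.mem_univ i),
      map_mul]
    ring
  -- the polynomial `R`
  obtain ⟨R, hRdef⟩ : ∃ R : Polynomial (MvPolynomial (Fin 2) k),
    R = ∑ i, (R' i).map MvPolynomial.C * Polynomial.C (MvPolynomial.monomial (e i) 1) := ⟨_, rfl⟩
  have hR0 : R.eval₂ (MvPolynomial.aeval q : MvPolynomial (Fin 2) k →ₐ[k] K).toRingHom φ = 0 := by
    rw [hRdef, Polynomial.eval₂_finsetSum]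
    have h2 : ∀ i, Polynomial.eval₂ (MvPolynomial.aeval q : MvPolynomial (Fin 2) k →ₐ[k] K).toRingHom φ
        ((R' i).map MvPolynomial.C * Polynomial.C (MvPolynomial.monomial (e i) 1)) =
        t * (g i • MvPolynomial.aeval q (MvPolynomial.monomial (e i) (1 : k))) := by
      intro i
      rw [Polynomial.eval₂_mul, Polynomial.eval₂_C, Polynomial.eval₂_map]
      have h3 : (MvPolynomial.aeval q : MvPolynomial (Fin 2) k →ₐ[k] K).toRingHom.comp
          MvPolynomial.C = algebraMap k K := by
        ext x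
        simp
      have h4 : Polynomial.eval₂ (algebraMap k K) φ (R' i) = (g i : K) * t := hR't i
      rw [h3, h4, Algebra.smul_def]
      show (g i : K) * t * MvPolynomial.aeval q (MvPolynomial.monomial (e i) (1 : k)) =
        t * ((g i : K) * MvPolynomial.aeval q (MvPolynomial.monomial (e i) (1 : k)))
      ring
    rw [Finset.sum_congr rfl fun i _ => h2 i, ← Finset.mul_sum, hg, mul_zero]
  obtain ⟨A, B, hAB⟩ := hK k K P hirr hns q hq htr h1 φ hφ R hR0
  -- apply `Ψ`
  obtain ⟨Ψ, hΨ⟩ : ∃ Ψ : Polynomial (MvPolynomial (Fin 2) k) →+* MvPolynomial (Fin 2) (RatFunc k),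
    Ψ = Polynomial.eval₂RingHom (MvPolynomial.map (algebraMap k (RatFunc k))) (MvPolynomial.C l) :=
    ⟨_, rfl⟩
  have hΨR : Ψ R = Ψ A * P' + Ψ B * Q' := by
    rw [hAB, hP', hQ', map_add, map_mul, map_mul, map_add, map_mul, hΨ]
    simp only [Polynomial.coe_eval₂RingHom, Polynomial.eval₂_C, Polynomial.eval₂_X]
  have hΨR2 : Ψ R = ∑ i, MvPolynomial.monomial (e i) (Polynomial.aeval l (R' i)) := by
    rw [hRdef, map_sum]
    refine Finset.sum_congr rfl fun i _ => ?_
    rw [map_mul, hΨ]
    simp only [Polynomial.coe_eval₂RingHom, Polynomial.eval₂_C]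
    rw [Polynomial.eval₂_map, MvPolynomial.map_monomial, map_one]
    have h3 : (MvPolynomial.map (algebraMap k (RatFunc k)) :
        MvPolynomial (Fin 2) k →+* MvPolynomial (Fin 2) (RatFunc k)).comp MvPolynomial.C =
        MvPolynomial.C.comp (algebraMap k (RatFunc k)) := by
      ext x
      simp
    rw [h3, ← Polynomial.hom_eval₂]
    rw [MvPolynomial.C_mul_monomial, mul_one]
    rfl
  have hcoef : ∀ d, MvPolynomial.coeff d (Ψ R) =
      ∑ i, if e i = d then Polynomial.aeval l (R' i) else 0 := by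
    intro d
    rw [hΨR2, MvPolynomial.coeff_sum]
    refine Finset.sum_congr rfl fun i _ => ?_
    rw [MvPolynomial.coeff_monomial]
  have hdegR : (Ψ R).totalDegree ≤ m - 1 := by
    rw [NS_td_le]
    intro d hd
    rw [hcoef] at hd
    obtain ⟨i, _, hi⟩ := Finset.exists_ne_zero_of_sum_ne_zero hd
    by_cases h2 : e i = d
    · have := (hee i).1
      rw [h2] at this
      omega
    · rw [if_neg h2] at hi
      exact absurd rfl hi
  rw [hΨR] at hdegR
  obtain ⟨c, hc⟩ := hred (Ψ A) (Ψ B) hdegR
  rw [← hΨR] at hc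
  have hc0 : c = 0 := by
    have h2 := congrArg (MvPolynomial.coeff a0) hc
    rw [hcoef, MvPolynomial.coeff_C_mul, Finset.sum_eq_zero (fun i _ => if_neg (hee i).2)] at h2
    rcases mul_eq_zero.1 h2.symm with h3 | h3
    · exact h3
    · exact absurd h3 ha0'
  rw [hc0, MvPolynomial.C_0, zero_mul] at hc
  intro j
  have h2 := hcoef (e j)
  rw [hc, MvPolynomial.coeff_zero, Finset.sum_eq_single j (fun i _ hij => if_neg fun h => hij (he h))
    (fun h => absurd (Finset.mem_univ j) h), if_pos rfl] at h2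
  have h3 : R' j = 0 := (transcendental_iff.1 hltr) _ h2.symm
  have h4 := hR't j
  rw [h3, map_zero] at h4
  rcases mul_eq_zero.1 h4.symm with h5 | h5
  · exact Subtype.ext h5
  · exact absurd h5 ht0

end H450BH
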