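import Mathlib
import Pool.Agent.H450R3.BH.Stubs2

/-! TASK NUL: Nullstellensatz reformulations. -/

set_option autoImplicit false

namespace H450BH

open MvPolynomial

theorem NUL_three (A B D : MvPolynomial (Fin 2) ℂ)
    (h : ∀ x : Fin 2 → ℂ, eval x A = 0 → eval x B = 0 → eval x D = 0 → False) :
    ∃ U V W : MvPolynomial (Fin 2) ℂ, U * A + V * B + W * D = 1 := by
  have h1 := vanishingIdeal_zeroLocus_eq_radical (K := ℂ)
    (Ideal.span ({A, B, D} : Set (MvPolynomial (Fin 2) ℂ)))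
  have h2 : zeroLocus ℂ (Ideal.span ({A, B, D} : Set (MvPolynomial (Fin 2) ℂ))) = ∅ := by
    rw [Set.eq_empty_iff_forall_notMem]
    intro x hx
    rw [mem_zeroLocus_iff] at hx
    have hA := hx A (Ideal.subset_span (by simp))
    have hB := hx B (Ideal.subset_span (by simp))
    have hD := hx D (Ideal.subset_span (by simp))
    rw [aeval_eq_eval] at hA hB hD
    exact h x hA hB hD
  rw [h2, vanishingIdeal_empty] at h1
  have h3 : (1 : MvPolynomial (Fin 2) ℂ) ∈
      (Ideal.span ({A, B, D} : Set (MvPolynomial (Fin 2) ℂ))).radical := by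
    rw [← h1]
    trivial
  rw [Ideal.mem_radical_iff] at h3
  obtain ⟨n, hn⟩ := h3
  rw [one_pow] at hn
  rw [Ideal.mem_span_insert] at hn
  obtain ⟨a, z, hz, hn⟩ := hn
  rw [Ideal.mem_span_pair] at hz
  obtain ⟨b, c, hz⟩ := hz
  exact ⟨a, b, c, by rw [hn, ← hz]; ring⟩

theorem NUL_two (A B : MvPolynomial (Fin 2) ℂ)
    (h : ∀ x : Fin 2 → ℂ, x ≠ 0 → eval x A = 0 → eval x B = 0 → False) :
    ∃ N : ℕ, ∀ i : Fin 2, ∃ U V : MvPolynomial (Fin 2) ℂ, U * A + V * B = X i ^ N := by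
  have h1 := vanishingIdeal_zeroLocus_eq_radical (K := ℂ)
    (Ideal.span ({A, B} : Set (MvPolynomial (Fin 2) ℂ)))
  have h3 : ∀ i : Fin 2, (X i : MvPolynomial (Fin 2) ℂ) ∈
      (Ideal.span ({A, B} : Set (MvPolynomial (Fin 2) ℂ))).radical := by
    intro i
    rw [← h1, mem_vanishingIdeal_iff]
    intro x hx
    rw [mem_zeroLocus_iff] at hx
    have hA := hx A (Ideal.subset_span (by simp))
    have hB := hx B (Ideal.subset_span (by simp))
    rw [aeval_eq_eval] at hA hB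
    by_cases hx0 : x = 0
    · rw [hx0]
      simp
    · exact absurd (h x hx0 hA hB) (fun h => h)
  have h4 : ∀ i : Fin 2, ∃ n : ℕ, (X i : MvPolynomial (Fin 2) ℂ) ^ n ∈
      Ideal.span ({A, B} : Set (MvPolynomial (Fin 2) ℂ)) := fun i => Ideal.mem_radical_iff.1 (h3 i)
  choose n hn using h4
  refine ⟨n 0 + n 1, fun i => ?_⟩
  have h5 : (X i : MvPolynomial (Fin 2) ℂ) ^ (n 0 + n 1) ∈
      Ideal.span ({A, B} : Set (MvPolynomial (Fin 2) ℂ)) := by
    have hle : n i ≤ n 0 + n 1 := by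
      fin_cases i
      · exact Nat.le_add_right _ _
      · exact Nat.le_add_left _ _
    exact Ideal.pow_mem_of_pow_mem _ (hn i) hle
  rw [Ideal.mem_span_pair] at h5
  obtain ⟨a, b, h5⟩ := h5
  exact ⟨a, b, h5⟩

theorem NUL_proof : St_NUL := by
  intro P m
  refine ⟨fun h => ?_, fun h => NUL_two _ _ h⟩
  exact NUL_three _ _ _ (fun x h1 h2 h3 => h x h3 h1 h2)

end H450BH
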