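import Mathlib
import Pool.Agent.H450R3.BH.Stubs2

/-!
PAR: parallel tangents and the degree of the slope map.
-/

set_option autoImplicit false

namespace H450BH

open IntermediateField Pool.Agent.H719R3.BG
open scoped ComplexConjugate

section parH

variable {k : Type} [Field k]

/-- homogenised value of `R` -/
noncomputable def par_H {T : Type} [CommRing T] [Algebra k T]
    (R : Polynomial (Polynomial k)) (u v s : T) : T :=
  ∑ i ∈ R.support, (∑ j ∈ Finset.range (xdeg R + 1),
    algebraMap k T ((R.coeff i).coeff j) * u ^ j * v ^ (xdeg R - j)) * s ^ i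

theorem par_H_map {T T' : Type} [CommRing T] [Algebra k T] [CommRing T'] [Algebra k T']
    (f : T →ₐ[k] T') (R : Polynomial (Polynomial k)) (u v s : T) :
    f (par_H R u v s) = par_H R (f u) (f v) (f s) := by
  unfold par_H
  simp only [map_sum, map_mul, map_pow, AlgHom.commutes]

theorem par_H_eval {T : Type} [CommRing T] [Algebra k T]
    (R : Polynomial (Polynomial k)) (φ v s : T) :
    par_H R (φ * v) v s =
      v ^ (xdeg R) * ∑ i ∈ R.support, Polynomial.aeval φ (R.coeff i) * s ^ i := by
  unfold par_H
  rw [Finset.mul_sum]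
  refine Finset.sum_congr rfl fun i hi => ?_
  rw [← mul_assoc]
  congr 1
  have hd : (R.coeff i).natDegree < xdeg R + 1 := by
    unfold xdeg
    exact Nat.lt_succ_of_le (Finset.le_sup (f := fun i => (R.coeff i).natDegree) hi)
  rw [Polynomial.aeval_eq_sum_range' hd, Finset.mul_sum]
  refine Finset.sum_congr rfl fun j hj => ?_
  rw [Finset.mem_range] at hj
  rw [Algebra.smul_def, mul_pow]
  have e : v ^ (xdeg R) = v ^ j * v ^ (xdeg R - j) := by
    rw [← pow_add]
    congr 1
    omega
  rw [e]
  ring

end parH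

theorem par_rk {k K : Type} [Field k] [Field K] [Algebra k K] (q : Fin 2 → K) (i : Fin 2)
    (h : Transcendental k (q i)) : ((0 + 1 : ℕ) : ℕ∞) ≤ H450Al.rk k (Set.range q) := by
  have h1 : (AlgebraicIndependent.matroid k K).Indep {q i} := by
    rw [AlgebraicIndependent.matroid_indep_iff]
    exact (algebraicIndependent_unique_type_iff (R := k)
      (x := fun a : ({q i} : Set K) => (a : K))).2 h
  have h2 : H450Al.rk k {q i} = 1 := by
    unfold H450Al.rk
    rw [h1.eRk_eq_encard, Set.encard_singleton]
  have h3 : H450Al.rk k {q i} ≤ H450Al.rk k (Set.range q) :=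
    H450Al.rk_mono' k (by
      rintro _ rfl
      exact Set.mem_range_self i)
  rw [h2] at h3
  simpa using h3

theorem par_ev {k K : Type} [Field k] [Field K] [Algebra k K] (f g : K)
    (R : Polynomial (Polynomial k)) :
    ev f g R = ∑ i ∈ R.support, Polynomial.aeval f (R.coeff i) * g ^ i := by
  unfold ev
  rw [Polynomial.eval₂_eq_sum, Polynomial.sum_def]
  rfl

/-- elements of `k(φ)` are fractions -/
theorem par_frac {k K : Type} [Field k] [Field K] [Algebra k K] (φ : K) (g : k⟮φ⟯) :
    ∃ r d : Polynomial k, Polynomial.aeval φ d ≠ 0 ∧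
      (g : K) * Polynomial.aeval φ d = Polynomial.aeval φ r := by
  obtain ⟨r, d, hrd⟩ := (IntermediateField.mem_adjoin_simple_iff k (g : K)).1 g.2
  by_cases hd : Polynomial.aeval φ d = 0
  · refine ⟨0, 1, by simp, ?_⟩
    rw [hrd, hd]
    simp
  · refine ⟨r, d, hd, ?_⟩
    rw [hrd]
    field_simp

/-- a dependence relation gives a polynomial -/
theorem par_dep {k K : Type} [Field k] [Field K] [Algebra k K] (φ s : K) (n : ℕ)
    (h : ¬ LinearIndependent k⟮φ⟯ (fun i : Fin n => s ^ (i : ℕ))) :
    ∃ A : Polynomial (Polynomial k), A ≠ 0 ∧ A.natDegree < n ∧ ev φ s A = 0 := by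
  classical
  rw [Fintype.linearIndependent_iff] at h
  push Not at h
  obtain ⟨g, hg, i0, hi0⟩ := h
  choose r d hd hrd using fun i => par_frac φ (g i)
  have hd0 : ∀ i, d i ≠ 0 := by
    intro i hi
    apply hd i
    rw [hi, map_zero]
  have hr0 : r i0 ≠ 0 := by
    intro hi
    have h1 := hrd i0
    rw [hi, map_zero] at h1
    rcases mul_eq_zero.1 h1 with h2 | h2
    · exact hi0 (by exact_mod_cast h2)
    · exact hd i0 h2
  set c : Fin n → Polynomial k := fun i => r i * ∏ j ∈ Finset.univ.erase i, d j with hc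
  set A : Polynomial (Polynomial k) := ∑ i : Fin n, Polynomial.C (c i) * Polynomial.X ^ (i : ℕ)
    with hA
  have hcoeff : A.coeff (i0 : ℕ) = c i0 := by
    rw [hA, Polynomial.finsetSum_coeff]
    rw [Finset.sum_eq_single i0]
    · rw [Polynomial.coeff_C_mul_X_pow, if_pos rfl]
    · intro j _ hj
      rw [Polynomial.coeff_C_mul_X_pow, if_neg]
      intro h2
      exact hj (Fin.ext h2.symm)
    · intro h2
      exact absurd (Finset.mem_univ _) h2
  have hc0 : c i0 ≠ 0 := mul_ne_zero hr0 (Finset.prod_ne_zero_iff.2 fun j _ => hd0 j)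
  have hA0 : A ≠ 0 := by
    intro h2
    rw [h2, Polynomial.coeff_zero] at hcoeff
    exact hc0 hcoeff.symm
  refine ⟨A, hA0, ?_, ?_⟩
  · have h3 := Polynomial.degree_sum_fin_lt c
    rw [← hA] at h3
    exact (Polynomial.natDegree_lt_iff_degree_lt hA0).2 h3
  · have hev : ev φ s A = ∑ i : Fin n, Polynomial.aeval φ (c i) * s ^ (i : ℕ) := by
      unfold ev
      rw [hA, Polynomial.eval₂_finsetSum]
      refine Finset.sum_congr rfl fun i _ => ?_
      rw [Polynomial.eval₂_mul, Polynomial.eval₂_C, Polynomial.eval₂_X_pow]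
      rfl
    rw [hev]
    have h4 : ∀ i, Polynomial.aeval φ (c i) = (∏ j, Polynomial.aeval φ (d j)) * (g i : K) := by
      intro i
      rw [hc]
      simp only
      rw [map_mul, map_prod, ← hrd i, ← Finset.mul_prod_erase Finset.univ _ (Finset.mem_univ i)]
      ring
    have h5 : ∑ i : Fin n, Polynomial.aeval φ (c i) * s ^ (i : ℕ) =
        (∏ j, Polynomial.aeval φ (d j)) * ∑ i : Fin n, g i • s ^ (i : ℕ) := by
      rw [Finset.mul_sum]
      refine Finset.sum_congr rfl fun i _ => ?_
      rw [h4 i, mul_assoc]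
      rfl
    rw [h5, hg, mul_zero]

/-- the choice of the projection -/
theorem par_eta {k : Type} [Field k] [CharZero k] (Z : Finset (Fin 2 → k)) :
    ∃ η : k, Set.InjOn (fun x : Fin 2 → k => x 0 + η * x 1) (Z : Set (Fin 2 → k)) := by
  classical
  obtain ⟨η, hη⟩ := Infinite.exists_notMem_finset
    ((Z ×ˢ Z).image (fun y => (y.1 0 - y.2 0) / (y.2 1 - y.1 1)))
  refine ⟨η, ?_⟩
  intro x hx y hy hxy
  by_contra hne
  simp only at hxy
  by_cases h1 : x 1 = y 1
  · apply hne
    funext i
    fin_cases i
    · rw [h1] at hxy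
      exact add_right_cancel hxy
    · exact h1
  · apply hη
    rw [Finset.mem_image]
    refine ⟨(x, y), Finset.mem_product.2 ⟨hx, hy⟩, ?_⟩
    have h2 : y 1 - x 1 ≠ 0 := sub_ne_zero.2 (Ne.symm h1)
    rw [div_eq_iff h2]
    linear_combination hxy

theorem PAR_proof (hREL : St_REL) : St_PAR := by
  classical
  intro k K _ _ _ _ hK P q hP hq hnc hq1 φ hφ hφc l Z hZ
  obtain ⟨η, hη⟩ := par_eta Z
  set s : K := q 0 + algebraMap k K η * q 1 with hs
  refine ⟨s, ?_, ?_⟩
  · apply add_mem
    · exact IntermediateField.subset_adjoin k _ (by simp)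
    · apply mul_mem
      · exact IntermediateField.algebraMap_mem _ _
      · exact IntermediateField.subset_adjoin k _ (by simp)
  · by_contra hdep
    obtain ⟨A0, hA0, hA0d, hA0e⟩ := par_dep φ s Z.card hdep
    obtain ⟨R, hR, hRe, hRd, _⟩ := hREL k K hK φ s hφc
    have hRn : R.natDegree < Z.card :=
      lt_of_le_of_lt (Polynomial.natDegree_le_of_dvd (hRd A0 hA0e) hA0) hA0d
    -- the specialised polynomial
    set Rl : Polynomial k := R.map (Polynomial.evalRingHom l) with hRl
    have hRl0 : Rl ≠ 0 := by
      intro h0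
      have h1 : Polynomial.C (Polynomial.X - Polynomial.C l) ∣ R := by
        rw [Polynomial.C_dvd_iff_dvd_coeff]
        intro i
        rw [Polynomial.dvd_iff_isRoot]
        have h2 := congrArg (fun p => Polynomial.coeff p i) h0
        simp only [hRl, Polynomial.coeff_map, Polynomial.coeff_zero] at h2
        exact h2
      obtain ⟨B, hB⟩ := h1
      rcases hR.isUnit_or_isUnit hB with h2 | h2
      · rw [Polynomial.isUnit_C] at h2
        exact Polynomial.not_isUnit_X_sub_C l h2
      · have h3 : ev φ s R = (φ - algebraMap k K l) * ev φ s B := by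
          rw [hB]
          unfold ev
          rw [Polynomial.eval₂_mul, Polynomial.eval₂_C]
          congr 1
          change Polynomial.aeval φ (Polynomial.X - Polynomial.C l) = _
          simp
        have h4 : IsUnit (ev φ s B) := by
          have h5 := h2.map (Polynomial.eval₂RingHom
            (Polynomial.aeval φ : Polynomial k →ₐ[k] K).toRingHom s)
          exact h5
        rw [hRe] at h3
        rcases mul_eq_zero.1 h3.symm with h6 | h6
        · exact hφc ⟨l, (sub_eq_zero.1 h6).symm⟩
        · exact h4.ne_zero h6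
    -- the polynomial on the plane
    set A : MvPolynomial (Fin 2) k := par_H R (-(MvPolynomial.pderiv 0 P))
      (MvPolynomial.pderiv 1 P) (MvPolynomial.X 0 + MvPolynomial.C η * MvPolynomial.X 1) with hA
    have hAq : MvPolynomial.aeval q A = 0 := by
      rw [hA, par_H_map]
      have e1 : MvPolynomial.aeval q (-(MvPolynomial.pderiv 0 P)) =
          φ * MvPolynomial.aeval q (MvPolynomial.pderiv 1 P) := by
        rw [map_neg]
        linear_combination -hφ
      have e2 : MvPolynomial.aeval q (MvPolynomial.X 0 + MvPolynomial.C η * MvPolynomial.X 1 :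
          MvPolynomial (Fin 2) k) = s := by
        simp [hs]
      rw [e1, e2, par_H_eval, ← par_ev, hRe, mul_zero]
    obtain ⟨i0, hi0⟩ := hnc
    have hPA : P ∣ A := (H450Al.gauss_lemma (m := 0) q (par_rk q i0 (hK.tr _ hi0)) P hP hq).1 A hAq
    -- evaluation at the points of `Z`
    have hroot : ∀ t ∈ Z.image (fun x : Fin 2 → k => x 0 + η * x 1), Rl.eval t = 0 := by
      intro t ht
      rw [Finset.mem_image] at ht
      obtain ⟨x, hx, rfl⟩ := ht
      obtain ⟨h1, h2, h3⟩ := hZ x hx
      have h4 : MvPolynomial.aeval x A = 0 := by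
        obtain ⟨B, hB⟩ := hPA
        rw [hB, map_mul]
        have : MvPolynomial.aeval x P = 0 := h1
        rw [this, zero_mul]
      rw [hA, par_H_map] at h4
      have e1 : MvPolynomial.aeval x (-(MvPolynomial.pderiv 0 P)) =
          l * MvPolynomial.aeval x (MvPolynomial.pderiv 1 P) := by
        have h2' : MvPolynomial.aeval x (MvPolynomial.pderiv 0 P) +
          l * MvPolynomial.aeval x (MvPolynomial.pderiv 1 P) = 0 := h2
        rw [map_neg]
        linear_combination -h2'
      have e2 : MvPolynomial.aeval x (MvPolynomial.X 0 + MvPolynomial.C η * MvPolynomial.X 1 :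
          MvPolynomial (Fin 2) k) = x 0 + η * x 1 := by
        simp
      have h3' : MvPolynomial.aeval x (MvPolynomial.pderiv 1 P) ≠ 0 := h3
      rw [e1, e2, par_H_eval] at h4
      have h5 := (mul_eq_zero.1 h4).resolve_left (pow_ne_zero _ h3')
      rw [hRl, Polynomial.eval_map, Polynomial.eval₂_eq_sum, Polynomial.sum_def]
      rw [← h5]
      refine Finset.sum_congr rfl fun i _ => ?_
      rfl
    have hcard : (Z.image (fun x : Fin 2 → k => x 0 + η * x 1)).card = Z.card :=
      Finset.card_image_of_injOn hη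
    refine hRl0 (Polynomial.eq_zero_of_natDegree_lt_card_of_eval_eq_zero' Rl _ hroot ?_)
    rw [hcard]
    exact lt_of_le_of_lt Polynomial.natDegree_map_le hRn

end H450BH
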