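import Mathlib
import Pool.Agent.H450R3.BH.Stubs2

/-!
PEN: the pencil lemma.
-/

set_option autoImplicit false

namespace H450BH

open IntermediateField Pool.Agent.H719R3.BG

section pen

variable {k K : Type} [Field k] [Field K] [Algebra k K]

theorem pen_dg_of_mem {f : K} (h : f ∉ Set.range (algebraMap k K)) :
    dg k K f = Module.finrank k⟮f⟯ K := by
  unfold dg
  rw [if_neg h]

theorem pen_field_eq {ε u : K} {l : k} (h : ε - algebraMap k K l ≠ 0) :
    k⟮ε, u * (ε - algebraMap k K l)⟯ = k⟮ε, u⟯ := by
  have hl : ∀ F : IntermediateField k K, algebraMap k K l ∈ F := fun F => F.algebraMap_mem l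
  apply le_antisymm
  · rw [adjoin_le_iff]
    have h1 : ε ∈ k⟮ε, u⟯ := subset_adjoin k _ (by simp)
    have h2 : u ∈ k⟮ε, u⟯ := subset_adjoin k _ (by simp)
    intro x hx
    rcases hx with hx | hx
    · rw [hx]
      exact h1
    · rw [Set.mem_singleton_iff] at hx
      rw [hx]
      exact mul_mem h2 (sub_mem h1 (hl _))
  · rw [adjoin_le_iff]
    have h1 : ε ∈ k⟮ε, u * (ε - algebraMap k K l)⟯ := subset_adjoin k _ (by simp)
    have h2 : u * (ε - algebraMap k K l) ∈ k⟮ε, u * (ε - algebraMap k K l)⟯ :=
      subset_adjoin k _ (by simp)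
    intro x hx
    rcases hx with hx | hx
    · rw [hx]
      exact h1
    · rw [Set.mem_singleton_iff] at hx
      rw [hx]
      have h3 : (u * (ε - algebraMap k K l)) / (ε - algebraMap k K l) = u := by
        field_simp
      have h4 := div_mem h2 (sub_mem h1 (hl _))
      rw [h3] at h4
      exact h4

theorem pen_field_eq' {ε : K} {c l : k} (hc : c ≠ 0) :
    k⟮algebraMap k K c * (ε - algebraMap k K l)⟯ = k⟮ε⟯ := by
  have hl : ∀ (F : IntermediateField k K) (a : k), algebraMap k K a ∈ F :=
    fun F a => F.algebraMap_mem a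
  have hc' : algebraMap k K c ≠ 0 := by
    rwa [Ne, map_eq_zero]
  apply le_antisymm
  · rw [adjoin_simple_le_iff]
    exact mul_mem (hl _ _) (sub_mem (mem_adjoin_simple_self k ε) (hl _ _))
  · rw [adjoin_simple_le_iff]
    have h1 := mem_adjoin_simple_self k (algebraMap k K c * (ε - algebraMap k K l))
    have h3 : ε = (algebraMap k K c * (ε - algebraMap k K l)) / algebraMap k K c +
        algebraMap k K l := by
      field_simp
      ring
    have h4 : (algebraMap k K c * (ε - algebraMap k K l)) / algebraMap k K c +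
        algebraMap k K l ∈ k⟮algebraMap k K c * (ε - algebraMap k K l)⟯ :=
      add_mem (div_mem h1 (hl _ _)) (hl _ _)
    rwa [← h3] at h4

theorem pen_sub_ne {ε : K} (hε : ε ∉ Set.range (algebraMap k K)) (l : k) :
    ε - algebraMap k K l ≠ 0 := by
  intro h
  exact hε ⟨l, (sub_eq_zero.1 h).symm⟩

end pen

theorem PEN_proof (hREL : St_REL) : St_PEN := by
  intro k K _ _ _ _ hK ε u hu hε
  classical
  have hfin := hK.fin ε hε
  have hpos : 0 < Module.finrank k⟮ε⟯ K := Module.finrank_pos
  by_cases huc : u ∈ Set.range (algebraMap k K)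
  · obtain ⟨c, rfl⟩ := huc
    have hc : c ≠ 0 := by
      intro h
      exact hu (by rw [h, map_zero])
    refine ⟨∅, fun l _ => ?_⟩
    have h1 : algebraMap k K c * (ε - algebraMap k K l) ∉ Set.range (algebraMap k K) := by
      rintro ⟨d, hd⟩
      apply hε
      refine ⟨d / c + l, ?_⟩
      have hc' : algebraMap k K c ≠ 0 := by
        rwa [Ne, map_eq_zero]
      rw [map_add, map_div₀, hd]
      field_simp
      ring
    rw [pen_dg_of_mem hε, pen_dg_of_mem h1, pen_field_eq' hc]
  · obtain ⟨R, hRi, hR0, hRm, hRd, -⟩ := hREL k K hK ε u hε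
    have hdg : dg k K ε = Module.finrank k⟮ε⟯ K := pen_dg_of_mem hε
    have hDN : 0 < R.natDegree * Module.finrank k⟮ε, u⟯ K := by
      rw [hRd, hdg]
      exact hpos
    have hD : 0 < R.natDegree := Nat.pos_of_mul_pos_right hDN |> fun _ => by
      rcases Nat.eq_zero_or_pos R.natDegree with h | h
      · rw [h, zero_mul] at hDN
        exact absurd hDN (lt_irrefl _)
      · exact h
    have hN : 0 < Module.finrank k⟮ε, u⟯ K := by
      rcases Nat.eq_zero_or_pos (Module.finrank k⟮ε, u⟯ K) with h | h
      · rw [h, mul_zero] at hDN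
        exact absurd hDN (lt_irrefl _)
      · exact h
    have hR : R ≠ 0 := hRi.ne_zero
    refine ⟨R.leadingCoeff.roots.toFinset, fun l hl => ?_⟩
    have hrl : R.leadingCoeff.eval l ≠ 0 := by
      intro h
      apply hl
      rw [Multiset.mem_toFinset, Polynomial.mem_roots (Polynomial.leadingCoeff_ne_zero.2 hR)]
      exact h
    have hεl := pen_sub_ne hε l
    obtain ⟨c, hc⟩ : ∃ c, c = u * (ε - algebraMap k K l) := ⟨_, rfl⟩
    have hc0 : c ≠ 0 := by
      rw [hc]
      exact mul_ne_zero hu hεl
    rw [← hc]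
    obtain ⟨T, hTi, hT0, hTm, hTd, hTx⟩ := hREL k K hK ε c hε
    have hT : T ≠ 0 := hTi.ne_zero
    have hfield : Module.finrank k⟮ε, c⟯ K = Module.finrank k⟮ε, u⟯ K := by
      rw [hc, pen_field_eq hεl]
    rw [hfield] at hTd hTx
    have hTD : T.natDegree = R.natDegree := by
      apply Nat.eq_of_mul_eq_mul_right hN
      rw [hTd, hRd]
    -- the substituted polynomial
    obtain ⟨T', hT'⟩ : ∃ T', T' = T.comp (Polynomial.C (Polynomial.X - Polynomial.C l) *
      Polynomial.X) := ⟨_, rfl⟩
    have hcoef : ∀ i, T'.coeff i = T.coeff i * (Polynomial.X - Polynomial.C l) ^ i := by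
      intro i
      rw [hT', Polynomial.comp_C_mul_X_coeff]
    have hev : ev ε u T' = 0 := by
      rw [hT']
      unfold ev
      rw [Polynomial.eval₂_comp]
      have h1 : Polynomial.eval₂ (Polynomial.aeval ε : Polynomial k →ₐ[k] K).toRingHom u
          (Polynomial.C (Polynomial.X - Polynomial.C l) * Polynomial.X) = c := by
        rw [Polynomial.eval₂_mul, Polynomial.eval₂_C, Polynomial.eval₂_X, hc]
        simp [mul_comm]
      rw [h1]
      exact hT0
    obtain ⟨Q, hQ⟩ := hRm T' hev
    have hXl : (Polynomial.X - Polynomial.C l : Polynomial k) ≠ 0 := Polynomial.X_sub_C_ne_zero l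
    have hT'0 : T' ≠ 0 := by
      intro h
      have h1 := hcoef T.natDegree
      rw [h, Polynomial.coeff_zero, Polynomial.coeff_natDegree] at h1
      exact mul_ne_zero (Polynomial.leadingCoeff_ne_zero.2 hT) (pow_ne_zero _ hXl) h1.symm
    have hQ0 : Q ≠ 0 := by
      rintro rfl
      exact hT'0 (by rw [hQ, mul_zero])
    have hT'd : T'.natDegree ≤ T.natDegree := by
      rw [Polynomial.natDegree_le_iff_coeff_eq_zero]
      intro i hi
      rw [hcoef, Polynomial.coeff_eq_zero_of_natDegree_lt hi, zero_mul]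
    have hQd : Q.natDegree = 0 := by
      have h1 := Polynomial.natDegree_mul hR hQ0
      rw [← hQ] at h1
      omega
    obtain ⟨q, hq⟩ : ∃ q, Q = Polynomial.C q := ⟨_, Polynomial.eq_C_of_natDegree_eq_zero hQd⟩
    have hq0 : q ≠ 0 := by
      rintro rfl
      exact hQ0 (by rw [hq, Polynomial.C_0])
    have hrel : ∀ i, T.coeff i * (Polynomial.X - Polynomial.C l) ^ i = R.coeff i * q := by
      intro i
      rw [← hcoef, hQ, hq, Polynomial.coeff_mul_C]
    -- `(X - l)^D` divides `q`
    have hdvd : (Polynomial.X - Polynomial.C l) ^ R.natDegree ∣ q := by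
      have h1 := hrel R.natDegree
      rw [Polynomial.coeff_natDegree] at h1
      have h2 : (Polynomial.X - Polynomial.C l) ^ R.natDegree ∣ R.leadingCoeff * q :=
        Dvd.intro_left _ h1
      refine IsCoprime.dvd_of_dvd_mul_left ?_ h2
      apply IsCoprime.pow_left
      refine (Polynomial.irreducible_X_sub_C l).coprime_iff_not_dvd.2 ?_
      rw [Polynomial.dvd_iff_isRoot]
      exact hrl
    have hDq : R.natDegree ≤ q.natDegree := by
      have h1 := Polynomial.natDegree_le_of_dvd hdvd hq0
      rwa [Polynomial.natDegree_pow, Polynomial.natDegree_X_sub_C, mul_one] at h1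
    have h0 := hrel 0
    rw [pow_zero, mul_one] at h0
    have ht0 : T.coeff 0 ≠ 0 := by
      intro h
      have h1 : Polynomial.X ∣ T := Polynomial.X_dvd_iff.2 h
      obtain ⟨W, hW⟩ := h1
      rcases hTi.isUnit_or_isUnit hW with h2 | h2
      · exact Polynomial.not_isUnit_X h2
      · have h3 : ev ε c T = c * ev ε c W := by
          unfold ev
          rw [hW, Polynomial.eval₂_mul, Polynomial.eval₂_X]
        rw [hT0] at h3
        have h4 : ev ε c W ≠ 0 := by
          have h5 : IsUnit (Polynomial.eval₂ (Polynomial.aeval ε : Polynomial k →ₐ[k] K).toRingHom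
              c W) := h2.map (Polynomial.eval₂RingHom _ c)
          exact h5.ne_zero
        exact mul_ne_zero hc0 h4 h3.symm
    have hqt : q.natDegree ≤ (T.coeff 0).natDegree :=
      Polynomial.natDegree_le_of_dvd ⟨R.coeff 0, by rw [h0, mul_comm]⟩ ht0
    by_cases hcc : c ∈ Set.range (algebraMap k K)
    · exfalso
      obtain ⟨c₀, hc₀⟩ := hcc
      have h1 : ev ε c (Polynomial.X - Polynomial.C (Polynomial.C c₀)) = 0 := by
        unfold ev
        rw [Polynomial.eval₂_sub, Polynomial.eval₂_X, Polynomial.eval₂_C, ← hc₀]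
        simp
      obtain ⟨W, hW⟩ := hTm _ h1
      have h2 : (Polynomial.X - Polynomial.C (Polynomial.C c₀) :
          Polynomial (Polynomial k)).coeff 0 = T.coeff 0 * W.coeff 0 := by
        rw [hW, Polynomial.mul_coeff_zero]
      have h3 : - Polynomial.C c₀ = T.coeff 0 * W.coeff 0 := by
        rw [← h2]
        simp
      have hc₀' : c₀ ≠ 0 := by
        rintro rfl
        exact hc0 (by rw [← hc₀, map_zero])
      have h4 : T.coeff 0 ∣ Polynomial.C c₀ := ⟨- W.coeff 0, by rw [mul_neg, ← h3, neg_neg]⟩
      have h5 := Polynomial.natDegree_le_of_dvd h4 (by simpa using hc₀')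
      rw [Polynomial.natDegree_C] at h5
      omega
    · have h1 := hTx hcc
      rw [← h1, ← hRd]
      refine Nat.mul_le_mul_right _ (hDq.trans (hqt.trans ?_))
      unfold xdeg
      exact Finset.le_sup (f := fun i => (T.coeff i).natDegree) (Polynomial.mem_support_iff.2 ht0)

end H450BH
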