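import Mathlib
import Pool.Agent.H450R3.BH.Stubs2

set_option autoImplicit false

namespace H450BH

open MvPolynomial

variable {E : Type} [Field E]

theorem red_hc_mul (f g : MvPolynomial (Fin 2) E) (a b : ℕ) (hf : f.totalDegree ≤ a)
    (hg : g.totalDegree ≤ b) :
    homogeneousComponent (a + b) (f * g) =
      homogeneousComponent a f * homogeneousComponent b g := by
  classical
  ext d
  rw [coeff_homogeneousComponent]
  have hdeg : ∀ (h : MvPolynomial (Fin 2) E) (x : Fin 2 →₀ ℕ), coeff x h ≠ 0 →
      x.degree ≤ h.totalDegree := by
    intro h x hx
    exact le_totalDegree (mem_support_iff.mpr hx)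
  split_ifs with hd
  · rw [coeff_mul, coeff_mul]
    refine Finset.sum_congr rfl ?_
    rintro ⟨x, y⟩ hxy
    rw [Finset.HasAntidiagonal.mem_antidiagonal] at hxy
    simp only at hxy ⊢
    rw [coeff_homogeneousComponent, coeff_homogeneousComponent]
    have hsum : x.degree + y.degree = a + b := by
      rw [← hd, ← hxy, map_add]
    by_cases h1 : coeff x f = 0
    · rw [h1]; simp
    by_cases h2 : coeff y g = 0
    · rw [h2]; simp
    have h3 := hdeg f x h1
    have h4 := hdeg g y h2
    rw [if_pos (by omega), if_pos (by omega)]
  · rw [coeff_mul]
    symm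
    refine Finset.sum_eq_zero ?_
    rintro ⟨x, y⟩ hxy
    rw [Finset.HasAntidiagonal.mem_antidiagonal] at hxy
    simp only at hxy ⊢
    rw [coeff_homogeneousComponent, coeff_homogeneousComponent]
    by_cases h1 : x.degree = a
    · by_cases h2 : y.degree = b
      · exfalso
        apply hd
        rw [← hxy, map_add, h1, h2]
      · rw [if_neg h2, mul_zero]
    · rw [if_neg h1, zero_mul]

theorem red_drop (f : MvPolynomial (Fin 2) E) (a : ℕ) (hf : f.totalDegree ≤ a)
    (h0 : homogeneousComponent a f = 0) : f = 0 ∨ f.totalDegree + 1 ≤ a := by
  by_cases h : f = 0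
  · exact Or.inl h
  right
  by_contra hcon
  have hEq : f.totalDegree = a := by omega
  obtain ⟨d, hd, hd2⟩ : ∃ d ∈ f.support, f.totalDegree = d.degree := by
    obtain ⟨d, hd, hd2⟩ := Finset.exists_mem_eq_sup f.support (support_nonempty.mpr h)
      (fun s => s.sum fun _ e => e)
    exact ⟨d, hd, hd2⟩
  have h2 : coeff d (homogeneousComponent a f) = coeff d f := by
    rw [coeff_homogeneousComponent, if_pos (by omega)]
  rw [h0, coeff_zero] at h2
  exact (mem_support_iff.mp hd) h2.symm

theorem RED_proof : St_RED := by
  intro E _ P Q m hm hP hQ hdiv
  have hPm0 : homogeneousComponent m P ≠ 0 := by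
    intro h
    rcases red_drop P m hP.le h with h1 | h1
    · rw [h1, totalDegree_zero] at hP
      omega
    · omega
  have hPmdeg : (homogeneousComponent m P).totalDegree = m :=
    (homogeneousComponent_isHomogeneous m P).totalDegree hPm0
  have main : ∀ k : ℕ, ∀ A B : MvPolynomial (Fin 2) E, (A = 0 ∨ A.totalDegree + 1 ≤ k) →
      B.totalDegree ≤ k → (A * P + B * Q).totalDegree ≤ m - 1 →
      ∃ c : E, A * P + B * Q = MvPolynomial.C c * Q := by
    intro k
    induction k with
    | zero =>
      intro A B hA hB _
      have hA0 : A = 0 := by
        rcases hA with h | h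
        · exact h
        · omega
      have hB0 : B = C (coeff 0 B) := totalDegree_eq_zero_iff_eq_C.mp (by omega)
      refine ⟨coeff 0 B, ?_⟩
      rw [hA0, zero_mul, zero_add, ← hB0]
    | succ k ih =>
      intro A B hA hB hAB
      have hA' : A.totalDegree ≤ k := by
        rcases hA with h | h
        · rw [h, totalDegree_zero]; omega
        · omega
      have h1 : homogeneousComponent (k + m) (A * P + B * Q) = 0 :=
        homogeneousComponent_eq_zero _ _ (by omega)
      have h2 : homogeneousComponent (k + m) (A * P) =
          homogeneousComponent k A * homogeneousComponent m P := red_hc_mul A P k m hA' hP.le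
      have h3 : homogeneousComponent (k + m) (B * Q) =
          homogeneousComponent (k + 1) B * homogeneousComponent (m - 1) Q := by
        have := red_hc_mul B Q (k + 1) (m - 1) hB hQ
        rwa [show k + 1 + (m - 1) = k + m by omega] at this
      rw [map_add, h2, h3] at h1
      obtain ⟨T0, hT0⟩ := hdiv _ _ h1
      obtain ⟨T, hT1, hT2, hT3⟩ : ∃ T : MvPolynomial (Fin 2) E,
          homogeneousComponent (k + 1) B = homogeneousComponent m P * T ∧
          T.IsHomogeneous (k + 1 - m) ∧ (T = 0 ∨ m ≤ k + 1) := by
        by_cases hz : homogeneousComponent (k + 1) B = 0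
        · exact ⟨0, by rw [hz, mul_zero], isHomogeneous_zero _ _ _, Or.inl rfl⟩
        have hT0ne : T0 ≠ 0 := by
          rintro rfl
          rw [mul_zero] at hT0
          exact hz hT0
        have hdeg : (homogeneousComponent (k + 1) B).totalDegree = k + 1 :=
          (homogeneousComponent_isHomogeneous (k + 1) B).totalDegree hz
        have hdeg2 : k + 1 = m + T0.totalDegree := by
          rw [← hdeg, hT0, totalDegree_mul_of_isDomain hPm0 hT0ne, hPmdeg]
        refine ⟨homogeneousComponent (k + 1 - m) T0, ?_,
          homogeneousComponent_isHomogeneous _ _, Or.inr (by omega)⟩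
        have h4 := red_hc_mul (homogeneousComponent m P) T0 m (k + 1 - m) hPmdeg.le (by omega)
        rw [← hT0, show m + (k + 1 - m) = k + 1 by omega] at h4
        have h5 : homogeneousComponent (k + 1) (homogeneousComponent (k + 1) B) =
            homogeneousComponent (k + 1) B := by
          rw [homogeneousComponent_of_mem (homogeneousComponent_mem (k + 1) B), if_pos rfl]
        have h6 : homogeneousComponent m (homogeneousComponent m P) =
            homogeneousComponent m P := by
          rw [homogeneousComponent_of_mem (homogeneousComponent_mem m P), if_pos rfl]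
        rw [h5, h6] at h4
        exact h4
      have hA1 : homogeneousComponent k A = - (T * homogeneousComponent (m - 1) Q) := by
        rw [hT1] at h1
        have : homogeneousComponent m P * (homogeneousComponent k A +
            T * homogeneousComponent (m - 1) Q) = 0 := by
          rw [← h1]; ring
        rcases mul_eq_zero.mp this with h | h
        · exact absurd h hPm0
        · exact eq_neg_of_add_eq_zero_left h
      have hTT : homogeneousComponent (k + 1 - m) T = T := by
        rw [homogeneousComponent_of_mem ((mem_homogeneousSubmodule _ _).mpr hT2), if_pos rfl]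
      have hTd : T.totalDegree ≤ k + 1 - m := hT2.totalDegree_le
      have hTQ : (T * Q).totalDegree ≤ k ∧
          homogeneousComponent k (T * Q) = T * homogeneousComponent (m - 1) Q := by
        rcases hT3 with h | h
        · subst h
          simp
        · have e1 := red_hc_mul T Q (k + 1 - m) (m - 1) hTd hQ
          rw [show k + 1 - m + (m - 1) = k by omega, hTT] at e1
          exact ⟨(totalDegree_mul _ _).trans (by omega), e1⟩
      have hTP : (T * P).totalDegree ≤ k + 1 ∧
          homogeneousComponent (k + 1) (T * P) = T * homogeneousComponent m P := by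
        rcases hT3 with h | h
        · subst h
          simp
        · have e1 := red_hc_mul T P (k + 1 - m) m hTd hP.le
          rw [show k + 1 - m + m = k + 1 by omega, hTT] at e1
          exact ⟨(totalDegree_mul _ _).trans (by omega), e1⟩
      have e : A * P + B * Q = (A + T * Q) * P + (B - T * P) * Q := by ring
      rw [e]
      refine ih _ _ ?_ ?_ (by rw [← e]; exact hAB)
      · refine red_drop _ k ?_ ?_
        · exact (totalDegree_add _ _).trans (max_le hA' hTQ.1)
        · rw [map_add, hA1, hTQ.2, neg_add_cancel]
      · have h7 : (B - T * P).totalDegree ≤ k + 1 :=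
          (totalDegree_sub _ _).trans (max_le hB hTP.1)
        rcases red_drop _ (k + 1) h7 (by rw [map_sub, hT1, hTP.2]; ring) with h | h
        · rw [h, totalDegree_zero]; omega
        · omega
  intro A B hAB
  exact main (A.totalDegree + 1 + B.totalDegree) A B (Or.inr (by omega)) (by omega) hAB

end H450BH
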