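import Mathlib
import Pool.Agent.H450R3.BH.Stubs2

/-!
REL: the irreducible relation between two elements of a function field of dimension one.
-/

set_option autoImplicit false

namespace H450BH

open IntermediateField Polynomial

section REL_gen

variable {A L K : Type} [CommRing A] [IsDomain A] [UniqueFactorizationMonoid A]
  [Field L] [Field K] [Algebra A L] [IsFractionRing A L] [Algebra A K] [Algebra L K]
  [IsScalarTower A L K]

variable (L) in
include L in
omit [IsDomain A] [UniqueFactorizationMonoid A] in
theorem REL_inj : Function.Injective (algebraMap A K) := by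
  rw [IsScalarTower.algebraMap_eq A L K]
  exact (algebraMap L K).injective.comp (IsFractionRing.injective A L)

theorem REL_gen (g : K) (hg : IsIntegral L g) (R : A[X]) (hR : Irreducible R)
    (h0 : aeval g R = 0) :
    (∀ B : A[X], aeval g B = 0 → R ∣ B) ∧ R.natDegree = (minpoly L g).natDegree := by
  have hinj : Function.Injective (algebraMap A K) := REL_inj L
  have hdeg : R.natDegree ≠ 0 := by
    intro h
    rw [Polynomial.eq_C_of_natDegree_eq_zero h] at h0
    rw [aeval_C] at h0
    have h1 : R.coeff 0 = 0 := hinj (by rw [h0, map_zero])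
    rw [Polynomial.eq_C_of_natDegree_eq_zero h, h1, C_0] at hR
    exact not_irreducible_zero hR
  have hprim : R.IsPrimitive := hR.isPrimitive hdeg
  letI : NormalizedGCDMonoid A := Nonempty.some inferInstance
  have hirr : Irreducible (R.map (algebraMap A L)) :=
    (hprim.irreducible_iff_irreducible_map_fraction_map).1 hR
  have h0' : aeval g (R.map (algebraMap A L)) = 0 := by
    rw [aeval_map_algebraMap, h0]
  have hmin := minpoly.eq_of_irreducible hirr h0'
  have hne : (R.map (algebraMap A L)).leadingCoeff ≠ 0 :=
    leadingCoeff_ne_zero.2 hirr.ne_zero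
  refine ⟨fun B hB => ?_, ?_⟩
  · apply hprim.dvd_of_fraction_map_dvd_fraction_map (K := L)
    have h1 : minpoly L g ∣ B.map (algebraMap A L) := by
      apply minpoly.dvd
      rw [aeval_map_algebraMap, hB]
    rw [← hmin] at h1
    exact (Dvd.intro _ rfl).trans h1
  · rw [← hmin, natDegree_mul_C (inv_ne_zero hne),
      natDegree_map_eq_of_injective (IsFractionRing.injective A L)]

theorem REL_ex (g : K) (hg : IsIntegral L g) :
    ∃ R : A[X], Irreducible R ∧ aeval g R = 0 := by
  have hinj : Function.Injective (algebraMap A K) := REL_inj L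
  have key : ∀ B : A[X], B ≠ 0 → aeval g B = 0 → ∃ R : A[X], Irreducible R ∧ aeval g R = 0 := by
    intro B
    induction B using WfDvdMonoid.induction_on_irreducible with
    | zero => intro h; exact absurd rfl h
    | unit u hu =>
      intro _ h
      exact absurd h (hu.map (aeval g)).ne_zero
    | mul a i ha hi ih =>
      intro _ h
      rw [map_mul] at h
      rcases mul_eq_zero.1 h with h | h
      · exact ⟨i, hi, h⟩
      · exact ih ha h
  refine key (IsLocalization.integerNormalization (nonZeroDivisors A) (minpoly L g)) ?_ ?_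
  · rw [Ne, IsFractionRing.integerNormalization_eq_zero_iff]
    exact minpoly.ne_zero hg
  · exact IsLocalization.integerNormalization_aeval_eq_zero _ _ (minpoly.aeval L g)

end REL_gen

section REL_field

variable {k K : Type} [Field k] [Field K] [Algebra k K]

theorem REL_core (hD : OneDim k K) (f g : K) (hf : f ∉ Set.range (algebraMap k K)) :
    (∀ R : Polynomial (Polynomial k), Irreducible R → ev f g R = 0 →
      (∀ A, ev f g A = 0 → R ∣ A) ∧
      R.natDegree * Module.finrank k⟮f, g⟯ K = Module.finrank k⟮f⟯ K) ∧
    ∃ R : Polynomial (Polynomial k), Irreducible R ∧ ev f g R = 0 := by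
  have htr := hD.tr f hf
  haveI := hD.fin f hf
  let e := RatFunc.algEquivOfTranscendental f htr
  letI i1 : Algebra k[X] k⟮f⟯ :=
    ((e : RatFunc k →+* k⟮f⟯).comp (algebraMap k[X] (RatFunc k))).toAlgebra
  letI i2 : Algebra k[X] K := (Polynomial.aeval f : k[X] →ₐ[k] K).toRingHom.toAlgebra
  haveI i3 : IsScalarTower k[X] k⟮f⟯ K := by
    refine IsScalarTower.of_algebraMap_eq (fun p => ?_)
    change aeval f p = ((e (algebraMap k[X] (RatFunc k) p) : k⟮f⟯) : K)
    rw [RatFunc.algEquivOfTranscendental_algebraMap]
    rw [← IntermediateField.coe_val, ← Polynomial.aeval_algHom_apply]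
    simp
  haveI i4 : IsFractionRing k[X] k⟮f⟯ :=
    IsLocalization.isLocalization_of_algEquiv (nonZeroDivisors k[X])
      ({ (e : RatFunc k ≃+* k⟮f⟯) with commutes' := fun _ => rfl } : RatFunc k ≃ₐ[k[X]] k⟮f⟯)
  have hint : IsIntegral k⟮f⟯ g := IsIntegral.of_finite _ _
  have hev : ∀ R : Polynomial (Polynomial k), ev f g R = aeval g R := fun R => rfl
  refine ⟨fun R hR h0 => ?_, ?_⟩
  · obtain ⟨h1, h2⟩ := REL_gen (A := k[X]) (L := k⟮f⟯) g hint R hR h0
    refine ⟨h1, ?_⟩
    rw [h2, ← IntermediateField.adjoin.finrank hint]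
    rw [← IntermediateField.adjoin_simple_adjoin_simple]
    exact Module.finrank_mul_finrank k⟮f⟯ k⟮f⟯⟮g⟯ K
  · exact REL_ex (A := k[X]) (L := k⟮f⟯) g hint

theorem REL_coeff_swap (p : k[X][X]) (m n : ℕ) :
    ((Bivariate.swap p).coeff m).coeff n = (p.coeff n).coeff m := by
  induction p using Polynomial.induction_on' with
  | add p q hp hq => simp only [map_add, coeff_add, hp, hq]
  | monomial i a =>
    induction a using Polynomial.induction_on' with
    | add p q hp hq => simp only [map_add, coeff_add, hp, hq]
    | monomial j c =>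
      rw [Bivariate.swap_monomial_monomial]
      simp only [coeff_monomial]
      by_cases h1 : j = m <;> by_cases h2 : i = n <;> simp [h1, h2, coeff_monomial]

theorem REL_natDegree_swap (p : k[X][X]) : (Bivariate.swap p).natDegree = xdeg p := by
  apply le_antisymm
  · rw [natDegree_le_iff_coeff_eq_zero]
    intro N hN
    ext n
    rw [REL_coeff_swap, coeff_zero]
    apply coeff_eq_zero_of_natDegree_lt
    by_cases hn : n ∈ p.support
    · exact lt_of_le_of_lt (Finset.le_sup (f := fun i => (p.coeff i).natDegree) hn) hN
    · rw [notMem_support_iff.1 hn, natDegree_zero]; omega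
  · apply Finset.sup_le
    intro i hi
    by_contra hlt
    push Not at hlt
    have h1 : (Bivariate.swap p).coeff (p.coeff i).natDegree = 0 :=
      coeff_eq_zero_of_natDegree_lt hlt
    have h2 := REL_coeff_swap p (p.coeff i).natDegree i
    rw [h1, coeff_zero] at h2
    exact (leadingCoeff_ne_zero.2 (mem_support_iff.1 hi)) h2.symm

theorem REL_ev_swap (f g : K) (p : k[X][X]) : ev g f (Bivariate.swap p) = ev f g p := by
  have h : ∀ (x y : K) (q : k[X][X]), ev x y q = Polynomial.aevalAeval x y q := by
    intro x y q
    unfold ev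
    induction q using Polynomial.induction_on' with
    | add p q hp hq => simp only [eval₂_add, map_add, hp, hq]
    | monomial i a => simp [Polynomial.eval₂_monomial]
  rw [h, h, Bivariate.aevalAeval_swap]

end REL_field

theorem REL_proof : St_REL := by
  intro k K _ _ _ hD f g hf
  obtain ⟨h1, R, hR, h0⟩ := REL_core hD f g hf
  obtain ⟨h2, h3⟩ := h1 R hR h0
  refine ⟨R, hR, h0, h2, ?_, fun hg => ?_⟩
  · rw [h3, dg, if_neg hf]
  · obtain ⟨h4, -⟩ := REL_core hD g f hg
    have h5 : Irreducible (Bivariate.swap R) := (MulEquiv.irreducible_iff Bivariate.swap).2 hR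
    obtain ⟨-, h6⟩ := h4 (Bivariate.swap R) h5 (by rw [REL_ev_swap, h0])
    rw [REL_natDegree_swap] at h6
    rw [dg, if_neg hg, ← h6, Set.pair_comm]

end H450BH
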