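import Mathlib
import Pool.Agent.H450R3.BH.Stubs2
import Pool.Agent.H114R2.DgAux

/-!
`dg (f ^ 2) = 2 dg f`.
-/

set_option autoImplicit false

namespace H450BH

open IntermediateField Polynomial

theorem sq_const (k K : Type) [Field k] [Field K] [Algebra k K] (hD : OneDim k K) (f : K)
    (hf : f ∉ Set.range (algebraMap k K)) : f ^ 2 ∉ Set.range (algebraMap k K) := by
  rintro ⟨a, ha⟩
  apply hD.tr f hf
  refine ⟨X ^ 2 - C a, Polynomial.X_pow_sub_C_ne_zero (by norm_num) a, ?_⟩
  rw [map_sub, map_pow, Polynomial.aeval_X, Polynomial.aeval_C, ha, sub_self]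

theorem sq_not_mem (k K : Type) [Field k] [Field K] [Algebra k K] (hD : OneDim k K) (f : K)
    (hf : f ∉ Set.range (algebraMap k K)) : f ∉ k⟮f ^ 2⟯ := by
  intro h
  rw [mem_adjoin_simple_iff] at h
  obtain ⟨r, s, hrs⟩ := h
  have hf0 : f ≠ 0 := by
    rintro rfl
    exact hf ⟨0, map_zero _⟩
  have hs0 : Polynomial.aeval (f ^ 2) s ≠ 0 := by
    intro h0
    rw [h0, div_zero] at hrs
    exact hf0 hrs
  have hs : s ≠ 0 := by
    rintro rfl
    exact hs0 (map_zero _)
  have h1 : f * Polynomial.aeval (f ^ 2) s = Polynomial.aeval (f ^ 2) r :=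
    (eq_div_iff hs0).1 hrs
  have h2 : Polynomial.aeval f (X * Polynomial.expand k 2 s - Polynomial.expand k 2 r) = 0 := by
    rw [map_sub, map_mul, Polynomial.aeval_X, Polynomial.expand_aeval, Polynomial.expand_aeval,
      h1, sub_self]
  have h3 : X * Polynomial.expand k 2 s - Polynomial.expand k 2 r = 0 := by
    by_contra hne
    exact hD.tr f hf ⟨_, hne, h2⟩
  have h4 : X * Polynomial.expand k 2 s = Polynomial.expand k 2 r := sub_eq_zero.1 h3
  have h5 := congrArg Polynomial.natDegree h4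
  have h6 : Polynomial.expand k 2 s ≠ 0 := by
    rw [Ne, Polynomial.expand_eq_zero (by norm_num)]
    exact hs
  rw [Polynomial.natDegree_X_mul h6, Polynomial.natDegree_expand,
    Polynomial.natDegree_expand] at h5
  omega

theorem sq_pair (k K : Type) [Field k] [Field K] [Algebra k K] (f : K) :
    k⟮f ^ 2, f⟯ = k⟮f⟯ := by
  apply le_antisymm
  · rw [adjoin_le_iff]
    intro x hx
    have hf : f ∈ k⟮f⟯ := mem_adjoin_simple_self k f
    rcases hx with rfl | hx
    · exact pow_mem hf 2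
    · rw [Set.mem_singleton_iff.1 hx]
      exact hf
  · rw [adjoin_simple_le_iff]
    exact subset_adjoin k _ (by simp)

theorem SQ_proof : St_SQ := by
  intro k K _ _ _ _ hD f
  by_cases hf : f ∈ Set.range (algebraMap k K)
  · rw [dga_dg_const k K f hf]
    obtain ⟨a, rfl⟩ := hf
    rw [dga_dg_const k K _ ⟨a ^ 2, map_pow _ _ _⟩]
  have hf2 := sq_const k K hD f hf
  have hfin := hD.fin _ hf2
  rw [dga_dg_nonconst k K f hf, dga_dg_nonconst k K _ hf2, dga_tower k K (f ^ 2) f hfin,
    dga_finrank_congr k K _ _ (sq_pair k K f)]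
  congr 1
  have hint : IsIntegral k⟮f ^ 2⟯ f := Algebra.IsIntegral.isIntegral f
  apply le_antisymm
  · have hM : (X ^ 2 - C (dga_gen k K (f ^ 2)) : Polynomial k⟮f ^ 2⟯) ≠ 0 :=
      Polynomial.X_pow_sub_C_ne_zero (by norm_num) _
    have h1 : (minpoly k⟮f ^ 2⟯ f).natDegree
        ≤ (X ^ 2 - C (dga_gen k K (f ^ 2)) : Polynomial k⟮f ^ 2⟯).natDegree := by
      apply Polynomial.natDegree_le_natDegree
      apply minpoly.degree_le_of_ne_zero _ _ hM
      rw [map_sub, map_pow, Polynomial.aeval_X, Polynomial.aeval_C, dga_gen_map, sub_self]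
    rw [Polynomial.natDegree_X_pow_sub_C] at h1
    exact h1
  · rw [minpoly.two_le_natDegree_iff hint]
    rintro ⟨x, hx⟩
    apply sq_not_mem k K hD f hf
    have h1 : (x : K) ∈ k⟮f ^ 2⟯ := x.2
    have h2 : (x : K) = f := hx
    rw [h2] at h1
    exact h1

end H450BH
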