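import Mathlib
import Pool.Agent.H450R3.BH.Stubs2

/-! Task TAN (helper828): tangent lines of an algebraic table are tangent to the curve. -/

set_option autoImplicit false

namespace H450BH

open Pool.Agent.H719R3.BG Filter Topology
open scoped ComplexConjugate

theorem tan_taylor (P : MvPolynomial (Fin 2) ℂ) (a : Fin 2 → ℂ) :
    ∃ A B : (Fin 2 → ℂ) → ℂ, Continuous A ∧ Continuous B ∧
      (∀ x, MvPolynomial.eval x P - MvPolynomial.eval a P =
        A x * (x 0 - a 0) + B x * (x 1 - a 1)) ∧
      A a = MvPolynomial.eval a (MvPolynomial.pderiv 0 P) ∧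
      B a = MvPolynomial.eval a (MvPolynomial.pderiv 1 P) := by
  induction P using MvPolynomial.induction_on with
  | C c =>
    exact ⟨fun _ => 0, fun _ => 0, continuous_const, continuous_const, fun x => by simp,
      by simp, by simp⟩
  | add p q hp hq =>
    obtain ⟨A, B, hA, hB, h1, h2, h3⟩ := hp
    obtain ⟨A', B', hA', hB', h1', h2', h3'⟩ := hq
    refine ⟨fun x => A x + A' x, fun x => B x + B' x, hA.add hA', hB.add hB', fun x => ?_, ?_, ?_⟩
    · have e1 := h1 x
      have e2 := h1' x
      rw [map_add, map_add]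
      linear_combination e1 + e2
    · simp only [map_add, h2, h2']
    · simp only [map_add, h3, h3']
  | mul_X p i hp =>
    obtain ⟨A, B, hA, hB, h1, h2, h3⟩ := hp
    refine ⟨fun x => A x * x i + MvPolynomial.eval a p * (if i = 0 then 1 else 0),
      fun x => B x * x i + MvPolynomial.eval a p * (if i = 1 then 1 else 0),
      (hA.mul (continuous_apply i)).add continuous_const,
      (hB.mul (continuous_apply i)).add continuous_const, fun x => ?_, ?_, ?_⟩
    · have e1 := h1 x
      simp only [map_mul, MvPolynomial.eval_X]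
      fin_cases i
      · simp
        linear_combination x 0 * e1
      · simp
        linear_combination x 1 * e1
    · rw [Derivation.leibniz, MvPolynomial.pderiv_X]
      simp only [smul_eq_mul, map_add, map_mul, MvPolynomial.eval_X, ← h2]
      fin_cases i <;> simp <;> ring
    · rw [Derivation.leibniz, MvPolynomial.pderiv_X]
      simp only [smul_eq_mul, map_add, map_mul, MvPolynomial.eval_X, ← h3]
      fin_cases i <;> simp <;> ring

theorem TAN_proof : St_TAN := by
  intro Ω hT P hP p hp u hu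
  obtain ⟨O, hO⟩ := hT.nonempty
  have hS := segFacts hT
  obtain ⟨Γ, hΓ⟩ := exists_param hT hO
  obtain ⟨τ, hτ⟩ := exists_tau hT hS hΓ
  obtain ⟨x, rfl⟩ := hΓ.surj p hp
  obtain ⟨c, rfl⟩ := hτ.par x u hu
  obtain ⟨A, B, hA, hB, h1, h2, h3⟩ := tan_taylor P ![Γ x, conj (Γ x)]
  -- the identity for the divided differences
  have key : A ![Γ x, conj (Γ x)] * τ x ^ 2 + B ![Γ x, conj (Γ x)] = 0 := by
    have hc : ContinuousOn (fun y : ℝ => MM Γ τ x y) (Set.Icc x (x + Real.pi)) := by
      have := (MM_cont hO hΓ hτ).comp (f := fun y : ℝ => ((x, y) : ℝ × ℝ))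
        (s := Set.Icc x (x + Real.pi)) (Continuous.continuousOn (by fun_prop))
        (fun y hy => ⟨hy.1, hy.2⟩)
      exact this
    have hv : Continuous (fun y : ℝ => (![Γ y, conj (Γ y)] : Fin 2 → ℂ)) := by
      have := hΓ.cont
      refine continuous_pi fun i => ?_
      fin_cases i
      · simpa using hΓ.cont
      · exact Complex.continuous_conj.comp hΓ.cont
    have hcon : ContinuousOn (fun y : ℝ => A ![Γ y, conj (Γ y)] * MM Γ τ x y +
        B ![Γ y, conj (Γ y)]) (Set.Icc x (x + Real.pi)) :=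
      ((hA.comp hv).continuousOn.mul hc).add (hB.comp hv).continuousOn
    have hx : x ∈ Set.Icc x (x + Real.pi) := ⟨le_rfl, by linarith [Real.pi_pos]⟩
    have hz : ∀ y ∈ Set.Ioc x (x + Real.pi), A ![Γ y, conj (Γ y)] * MM Γ τ x y +
        B ![Γ y, conj (Γ y)] = 0 := by
      intro y hy
      have hne : Γ y ≠ Γ x := fun h => hy.1.ne' (t6b_inj hΓ hy.1.le hy.2 h)
      have hD : conj (Γ y - Γ x) ≠ 0 := (map_ne_zero _).2 (sub_ne_zero.2 hne)
      have e := h1 ![Γ y, conj (Γ y)]
      rw [hP _ (hΓ.mem y), hP _ (hΓ.mem x)] at e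
      simp only [Matrix.cons_val_zero, Matrix.cons_val_one, sub_self] at e
      rw [← map_sub] at e
      unfold MM
      rw [if_neg hne]
      have : A ![Γ y, conj (Γ y)] * ((Γ y - Γ x) / conj (Γ y - Γ x)) +
        B ![Γ y, conj (Γ y)] = (A ![Γ y, conj (Γ y)] * (Γ y - Γ x) +
          B ![Γ y, conj (Γ y)] * conj (Γ y - Γ x)) / conj (Γ y - Γ x) := by
        field_simp
      rw [this, ← e, zero_div]
    have hl := (hcon x hx).mono (Set.Ioc_subset_Icc_self (a := x) (b := x + Real.pi))
    have hl2 : Tendsto (fun y : ℝ => A ![Γ y, conj (Γ y)] * MM Γ τ x y +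
        B ![Γ y, conj (Γ y)]) (𝓝[Set.Ioc x (x + Real.pi)] x) (𝓝 0) :=
      tendsto_const_nhds.congr' (by
        filter_upwards [self_mem_nhdsWithin] with y hy
        exact (hz y hy).symm)
    have : (𝓝[Set.Ioc x (x + Real.pi)] x).NeBot := by
      rw [nhdsWithin_Ioc_eq_nhdsGT (by linarith [Real.pi_pos])]
      infer_instance
    have := tendsto_nhds_unique hl hl2
    simpa [MM] using this
  rw [← h2, ← h3]
  have ht : τ x * conj (τ x) = 1 := by
    rw [Complex.mul_conj, Complex.normSq_eq_norm_sq, hτ.norm]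
    norm_num
  rw [map_mul, Complex.conj_ofReal]
  linear_combination (c : ℂ) * conj (τ x) * key -
    (c : ℂ) * A ![Γ x, conj (Γ x)] * τ x * ht

end H450BH
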