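import Mathlib
import Pool.Agent.H450R3.BH.Stubs2

/-! TASK TRP: the slope of a curve which is not a line is not constant. -/

set_option autoImplicit false

namespace H450BH

open MvPolynomial

theorem TRP_td {k : Type} [Field k] (i : Fin 2) (p : MvPolynomial (Fin 2) k)
    (h : pderiv i p ≠ 0) : (pderiv i p).totalDegree < p.totalDegree := by
  have key : ∀ m ∈ (pderiv i p).support, (m.sum fun _ e => e) + 1 ≤ p.totalDegree := by
    intro m hm
    rw [mem_support_iff, coeff_pderiv] at hm
    have h1 : m + Finsupp.single i 1 ∈ p.support := by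
      rw [mem_support_iff]
      exact left_ne_zero_of_mul hm
    have h2 := le_totalDegree h1
    rw [Finsupp.sum_add_index' (by simp) (by simp)] at h2
    simpa using h2
  obtain ⟨m0, hm0⟩ := support_nonempty.2 h
  have h0 : 0 < p.totalDegree := by
    have := key m0 hm0
    omega
  show (pderiv i p).support.sup (fun s => s.sum fun _ e => e) < p.totalDegree
  rw [Finset.sup_lt_iff h0]
  intro m hm
  have := key m hm
  omega

theorem TRP_td_le {k : Type} [Field k] (i : Fin 2) (p : MvPolynomial (Fin 2) k) :
    (pderiv i p).totalDegree ≤ p.totalDegree - 1 := by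
  by_cases h : pderiv i p = 0
  · rw [h, totalDegree_zero]
    exact Nat.zero_le _
  · have := TRP_td i p h
    omega

theorem TRP_rk {k K : Type} [Field k] [Field K] [Algebra k K] (q : Fin 2 → K) (i : Fin 2)
    (h : Transcendental k (q i)) : ((0 + 1 : ℕ) : ℕ∞) ≤ H450Al.rk k (Set.range q) := by
  have h1 : q i ∉ H450Al.cl k (∅ : Set K) := by
    rw [H450Al.mem_cl]
    intro h2
    apply h
    rw [Algebra.adjoin_empty] at h2
    exact Subalgebra.isAlgebraic_of_isAlgebraic_bot h2
  have h2 := H450Al.rk_insert_eq k (∅ : Set K) (q i) h1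
  have h3 : H450Al.rk k (insert (q i) ∅) ≤ H450Al.rk k (Set.range q) := by
    apply H450Al.rk_mono'
    intro x hx
    rcases hx with hx | hx
    · exact ⟨i, hx.symm⟩
    · exact absurd hx (by simp)
  refine le_trans ?_ h3
  rw [h2]
  simp

theorem TRP_chain {k A : Type} [Field k] [CommRing A] [Algebra k A]
    (f : Fin 2 → Polynomial A) (p : MvPolynomial (Fin 2) k) :
    Polynomial.derivative (aeval f p) = aeval f (pderiv 0 p) * Polynomial.derivative (f 0) +
      aeval f (pderiv 1 p) * Polynomial.derivative (f 1) := by
  induction p using MvPolynomial.induction_on with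
  | C a => simp
  | add p q hp hq =>
    simp only [map_add, hp, hq]
    ring
  | mul_X p i hp =>
    rw [map_mul, aeval_X, Polynomial.derivative_mul, hp]
    fin_cases i
    · simp
      ring
    · simp
      ring

/-- a polynomial with `P₀ + c P₁ = 0` is constant in the direction `(1, c)` -/
theorem TRP_const {k A : Type} [Field k] [CommRing A] [IsDomain A] [Algebra k A] [CharZero A]
    (P : MvPolynomial (Fin 2) k) (c : k) (hG : pderiv 0 P + C c * pderiv 1 P = 0) (x y : A) :
    aeval ![x, y] P = aeval ![0, y - algebraMap k A c * x] P := by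
  set b : A := y - algebraMap k A c * x with hb
  set f : Fin 2 → Polynomial A :=
    ![Polynomial.X, Polynomial.C b + Polynomial.C (algebraMap k A c) * Polynomial.X] with hf
  have h1 : Polynomial.derivative (aeval f P) = 0 := by
    rw [TRP_chain]
    have e0 : Polynomial.derivative (f 0) = 1 := by simp [hf]
    have e1 : Polynomial.derivative (f 1) = Polynomial.C (algebraMap k A c) := by simp [hf]
    rw [e0, e1]
    have h2 := congrArg (aeval f) hG
    rw [map_add, map_mul, map_zero, aeval_C] at h2
    have e2 : algebraMap k (Polynomial A) c = Polynomial.C (algebraMap k A c) := rfl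
    rw [e2] at h2
    linear_combination h2
  have h2 : (aeval f P).natDegree = 0 := Polynomial.derivative_eq_zero.1 h1
  obtain ⟨a, ha⟩ := Polynomial.natDegree_eq_zero.1 h2
  have h3 : ∀ t : A, (aeval f P).eval t = aeval ![t, b + algebraMap k A c * t] P := by
    intro t
    have h4 : ((Polynomial.aeval t : Polynomial A →ₐ[A] A).restrictScalars k).comp (aeval f) =
        aeval ![t, b + algebraMap k A c * t] := by
      apply MvPolynomial.algHom_ext
      intro i
      fin_cases i
      · simp [hf]
      · simp [hf]
    have h5 := congrArg (fun φ : MvPolynomial (Fin 2) k →ₐ[k] A => φ P) h4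
    simpa [Polynomial.aeval_def] using h5
  have h4 : ∀ t : A, aeval ![t, b + algebraMap k A c * t] P = a := by
    intro t
    rw [← h3, ← ha, Polynomial.eval_C]
  have h5 := h4 x
  have h6 := h4 0
  rw [mul_zero, add_zero] at h6
  rw [h6, ← h5]
  congr 2
  rw [hb]
  funext i
  fin_cases i
  · rfl
  · simp

theorem TRP_proof : St_TRP := by
  intro k K _ _ _ _ hO P q hP hdeg hq htr hP1 φ hφ hc
  obtain ⟨c, rfl⟩ := hc
  obtain ⟨i, hi⟩ := htr
  have : CharZero K := charZero_of_injective_algebraMap (algebraMap k K).injective
  have hrk := TRP_rk q i (hO.tr _ hi)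
  have hgauss := (H450Al.gauss_lemma (m := 0) q hrk P hP hq).1
  have hG : pderiv 0 P + C c * pderiv 1 P = 0 := by
    by_contra hne
    have h1 : P ∣ pderiv 0 P + C c * pderiv 1 P := by
      apply hgauss
      rw [map_add, map_mul, aeval_C]
      exact hφ
    have h2 := totalDegree_le_of_dvd_of_isDomain h1 hne
    have h3 : (pderiv 0 P + C c * pderiv 1 P).totalDegree ≤ P.totalDegree - 1 := by
      refine (totalDegree_add _ _).trans (max_le (TRP_td_le 0 P) ?_)
      refine (totalDegree_mul _ _).trans ?_
      rw [totalDegree_C, zero_add]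
      exact TRP_td_le 1 P
    omega
  have hq' : aeval ![q 0, q 1] P = 0 := by
    have : ![q 0, q 1] = q := by
      funext j
      fin_cases j <;> rfl
    rw [this]
    exact hq
  rw [TRP_const P c hG] at hq'
  -- the univariate polynomial
  set T : Polynomial k := aeval ![(0 : Polynomial k), Polynomial.X] P with hT
  have hTev : ∀ {A : Type} [CommRing A] [Algebra k A] (t : A),
      Polynomial.aeval t T = aeval ![0, t] P := by
    intro A _ _ t
    rw [hT]
    have h4 : (Polynomial.aeval t : Polynomial k →ₐ[k] A).comp
        (aeval ![(0 : Polynomial k), Polynomial.X]) = aeval ![0, t] := by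
      apply MvPolynomial.algHom_ext
      intro i
      fin_cases i
      · simp
      · simp
    exact congrArg (fun φ : MvPolynomial (Fin 2) k →ₐ[k] A => φ P) h4
  have hT0 : T ≠ 0 := by
    intro h0
    apply hP.ne_zero
    apply MvPolynomial.funext
    intro x
    have h1 := TRP_const (A := k) P c hG (x 0) (x 1)
    rw [← hTev, h0, map_zero] at h1
    rw [map_zero, ← aeval_eq_eval]
    have : ![x 0, x 1] = x := by
      funext j
      fin_cases j <;> rfl
    rw [this] at h1
    exact h1
  have halg : IsAlgebraic k (q 1 - algebraMap k K c * q 0) := by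
    refine ⟨T, hT0, ?_⟩
    rw [hTev]
    exact hq'
  have hmem : q 1 - algebraMap k K c * q 0 ∈ Set.range (algebraMap k K) := by
    by_contra hb
    exact hO.tr _ hb halg
  obtain ⟨b0, hb0⟩ := hmem
  have hL : P ∣ X 1 - C c * X 0 - C b0 := by
    apply hgauss
    rw [map_sub, map_sub, map_mul, aeval_C, aeval_C, aeval_X, aeval_X, hb0]
    ring
  have hL0 : (X 1 - C c * X 0 - C b0 : MvPolynomial (Fin 2) k) ≠ 0 := by
    intro h0
    have h1 := congrArg (coeff (Finsupp.single (1 : Fin 2) 1)) h0
    rw [coeff_sub, coeff_sub, coeff_X_same, coeff_C_mul, coeff_C] at h1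
    have h2 : coeff (Finsupp.single (1 : Fin 2) 1) (X 0 : MvPolynomial (Fin 2) k) = 0 := by
      rw [coeff_X]
      rw [if_neg]
      intro h3
      have := DFunLike.congr_fun h3 (1 : Fin 2)
      simp at this
    rw [h2, if_neg] at h1
    · simp at h1
    · intro h3
      have := DFunLike.congr_fun h3 (1 : Fin 2)
      simp at this
  have h1 := totalDegree_le_of_dvd_of_isDomain hL hL0
  have h2 : (X 1 - C c * X 0 - C b0 : MvPolynomial (Fin 2) k).totalDegree ≤ 1 := by
    refine (totalDegree_sub _ _).trans (max_le ?_ ?_)
    · refine (totalDegree_sub _ _).trans (max_le ?_ ?_)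
      · rw [totalDegree_X]
      · refine (totalDegree_mul _ _).trans ?_
        rw [totalDegree_C, totalDegree_X]
    · rw [totalDegree_C]
      exact Nat.zero_le _
  omega

end H450BH
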