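import Mathlib
import Pool.Agent.H450R3.BH.Final
import Pool.Agent.H450R3.BH.ABS
import Pool.Agent.H450R3.BH.ADD
import Pool.Agent.H450R3.BH.COP
import Pool.Agent.H450R3.BH.FLD
import Pool.Agent.H450R3.BH.GER
import Pool.Agent.H450R3.BH.KER
import Pool.Agent.H450R3.BH.LIN
import Pool.Agent.H450R3.BH.MAIN
import Pool.Agent.H450R3.BH.MUL
import Pool.Agent.H450R3.BH.NS
import Pool.Agent.H450R3.BH.NulSt
import Pool.Agent.H450R3.BH.PAR
import Pool.Agent.H450R3.BH.PEN
import Pool.Agent.H450R3.BH.RED
import Pool.Agent.H450R3.BH.REL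
import Pool.Agent.H450R3.BH.SQ
import Pool.Agent.H450R3.BH.TAN
import Pool.Agent.H450R3.BH.TRP

/-!
All the parts together.
-/

set_option autoImplicit false

namespace H450BH

open IntermediateField Pool.Agent.H719R3.BG
open scoped ComplexConjugate

theorem finite_polygons (Ω : Set ℂ) (hT : Table Ω) (P : MvPolynomial (Fin 2) ℂ)
    (hP : Irreducible P) (hm : 2 ≤ P.totalDegree) (hB : Big P)
    (h0 : ∀ p ∈ frontier Ω, MvPolynomial.eval ![p, conj p] P = 0) (n : ℕ) (hn : 0 < n) :
    {x : ℤ → ℂ | Polygon Ω n x}.Finite :=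
  final ABS_proof FLD_proof TAN_proof (NS_proof KER_proof RED_proof COP_proof) NUL_proof
    (PAR_proof REL_proof) TRP_proof
    (MAIN_proof (ADD_proof REL_proof) (MUL_proof REL_proof) (PEN_proof REL_proof) SQ_proof
      LIN_proof) GER_proof Ω hT P hP hm hB h0 n hn

/-- A convex domain whose boundary is a regular curve has unique tangents. -/
theorem table_of_curve (Ω : Set ℂ) (hΩ : IsOpen Ω) (hc : Convex ℝ Ω)
    (hb : Bornology.IsBounded Ω) (hne : Ω.Nonempty) (hs : StrictConvex ℝ (closure Ω))
    (γ : ℝ → ℂ) (hγ : Differentiable ℝ γ) (hγ' : ∀ t, deriv γ t ≠ 0)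
    (hr : Set.range γ = frontier Ω) : Table Ω := by
  refine ⟨hΩ, hc, hb, hne, hs, ?_⟩
  have key : ∀ t : ℝ, ∀ u : ℂ, Tangent Ω (γ t) u → cr u (deriv γ t) = 0 := by
    intro t u hu
    -- the sign is constant on `Ω`
    have hcont : ∀ p : ℂ, Continuous fun y : ℂ => cr u (y - p) := by
      intro p
      unfold cr
      fun_prop
    have hsign : (∀ y ∈ Ω, 0 < cr u (y - γ t)) ∨ (∀ y ∈ Ω, cr u (y - γ t) < 0) := by
      by_contra hcon
      push Not at hcon
      obtain ⟨⟨y, hy, hy'⟩, ⟨y', hy1, hy1'⟩⟩ := hcon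
      obtain ⟨w, hw, hw'⟩ := hc.isPreconnected.intermediate_value hy hy1
        ((hcont (γ t)).continuousOn) ⟨hy', hy1'⟩
      exact hu.2 w hw hw'
    have hder : HasDerivAt (fun s : ℝ => cr u (γ s - γ t)) (cr u (deriv γ t)) t := by
      have h1 : HasDerivAt (fun s : ℝ => conj u * (γ s - γ t)) (conj u * deriv γ t) t :=
        ((hγ t).hasDerivAt.sub_const (γ t)).const_mul (conj u)
      exact (Complex.imCLM.hasFDerivAt.comp_hasDerivAt t h1)
    have hmem : ∀ s, γ s ∈ closure Ω := fun s => by
      apply frontier_subset_closure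
      rw [← hr]
      exact ⟨s, rfl⟩
    have h00 : cr u (γ t - γ t) = 0 := by simp [cr]
    rcases hsign with h | h
    · have hcl : ∀ y ∈ closure Ω, 0 ≤ cr u (y - γ t) := fun y hy =>
        closure_minimal (s := Ω) (t := {y | 0 ≤ cr u (y - γ t)}) (fun y hy => (h y hy).le)
          (isClosed_le continuous_const (hcont _)) hy
      have hmin : IsLocalMin (fun s : ℝ => cr u (γ s - γ t)) t :=
        Filter.Eventually.of_forall fun s => by
          simp only [h00]
          exact hcl _ (hmem s)
      exact hmin.hasDerivAt_eq_zero hder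
    · have hcl : ∀ y ∈ closure Ω, cr u (y - γ t) ≤ 0 := fun y hy =>
        closure_minimal (s := Ω) (t := {y | cr u (y - γ t) ≤ 0}) (fun y hy => (h y hy).le)
          (isClosed_le (hcont _) continuous_const) hy
      have hmax : IsLocalMax (fun s : ℝ => cr u (γ s - γ t)) t :=
        Filter.Eventually.of_forall fun s => by
          simp only [h00]
          exact hcl _ (hmem s)
      exact hmax.hasDerivAt_eq_zero hder
  intro p hp u v hu hv
  rw [← hr] at hp
  obtain ⟨t, rfl⟩ := hp
  have h1 := key t u hu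
  have h2 := key t v hv
  have h3 := hγ' t
  -- two vectors parallel to a nonzero one
  unfold cr at *
  simp only [Complex.mul_im, Complex.conj_re, Complex.conj_im] at *
  rcases (not_and_or.1 (fun h => h3 (Complex.ext h.1 h.2) :
    ¬ ((deriv γ t).re = 0 ∧ (deriv γ t).im = 0))) with h4 | h4
  · have : (deriv γ t).re * (u.re * v.im + -u.im * v.re) = 0 := by
      linear_combination (v.re) * h1 - u.re * h2
    exact (mul_eq_zero.1 this).resolve_left h4
  · have : (deriv γ t).im * (u.re * v.im + -u.im * v.re) = 0 := by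
      linear_combination (v.im) * h1 - u.im * h2
    exact (mul_eq_zero.1 this).resolve_left h4

end H450BH
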